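import Pool.Agent.K3L.Stmts

/-!
# MP_79568f_pr, lower bound: module ANA
-/

set_option autoImplicit false

namespace Pool.Agent.K3L

theorem ana_proof : Stmt_ANA := by
  intro c w hc hc1 hw
  refine ⟨w * (1 - c) / 6, by have : 0 < 1 - c := by linarith
                              positivity, ?_⟩
  intro δ y hδ hδ0 hy hcon
  have hδw : δ < w := by
    have : w * (1 - c) / 6 < w := by nlinarith
    linarith
  have hy0 : 0 < y := by linarith
  have hu : 0 ≤ y - w + δ := by linarith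
  have h1 : 27 / 4 * w * (y - w + δ) ^ 2 ≤ (y + δ) ^ 3 := by
    have e : (y + δ) ^ 3 - 27 / 4 * w * (y - w + δ) ^ 2 =
        (w - (y - w + δ) / 2) ^ 2 * (w + 4 * (y - w + δ)) := by ring
    have : 0 ≤ (w - (y - w + δ) / 2) ^ 2 * (w + 4 * (y - w + δ)) := by positivity
    linarith
  have h2 : y ^ 3 ≤ c * (y + δ) ^ 3 := by
    have e : 27 * c / 4 * w * (y - w + δ) ^ 2 = c * (27 / 4 * w * (y - w + δ) ^ 2) := by ring
    rw [e] at hcon
    exact hcon.trans (mul_le_mul_of_nonneg_left h1 hc.le)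
  have h3 : (w - δ) * (y + δ) ≤ w * y := by nlinarith
  have h4 : ((w - δ) * (y + δ)) ^ 3 ≤ (w * y) ^ 3 := by
    have : 0 ≤ (w - δ) * (y + δ) := by
      have : 0 < w - δ := by linarith
      positivity
    exact pow_le_pow_left₀ this h3 3
  have h5 : (w - δ) ^ 3 * (y + δ) ^ 3 ≤ (c * w ^ 3) * (y + δ) ^ 3 := by
    calc (w - δ) ^ 3 * (y + δ) ^ 3 = ((w - δ) * (y + δ)) ^ 3 := by ring
      _ ≤ (w * y) ^ 3 := h4
      _ = w ^ 3 * y ^ 3 := by ring
      _ ≤ w ^ 3 * (c * (y + δ) ^ 3) := mul_le_mul_of_nonneg_left h2 (by positivity)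
      _ = _ := by ring
  have h6 : (w - δ) ^ 3 ≤ c * w ^ 3 :=
    le_of_mul_le_mul_right h5 (by positivity)
  -- lower bound
  have h7 : w * (5 + c) / 6 ≤ w - δ := by
    have : w - w * (1 - c) / 6 = w * (5 + c) / 6 := by ring
    linarith
  have h8 : (w * (5 + c) / 6) ^ 3 ≤ (w - δ) ^ 3 := pow_le_pow_left₀ (by positivity) h7 3
  have h9 : (w * (5 + c) / 6) ^ 3 = w ^ 3 * ((5 + c) / 6) ^ 3 := by ring
  have h10 : (1 + c) / 2 ≤ ((5 + c) / 6) ^ 3 := by
    have e : ((5 + c) / 6) ^ 3 - (1 + c) / 2 = ((1 - c) / 6) ^ 2 * (3 - (1 - c) / 6) := by ring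
    have : 0 ≤ ((1 - c) / 6) ^ 2 * (3 - (1 - c) / 6) := by
      have : 0 ≤ 3 - (1 - c) / 6 := by linarith
      positivity
    linarith
  have h11 : c < (1 + c) / 2 := by linarith
  have h12 : c * w ^ 3 < w ^ 3 * ((5 + c) / 6) ^ 3 := by
    have : c < ((5 + c) / 6) ^ 3 := lt_of_lt_of_le h11 h10
    have hw3 : 0 < w ^ 3 := by positivity
    nlinarith
  linarith

end Pool.Agent.K3L
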