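import Pool.Agent.K3L.Stmts

/-!
# MP_79568f_pr, lower bound: module BIN (Chebyshev for the number of points in a box)
-/

set_option autoImplicit false

namespace Pool.Agent.K3L

open MeasureTheory ProbabilityTheory
open scoped ENNReal

namespace BIN_

/-- The indicator function of a box. -/
noncomputable def X (A : Set (ℝ × ℝ)) : ℝ × ℝ → ℝ := A.indicator (fun _ => (1 : ℝ))

lemma measurable_X {A : Set (ℝ × ℝ)} (hA : MeasurableSet A) : Measurable (X A) :=
  measurable_const.indicator hA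

lemma X_mem (A : Set (ℝ × ℝ)) (p : ℝ × ℝ) : X A p ∈ Set.Icc (0 : ℝ) 1 := by
  unfold X
  by_cases h : p ∈ A
  · simp [Set.indicator_of_mem h]
  · simp [Set.indicator_of_notMem h]

lemma cnt_eq {n : ℕ} (x : Fin n → ℝ × ℝ) (A : Set (ℝ × ℝ)) :
    (cnt x A : ℝ) = ∑ i, X A (x i) := by
  classical
  unfold cnt X
  rw [Finset.card_eq_sum_ones, Nat.cast_sum, Finset.sum_filter]
  refine Finset.sum_congr rfl (fun i _ => ?_)
  by_cases h : x i ∈ A
  · simp [Set.indicator_of_mem h, h]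
  · simp [Set.indicator_of_notMem h, h]

lemma integral_X {a₁ b₁ a₂ b₂ : ℝ} (h1 : 0 ≤ a₁) (h2 : a₁ < b₁) (h3 : b₁ ≤ 1)
    (h4 : 0 ≤ a₂) (h5 : a₂ < b₂) (h6 : b₂ ≤ 1) :
    ∫ p, X (bx a₁ b₁ a₂ b₂) p ∂sq = (b₁ - a₁) * (b₂ - a₂) := by
  have hm : MeasurableSet (bx a₁ b₁ a₂ b₂) := measurableSet_Ico.prod measurableSet_Ico
  unfold X
  rw [integral_indicator_const _ hm, smul_eq_mul, mul_one, Measure.real, bx,
    sq_rect h1 h3 h4 h6, ENNReal.toReal_mul, ENNReal.toReal_ofReal (by linarith),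
    ENNReal.toReal_ofReal (by linarith)]

end BIN_

open BIN_ in
/-- Chebyshev for the number of points in a box. -/
theorem bin_proof : Stmt_BIN := by
  intro n t a₁ b₁ a₂ b₂ h1 h2 h3 h4 h5 h6 ht
  have hm : MeasurableSet (bx a₁ b₁ a₂ b₂) := measurableSet_Ico.prod measurableSet_Ico
  set A := bx a₁ b₁ a₂ b₂ with hA
  have hX : MemLp (X A) 2 sq :=
    memLp_of_bounded (ae_of_all _ (X_mem A)) (measurable_X hm).aestronglyMeasurable 2
  have hXi : ∀ i : Fin n, MemLp (fun x : Fin n → ℝ × ℝ => X A (x i)) 2 (P2 n) := fun i =>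
    hX.comp_measurePreserving (measurePreserving_eval (fun _ => sq) i)
  have hS : MemLp (∑ i, fun x : Fin n → ℝ × ℝ => X A (x i)) 2 (P2 n) :=
    memLp_finsetSum' _ (fun i _ => hXi i)
  have hv : Var[∑ i, fun x : Fin n → ℝ × ℝ => X A (x i); P2 n] ≤ n := by
    have := variance_sum_pi (μ := fun _ : Fin n => sq) (X := fun _ => X A) (fun _ => hX)
    unfold P2
    rw [this]
    have h := variance_le_sq_of_bounded (μ := sq) (ae_of_all _ (X_mem A))
      (measurable_X hm).aemeasurable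
    rw [Finset.sum_const, Finset.card_univ, Fintype.card_fin, nsmul_eq_mul]
    have hn : (0 : ℝ) ≤ n := Nat.cast_nonneg n
    nlinarith
  have hE : ∫ x, (∑ i, fun x : Fin n → ℝ × ℝ => X A (x i)) x ∂(P2 n) =
      n * ((b₁ - a₁) * (b₂ - a₂)) := by
    simp only [Finset.sum_apply]
    rw [integral_finset_sum _ (fun i _ => (hXi i).integrable (by norm_num))]
    have : ∀ i : Fin n, ∫ x, X A (x i) ∂(P2 n) = (b₁ - a₁) * (b₂ - a₂) := by
      intro i
      rw [← integral_X h1 h2 h3 h4 h5 h6]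
      exact integral_comp_eval (μ := fun _ : Fin n => sq) (measurable_X hm).aestronglyMeasurable
    rw [Finset.sum_congr rfl (fun i _ => this i), Finset.sum_const, Finset.card_univ,
      Fintype.card_fin, nsmul_eq_mul]
  have hC := meas_ge_le_variance_div_sq hS ht
  rw [hE] at hC
  have hset : {x : Fin n → ℝ × ℝ | t ≤ |(cnt x A : ℝ) - n * ((b₁ - a₁) * (b₂ - a₂))|} =
      {x | t ≤ |(∑ i, fun x : Fin n → ℝ × ℝ => X A (x i)) x -
        n * ((b₁ - a₁) * (b₂ - a₂))|} := by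
    ext x
    simp only [Set.mem_setOf_eq, Finset.sum_apply, cnt_eq]
  rw [hset]
  refine hC.trans (ENNReal.ofReal_le_ofReal ?_)
  exact div_le_div_of_nonneg_right hv (by positivity)

end Pool.Agent.K3L
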