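import Pool.Agent.K3L.Stmts

/-!
# MP_79568f_pr, lower bound: restriction to a box
-/

set_option autoImplicit false

namespace Pool.Agent.K3L

open MeasureTheory Filter Topology
open scoped ENNReal

namespace BOX_

/-- Tonelli for the first point. -/
lemma lint_cons (n : ℕ) (F : (Fin (n + 1) → ℝ × ℝ) → ℝ≥0∞) (hF : Measurable F) :
    ∫⁻ x, F x ∂(P2 (n + 1)) = ∫⁻ p, ∫⁻ y, F (Fin.cons p y) ∂(P2 n) ∂sq := by
  have h := (measurePreserving_piFinSuccAbove (fun _ : Fin (n + 1) => sq) 0).symm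
  have h2 := h.lintegral_comp hF
  rw [P2, ← h2, lintegral_prod]
  · change _ = ∫⁻ p, ∫⁻ y, F (Fin.cons p y) ∂(Measure.pi fun _ : Fin n => sq) ∂sq
    refine lintegral_congr fun p => lintegral_congr fun y => ?_
    congr 1
    funext i
    refine Fin.cases rfl (fun i => rfl) i
  · exact (hF.comp (MeasurableEquiv.measurable _)).aemeasurable

open Classical in
/-- The value of `v` at the (rescaled) points of `x` inside `D`. -/
noncomputable def W (D : Set (ℝ × ℝ)) (f : ℝ × ℝ → ℝ × ℝ) :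
    (n : ℕ) → ((j : ℕ) → (Fin j → ℝ × ℝ) → ℝ≥0∞) → (Fin n → ℝ × ℝ) → ℝ≥0∞
  | 0, v, x => v 0 x
  | n + 1, v, x =>
    if x 0 ∈ D then W D f n (fun j y => v (j + 1) (Fin.cons (f (x 0)) y)) (fun i => x i.succ)
    else W D f n v (fun i => x i.succ)

lemma meas_W {D : Set (ℝ × ℝ)} {f : ℝ × ℝ → ℝ × ℝ} (hD : MeasurableSet D) (hf : Measurable f) :
    ∀ (n : ℕ) (α : Type) [MeasurableSpace α] (v : α → (j : ℕ) → (Fin j → ℝ × ℝ) → ℝ≥0∞),
      (∀ j, Measurable (fun q : α × (Fin j → ℝ × ℝ) => v q.1 j q.2)) →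
      Measurable (fun q : α × (Fin n → ℝ × ℝ) => W D f n (v q.1) q.2) := by
  intro n
  induction n with
  | zero =>
    intro α _ v hv
    exact hv 0
  | succ n ih =>
    intro α _ v hv
    have h1 : Measurable (fun q : α × (Fin (n + 1) → ℝ × ℝ) =>
        W D f n (fun j y => v q.1 (j + 1) (Fin.cons (f (q.2 0)) y)) (fun i => q.2 i.succ)) := by
      have h2 := ih (α × (ℝ × ℝ)) (fun a j y => v a.1 (j + 1) (Fin.cons (f a.2) y)) (by
        intro j
        have h3 : Measurable (fun q : (α × (ℝ × ℝ)) × (Fin j → ℝ × ℝ) =>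
            ((q.1.1, Fin.cons (f q.1.2) q.2) : α × (Fin (j + 1) → ℝ × ℝ))) := by
          refine Measurable.prodMk (by fun_prop) ?_
          refine measurable_pi_lambda _ fun i => ?_
          refine Fin.cases ?_ (fun i => ?_) i
          · simp only [Fin.cons_zero]
            fun_prop
          · simp only [Fin.cons_succ]
            fun_prop
        exact (hv (j + 1)).comp h3)
      have h4 : Measurable (fun q : α × (Fin (n + 1) → ℝ × ℝ) =>
          (((q.1, q.2 0), fun i : Fin n => q.2 i.succ) : (α × (ℝ × ℝ)) × (Fin n → ℝ × ℝ))) := by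
        fun_prop
      exact h2.comp h4
    have h5 : Measurable (fun q : α × (Fin (n + 1) → ℝ × ℝ) =>
        W D f n (v q.1) (fun i => q.2 i.succ)) := by
      have h4 : Measurable (fun q : α × (Fin (n + 1) → ℝ × ℝ) =>
          ((q.1, fun i : Fin n => q.2 i.succ) : α × (Fin n → ℝ × ℝ))) := by
        fun_prop
      exact (ih α v hv).comp h4
    have h6 : MeasurableSet {q : α × (Fin (n + 1) → ℝ × ℝ) | q.2 0 ∈ D} :=
      (by fun_prop : Measurable fun q : α × (Fin (n + 1) → ℝ × ℝ) => q.2 0) hD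
    exact Measurable.ite h6 h1 h5

lemma meas_W' {D : Set (ℝ × ℝ)} {f : ℝ × ℝ → ℝ × ℝ} (hD : MeasurableSet D) (hf : Measurable f)
    (n : ℕ) (v : (j : ℕ) → (Fin j → ℝ × ℝ) → ℝ≥0∞) (hv : ∀ j, Measurable (v j)) :
    Measurable (fun x : Fin n → ℝ × ℝ => W D f n v x) := by
  have h := meas_W hD hf n Unit (fun _ => v) (fun j => (hv j).comp measurable_snd)
  exact h.comp (by fun_prop : Measurable fun x : Fin n → ℝ × ℝ => ((), x))

lemma rep (D : Set (ℝ × ℝ)) (f : ℝ × ℝ → ℝ × ℝ) : ∀ (n : ℕ) (x : Fin n → ℝ × ℝ),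
    ∃ (j : ℕ) (e : Fin j → Fin n), StrictMono e ∧ (∀ i, x i ∈ D ↔ ∃ k, e k = i) ∧
      ∀ v, W D f n v x = v j (fun k => f (x (e k))) := by
  classical
  intro n
  induction n with
  | zero =>
    intro x
    refine ⟨0, fun i => i.elim0, fun i => i.elim0, fun i => i.elim0, fun v => ?_⟩
    change v 0 x = _
    congr 1
    funext i
    exact i.elim0
  | succ n ih =>
    intro x
    obtain ⟨j, e, he, hr, hW⟩ := ih (fun i => x i.succ)
    by_cases h0 : x 0 ∈ D
    · refine ⟨j + 1, Fin.cons 0 (fun k => (e k).succ), ?_, ?_, ?_⟩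
      · intro a b
        refine Fin.cases ?_ (fun a => ?_) a
        · refine Fin.cases (fun h => absurd h (lt_irrefl _)) (fun b _ => ?_) b
          simp [Fin.succ_pos]
        · refine Fin.cases (fun h => absurd h (by simp)) (fun b h => ?_) b
          simp only [Fin.cons_succ, Fin.succ_lt_succ_iff] at h ⊢
          exact he h
      · intro i
        refine Fin.cases ?_ (fun i => ?_) i
        · exact ⟨fun _ => ⟨0, rfl⟩, fun _ => h0⟩
        · rw [hr i]
          constructor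
          · rintro ⟨k, hk⟩
            exact ⟨k.succ, by simp [hk]⟩
          · rintro ⟨k, hk⟩
            revert hk
            refine Fin.cases (fun hk => ?_) (fun k hk => ?_) k
            · exact absurd hk.symm (Fin.succ_ne_zero i)
            · simp only [Fin.cons_succ] at hk
              exact ⟨k, Fin.succ_injective _ hk⟩
      · intro v
        change (if x 0 ∈ D then _ else _) = _
        rw [if_pos h0, hW]
        congr 1
        funext k
        refine Fin.cases ?_ (fun k => ?_) k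
        · simp
        · simp
    · refine ⟨j, fun k => (e k).succ, ?_, ?_, ?_⟩
      · intro a b h
        exact Fin.succ_lt_succ_iff.2 (he h)
      · intro i
        refine Fin.cases ?_ (fun i => ?_) i
        · exact ⟨fun h => absurd h h0, fun ⟨k, hk⟩ => absurd hk (Fin.succ_ne_zero _)⟩
        · rw [hr i]
          constructor
          · rintro ⟨k, hk⟩
            exact ⟨k, by simp [hk]⟩
          · rintro ⟨k, hk⟩
            exact ⟨k, Fin.succ_injective _ hk⟩
      · intro v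
        change (if x 0 ∈ D then _ else _) = _
        rw [if_neg h0, hW]

lemma int_W {D : Set (ℝ × ℝ)} {f : ℝ × ℝ → ℝ × ℝ} (hD : MeasurableSet D) (hf : Measurable f)
    (β : ℝ≥0∞) (hβ : ∀ g : ℝ × ℝ → ℝ≥0∞, Measurable g →
      ∫⁻ p in D, g (f p) ∂sq = β * ∫⁻ q, g q ∂sq) :
    ∀ n : ℕ, ∃ c : ℕ → ℝ≥0∞, ∀ v : (j : ℕ) → (Fin j → ℝ × ℝ) → ℝ≥0∞, (∀ j, Measurable (v j)) →
      ∫⁻ x, W D f n v x ∂(P2 n) = ∑' j, c j * ∫⁻ y, v j y ∂(P2 j) := by
  classical
  intro n
  induction n with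
  | zero =>
    refine ⟨fun j => if j = 0 then 1 else 0, fun v _ => ?_⟩
    rw [tsum_eq_single 0]
    · simp only [if_true, one_mul]
      rfl
    · intro j hj
      simp only [hj, if_false, zero_mul]
  | succ n ih =>
    obtain ⟨c, hc⟩ := ih
    refine ⟨fun j => β * (Nat.casesOn j 0 c) + sq Dᶜ * c j, fun v hv => ?_⟩
    have hcm : ∀ j, Measurable (fun q : (ℝ × ℝ) × (Fin j → ℝ × ℝ) =>
        (Fin.cons q.1 q.2 : Fin (j + 1) → ℝ × ℝ)) := by
      intro j
      refine measurable_pi_lambda _ fun i => ?_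
      refine Fin.cases ?_ (fun i => ?_) i
      · simp only [Fin.cons_zero]
        fun_prop
      · simp only [Fin.cons_succ]
        fun_prop
    have hg : ∀ j, Measurable (fun q : ℝ × ℝ => ∫⁻ y, v (j + 1) (Fin.cons q y) ∂(P2 j)) := by
      intro j
      exact ((hv (j + 1)).comp (hcm j)).lintegral_prod_right'
    rw [lint_cons n _ (meas_W' hD hf (n + 1) v hv)]
    rw [← lintegral_add_compl _ hD]
    have e1 : ∫⁻ p in D, ∫⁻ y, W D f (n + 1) v (Fin.cons p y) ∂(P2 n) ∂sq =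
        ∑' j, c j * (β * ∫⁻ y, v (j + 1) y ∂(P2 (j + 1))) := by
      have e2 : ∫⁻ p in D, ∫⁻ y, W D f (n + 1) v (Fin.cons p y) ∂(P2 n) ∂sq =
          ∫⁻ p in D, ∑' j, c j * ∫⁻ y, v (j + 1) (Fin.cons (f p) y) ∂(P2 j) ∂sq := by
        refine setLIntegral_congr_fun hD ?_
        intro p hp
        simp only
        rw [← hc (fun j y => v (j + 1) (Fin.cons (f p) y))]
        · refine lintegral_congr fun y => ?_
          change (if (Fin.cons p y : Fin (n + 1) → ℝ × ℝ) 0 ∈ D then _ else _) = _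
          rw [Fin.cons_zero, if_pos hp]
          simp only [Fin.cons_succ]
        · intro j
          have h7 : Measurable (fun y : Fin j → ℝ × ℝ =>
              (Fin.cons (f p) y : Fin (j + 1) → ℝ × ℝ)) :=
            (hcm j).comp measurable_prodMk_left
          exact (hv (j + 1)).comp h7
      rw [e2, lintegral_tsum]
      · refine tsum_congr fun j => ?_
        rw [lintegral_const_mul, hβ _ (hg j), lint_cons j _ (hv (j + 1))]
        exact (hg j).comp hf
      · intro j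
        exact (((hg j).comp hf).const_mul _).aemeasurable
    have e3 : ∫⁻ p in Dᶜ, ∫⁻ y, W D f (n + 1) v (Fin.cons p y) ∂(P2 n) ∂sq =
        ∑' j, sq Dᶜ * c j * ∫⁻ y, v j y ∂(P2 j) := by
      have e2 : ∫⁻ p in Dᶜ, ∫⁻ y, W D f (n + 1) v (Fin.cons p y) ∂(P2 n) ∂sq =
          ∫⁻ _p in Dᶜ, (∑' j, c j * ∫⁻ y, v j y ∂(P2 j)) ∂sq := by
        refine setLIntegral_congr_fun hD.compl ?_
        intro p hp
        simp only
        rw [← hc v hv]
        refine lintegral_congr fun y => ?_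
        change (if (Fin.cons p y : Fin (n + 1) → ℝ × ℝ) 0 ∈ D then _ else _) = _
        rw [Fin.cons_zero, if_neg hp]
        simp only [Fin.cons_succ]
      rw [e2, setLIntegral_const, mul_comm, ← ENNReal.tsum_mul_left]
      refine tsum_congr fun j => ?_
      ring
    rw [e1, e3]
    have e4 : (∑' j, (β * (Nat.casesOn j 0 c : ℝ≥0∞) + sq Dᶜ * c j) * ∫⁻ y, v j y ∂(P2 j)) =
        (∑' j, (β * (Nat.casesOn j 0 c : ℝ≥0∞)) * ∫⁻ y, v j y ∂(P2 j)) +
          ∑' j, sq Dᶜ * c j * ∫⁻ y, v j y ∂(P2 j) := by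
      rw [← ENNReal.tsum_add]
      refine tsum_congr fun j => ?_
      ring
    rw [e4]
    congr 1
    have e5 := tsum_eq_zero_add' (f := fun j =>
      (β * (Nat.casesOn j 0 c : ℝ≥0∞)) * ∫⁻ y, v j y ∂(P2 j)) ENNReal.summable
    refine Eq.trans ?_ e5.symm
    change _ = (β * 0) * _ + ∑' j, (β * c j) * ∫⁻ y, v (j + 1) y ∂(P2 (j + 1))
    rw [mul_zero, zero_mul, zero_add]
    refine tsum_congr fun j => ?_
    ring

lemma L2_eq {n j : ℕ} {D : Set (ℝ × ℝ)} {f : ℝ × ℝ → ℝ × ℝ} {x : Fin n → ℝ × ℝ}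
    {e : Fin j → Fin n} (he : StrictMono e) (hr : ∀ i, x i ∈ D ↔ ∃ k, e k = i)
    (hf : ∀ p q : ℝ × ℝ, ((f p).1 < (f q).1 ↔ p.1 < q.1) ∧ ((f p).2 < (f q).2 ↔ p.2 < q.2)) :
    L2 (fun k => f (x (e k))) Set.univ = L2 x D := by
  classical
  apply le_antisymm
  · obtain ⟨S, hS, -, hc⟩ := exists_L2 (fun k => f (x (e k))) Set.univ
    rw [← hc, ← Finset.card_map ⟨e, he.injective⟩]
    refine card_le_L2 ?_ ?_
    · intro a' ha' b' hb' hab
      obtain ⟨a, ha, rfl⟩ := Finset.mem_map.1 ha'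
      obtain ⟨b, hb, rfl⟩ := Finset.mem_map.1 hb'
      have := hS a ha b hb (he.lt_iff_lt.1 hab)
      simp only at this
      rw [(hf _ _).1, (hf _ _).2] at this
      exact this
    · intro a' ha'
      obtain ⟨a, ha, rfl⟩ := Finset.mem_map.1 ha'
      exact (hr _).2 ⟨a, rfl⟩
  · obtain ⟨S, hS, hD, hc⟩ := exists_L2 x D
    have h1 : S = (Finset.univ.filter (fun k => e k ∈ S)).map ⟨e, he.injective⟩ := by
      ext i
      simp only [Finset.mem_map, Finset.mem_filter, Finset.mem_univ, true_and,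
        Function.Embedding.coeFn_mk]
      constructor
      · intro hi
        obtain ⟨k, rfl⟩ := (hr i).1 (hD i hi)
        exact ⟨k, hi, rfl⟩
      · rintro ⟨k, hk, rfl⟩
        exact hk
    rw [← hc]
    have h2 : S.card = (Finset.univ.filter (fun k => e k ∈ S)).card := by
      conv_lhs => rw [h1]
      rw [Finset.card_map]
    rw [h2]
    refine card_le_L2 ?_ (fun _ _ => Set.mem_univ _)
    intro a ha b hb hab
    have := hS (e a) (Finset.mem_filter.1 ha).2 (e b) (Finset.mem_filter.1 hb).2 (he hab)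
    simp only
    rw [(hf _ _).1, (hf _ _).2]
    exact this

lemma cnt_eq {n j : ℕ} {D : Set (ℝ × ℝ)} {x : Fin n → ℝ × ℝ}
    {e : Fin j → Fin n} (he : StrictMono e) (hr : ∀ i, x i ∈ D ↔ ∃ k, e k = i) :
    cnt x D = j := by
  classical
  unfold cnt
  have h1 : (Finset.univ.filter (fun i : Fin n => x i ∈ D)) =
      (Finset.univ : Finset (Fin j)).map ⟨e, he.injective⟩ := by
    ext i
    simp only [Finset.mem_map, Finset.mem_filter, Finset.mem_univ, true_and,
      Function.Embedding.coeFn_mk]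
    exact hr i
  rw [h1, Finset.card_map, Finset.card_univ, Fintype.card_fin]

lemma L2_tail {n : ℕ} (p : ℝ × ℝ) (y : Fin n → ℝ × ℝ) :
    L2 y Set.univ ≤ L2 (Fin.cons p y : Fin (n + 1) → ℝ × ℝ) Set.univ := by
  classical
  obtain ⟨S, hS, -, hc⟩ := exists_L2 y Set.univ
  rw [← hc, ← Finset.card_map ⟨Fin.succ, Fin.succ_injective n⟩]
  refine card_le_L2 ?_ (fun _ _ => Set.mem_univ _)
  intro a' ha' b' hb' hab
  obtain ⟨a, ha, rfl⟩ := Finset.mem_map.1 ha'
  obtain ⟨b, hb, rfl⟩ := Finset.mem_map.1 hb'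
  simp only [Function.Embedding.coeFn_mk, Fin.cons_succ, Fin.succ_lt_succ_iff] at hab ⊢
  exact hS a ha b hb hab

open Classical in
/-- The indicator of a long increasing subsequence. -/
noncomputable def v1 (r : ℝ) (j : ℕ) (y : Fin j → ℝ × ℝ) : ℝ≥0∞ :=
  if r ≤ (L2 y Set.univ : ℝ) then 1 else 0

open Classical in
/-- The indicator of many points. -/
noncomputable def v2 (m : ℕ) (j : ℕ) (_y : Fin j → ℝ × ℝ) : ℝ≥0∞ :=
  if m < j then 1 else 0

lemma meas_set (h : Stmt_MSR) (r : ℝ) (j : ℕ) (A : Set (ℝ × ℝ)) (hA : MeasurableSet A) :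
    MeasurableSet {y : Fin j → ℝ × ℝ | r ≤ (L2 y A : ℝ)} := by
  have h1 : Measurable (fun y : Fin j → ℝ × ℝ => (L2 y A : ℝ)) :=
    measurable_from_nat.comp (h.2 j A hA)
  exact h1 measurableSet_Ici

lemma meas_v1 (h : Stmt_MSR) (r : ℝ) (j : ℕ) : Measurable (v1 r j) :=
  Measurable.ite (meas_set h r j _ MeasurableSet.univ) measurable_const measurable_const

lemma int_v1 (h : Stmt_MSR) (r : ℝ) (j : ℕ) :
    ∫⁻ y, v1 r j y ∂(P2 j) = P2 j {y | r ≤ (L2 y Set.univ : ℝ)} := by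
  have h1 : v1 r j = Set.indicator {y : Fin j → ℝ × ℝ | r ≤ (L2 y Set.univ : ℝ)} 1 := by
    funext y
    by_cases hy : r ≤ (L2 y Set.univ : ℝ)
    · rw [Set.indicator_of_mem (by exact hy)]
      simp [v1, hy]
    · rw [Set.indicator_of_notMem (by exact hy)]
      simp [v1, hy]
  rw [h1, lintegral_indicator_one (meas_set h r j _ MeasurableSet.univ)]

lemma mono_step (h : Stmt_MSR) (r : ℝ) (j : ℕ) :
    P2 j {y | r ≤ (L2 y Set.univ : ℝ)} ≤ P2 (j + 1) {y | r ≤ (L2 y Set.univ : ℝ)} := by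
  rw [← int_v1 h, ← int_v1 h, lint_cons j _ (meas_v1 h r (j + 1))]
  have h1 : ∫⁻ y, v1 r j y ∂(P2 j) = ∫⁻ _p, ∫⁻ y, v1 r j y ∂(P2 j) ∂sq := by
    rw [lintegral_const, measure_univ, mul_one]
  rw [h1]
  refine lintegral_mono fun p => lintegral_mono fun y => ?_
  unfold v1
  have h2 := L2_tail p y
  by_cases hy : r ≤ (L2 y Set.univ : ℝ)
  · have h3 : r ≤ (L2 (Fin.cons p y : Fin (j + 1) → ℝ × ℝ) Set.univ : ℝ) :=
      hy.trans (by exact_mod_cast h2)
    rw [if_pos hy, if_pos h3]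
  · rw [if_neg hy]
    exact zero_le

lemma mono_P2 (h : Stmt_MSR) (r : ℝ) {j m : ℕ} (hjm : j ≤ m) :
    P2 j {y | r ≤ (L2 y Set.univ : ℝ)} ≤ P2 m {y | r ≤ (L2 y Set.univ : ℝ)} := by
  induction m, hjm using Nat.le_induction with
  | base => exact le_rfl
  | succ m _ ih => exact ih.trans (mono_step h r m)

/-- the rescaling of the box -/
noncomputable def aff (a₁ b₁ a₂ b₂ : ℝ) (p : ℝ × ℝ) : ℝ × ℝ :=
  ((p.1 - a₁) * (b₁ - a₁)⁻¹, (p.2 - a₂) * (b₂ - a₂)⁻¹)

lemma map_one {a b : ℝ} (ha : 0 ≤ a) (hab : a < b) (hb : b ≤ 1) :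
    (((volume : Measure ℝ).restrict (Set.Ico 0 1)).restrict (Set.Ico a b)).map
      (fun t => (t - a) * (b - a)⁻¹) =
      ENNReal.ofReal (b - a) • ((volume : Measure ℝ).restrict (Set.Ico 0 1)) := by
  have hba : 0 < b - a := by linarith
  have h0 : Set.Ico a b ∩ Set.Ico 0 1 = Set.Ico a b := by
    apply Set.inter_eq_left.2
    exact Set.Ico_subset_Ico ha hb
  rw [Measure.restrict_restrict measurableSet_Ico, h0]
  have hpre : Set.Ico a b = (fun t : ℝ => (t - a) * (b - a)⁻¹) ⁻¹' (Set.Ico 0 1) := by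
    ext t
    simp only [Set.mem_Ico, Set.mem_preimage, ← div_eq_mul_inv]
    rw [le_div_iff₀ hba, div_lt_iff₀ hba]
    constructor
    · rintro ⟨h1, h2⟩
      exact ⟨by linarith, by linarith⟩
    · rintro ⟨h1, h2⟩
      exact ⟨by linarith, by linarith⟩
  have hm : Measurable (fun t : ℝ => (t - a) * (b - a)⁻¹) := by fun_prop
  rw [hpre, ← Measure.restrict_map hm measurableSet_Ico]
  have hcomp : (fun t : ℝ => (t - a) * (b - a)⁻¹) = (fun t => t * (b - a)⁻¹) ∘ (fun t => t - a) :=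
    rfl
  rw [hcomp, ← Measure.map_map (by fun_prop) (by fun_prop)]
  have h1 : (volume : Measure ℝ).map (fun t => t - a) = volume := by
    have := (measurePreserving_sub_right (volume : Measure ℝ) a).map_eq
    exact this
  rw [h1, Real.map_volume_mul_right (by positivity : (b - a)⁻¹ ≠ 0), inv_inv, abs_of_pos hba,
    Measure.restrict_smul]

lemma map_sq {a₁ b₁ a₂ b₂ : ℝ} (ha₁ : 0 ≤ a₁) (h₁ : a₁ < b₁) (hb₁ : b₁ ≤ 1)
    (ha₂ : 0 ≤ a₂) (h₂ : a₂ < b₂) (hb₂ : b₂ ≤ 1) :
    (sq.restrict (bx a₁ b₁ a₂ b₂)).map (aff a₁ b₁ a₂ b₂) =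
      (ENNReal.ofReal (b₁ - a₁) * ENNReal.ofReal (b₂ - a₂)) • sq := by
  have hm1 : Measurable (fun t : ℝ => (t - a₁) * (b₁ - a₁)⁻¹) := by fun_prop
  have hm2 : Measurable (fun t : ℝ => (t - a₂) * (b₂ - a₂)⁻¹) := by fun_prop
  have haff : aff a₁ b₁ a₂ b₂ = Prod.map (fun t => (t - a₁) * (b₁ - a₁)⁻¹)
      (fun t => (t - a₂) * (b₂ - a₂)⁻¹) := by
    funext p
    rfl
  unfold bx sq
  rw [← Measure.prod_restrict, haff, ← Measure.map_prod_map _ _ hm1 hm2, map_one ha₁ h₁ hb₁,
    map_one ha₂ h₂ hb₂, Measure.prod_smul_left, Measure.prod_smul_right, smul_smul]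

end BOX_

open BOX_ in
theorem box_proof (h : Stmt_MSR) : Stmt_BOX := by
  classical
  intro n m r a₁ b₁ a₂ b₂ ha₁ h₁ hb₁ ha₂ h₂ hb₂
  set D := bx a₁ b₁ a₂ b₂ with hDdef
  set f := aff a₁ b₁ a₂ b₂ with hfdef
  have hD : MeasurableSet D := measurableSet_Ico.prod measurableSet_Ico
  have hf : Measurable f := by
    rw [hfdef]
    unfold aff
    fun_prop
  have hβ : ∀ g : ℝ × ℝ → ℝ≥0∞, Measurable g → ∫⁻ p in D, g (f p) ∂sq =
      (ENNReal.ofReal (b₁ - a₁) * ENNReal.ofReal (b₂ - a₂)) * ∫⁻ q, g q ∂sq := by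
    intro g hg
    rw [← lintegral_map hg hf, hDdef, hfdef, map_sq ha₁ h₁ hb₁ ha₂ h₂ hb₂, lintegral_smul_measure,
      smul_eq_mul]
  have hmono : ∀ p q : ℝ × ℝ,
      ((f p).1 < (f q).1 ↔ p.1 < q.1) ∧ ((f p).2 < (f q).2 ↔ p.2 < q.2) := by
    intro p q
    have e1 : 0 < (b₁ - a₁)⁻¹ := inv_pos.2 (by linarith)
    have e2 : 0 < (b₂ - a₂)⁻¹ := inv_pos.2 (by linarith)
    constructor
    · change (p.1 - a₁) * (b₁ - a₁)⁻¹ < (q.1 - a₁) * (b₁ - a₁)⁻¹ ↔ _
      rw [mul_lt_mul_iff_left₀ e1]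
      exact sub_lt_sub_iff_right a₁
    · change (p.2 - a₂) * (b₂ - a₂)⁻¹ < (q.2 - a₂) * (b₂ - a₂)⁻¹ ↔ _
      rw [mul_lt_mul_iff_left₀ e2]
      exact sub_lt_sub_iff_right a₂
  obtain ⟨c, hc⟩ := int_W hD hf _ hβ n
  -- the three integrals
  have k0 : ∑' j, c j = 1 := by
    have := hc (fun _ _ => 1) (fun _ => measurable_const)
    simp only [lintegral_const, measure_univ, mul_one] at this
    rw [← this]
    have e : ∀ x, W D f n (fun _ _ => (1 : ℝ≥0∞)) x = 1 := by
      intro x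
      obtain ⟨j, e, -, -, hW⟩ := rep D f n x
      rw [hW]
    simp only [e, lintegral_const, measure_univ, mul_one]
  have k1 : P2 n {x | r ≤ (L2 x D : ℝ)} =
      ∑' j, c j * P2 j {y | r ≤ (L2 y Set.univ : ℝ)} := by
    have := hc (v1 r) (meas_v1 h r)
    simp only [int_v1 h] at this
    rw [← this, ← lintegral_indicator_one (meas_set h r n D hD)]
    refine lintegral_congr fun x => ?_
    obtain ⟨j, e, he, hr, hW⟩ := rep D f n x
    rw [hW]
    unfold v1
    rw [L2_eq he hr hmono]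
    by_cases hx : r ≤ (L2 x D : ℝ)
    · rw [Set.indicator_of_mem (by exact hx), if_pos hx]
      rfl
    · rw [Set.indicator_of_notMem (by exact hx), if_neg hx]
  have k2 : ∑' j, c j * (if m < j then 1 else 0) = P2 n {x | m < cnt x D} := by
    have := hc (v2 m) (fun j => measurable_const)
    have e1 : ∀ j, ∫⁻ y, v2 m j y ∂(P2 j) = if m < j then 1 else 0 := by
      intro j
      unfold v2
      rw [lintegral_const, measure_univ, mul_one]
    simp only [e1] at this
    rw [← this]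
    have e3 : ∀ x, W D f n (v2 m) x = Set.indicator {x : Fin n → ℝ × ℝ | m < cnt x D} 1 x := by
      intro x
      obtain ⟨j, e, he, hr, hW⟩ := rep D f n x
      rw [hW]
      unfold v2
      have e4 := cnt_eq he hr
      by_cases hx : m < cnt x D
      · rw [Set.indicator_of_mem (by exact hx), if_pos (by rw [← e4]; exact hx)]
        rfl
      · rw [Set.indicator_of_notMem (by exact hx), if_neg (by rw [← e4]; exact hx)]
    have e5 : MeasurableSet {x : Fin n → ℝ × ℝ | m < cnt x D} := by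
      have e6 := meas_W' hD hf n (v2 m) (fun j => measurable_const)
      have e7 : {x : Fin n → ℝ × ℝ | m < cnt x D} =
          (fun x : Fin n → ℝ × ℝ => W D f n (v2 m) x) ⁻¹' {1} := by
        ext x
        simp only [Set.mem_ofPred_eq, Set.mem_preimage, Set.mem_singleton_iff, e3]
        by_cases hx : m < cnt x D
        · simp [hx]
        · simp [hx]
      rw [e7]
      exact e6 (measurableSet_singleton _)
    simp only [e3]
    rw [lintegral_indicator_one e5]
  rw [k1, ← k2]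
  have k3 : P2 m {y | r ≤ (L2 y Set.univ : ℝ)} =
      ∑' j, c j * P2 m {y | r ≤ (L2 y Set.univ : ℝ)} := by
    rw [ENNReal.tsum_mul_right, k0, one_mul]
  rw [k3, ← ENNReal.tsum_add]
  refine ENNReal.tsum_le_tsum fun j => ?_
  rw [← mul_add]
  refine mul_le_mul_right ?_ _
  by_cases hj : m < j
  · rw [if_pos hj]
    exact prob_le_one.trans le_self_add
  · rw [if_neg hj, zero_add]
    exact mono_P2 h r (not_lt.1 hj)

end Pool.Agent.K3L
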