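import Pool.Agent.K3L.Stmts

/-!
# MP_79568f_pr, lower bound: the upper bound hypothesis in a box
-/

set_option autoImplicit false

namespace Pool.Agent.K3L

open MeasureTheory Filter Topology
open scoped ENNReal

namespace BXL_

/-- Comparison of the thresholds. -/
lemma thr {κ κ' β m k : ℝ} (_hκ : 0 < κ) (hκ' : 0 < κ') (hβ : 0 < β) (hm : 0 ≤ m) (hk : 0 ≤ k)
    (h : κ ^ 3 * m ≤ κ' ^ 3 * (β * k ^ 3)) :
    κ * m ^ ((1 : ℝ) / 3) ≤ κ' * β ^ ((1 : ℝ) / 3) * k := by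
  have h1 : (κ * m ^ ((1 : ℝ) / 3)) ^ 3 = κ ^ 3 * m := by
    rw [mul_pow, ← Real.rpow_natCast (m ^ ((1 : ℝ) / 3)) 3, ← Real.rpow_mul hm]
    norm_num
  have h2 : (κ' * β ^ ((1 : ℝ) / 3) * k) ^ 3 = κ' ^ 3 * (β * k ^ 3) := by
    rw [mul_pow, mul_pow, ← Real.rpow_natCast (β ^ ((1 : ℝ) / 3)) 3, ← Real.rpow_mul hβ.le]
    norm_num
    ring
  have h3 : (κ * m ^ ((1 : ℝ) / 3)) ^ 3 ≤ (κ' * β ^ ((1 : ℝ) / 3) * k) ^ 3 := by
    rw [h1, h2]; exact h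
  exact le_of_pow_le_pow_left₀ (by norm_num) (by positivity) h3

end BXL_

theorem bxl_proof (hBOX : Stmt_BOX) (hBIN : Stmt_BIN) : Stmt_BXL := by
  intro κ κ' a₁ b₁ a₂ b₂ hκ hκκ' hU ha₁ hab₁ hb₁ ha₂ hab₂ hb₂
  have hκ' : 0 < κ' := hκ.trans hκκ'
  set β : ℝ := (b₁ - a₁) * (b₂ - a₂) with hβdef
  have hβ : 0 < β := mul_pos (sub_pos.2 hab₁) (sub_pos.2 hab₂)
  have hc : κ ^ 3 < κ' ^ 3 := pow_lt_pow_left₀ hκκ' hκ.le (by norm_num)
  -- choice of d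
  obtain ⟨d, hd, hdc⟩ : ∃ d : ℝ, 0 < d ∧ κ ^ 3 * (1 + d) < κ' ^ 3 := by
    refine ⟨(κ' ^ 3 - κ ^ 3) / (2 * κ ^ 3), by have := sub_pos.2 hc; positivity, ?_⟩
    have h3 : 0 < κ ^ 3 := by positivity
    have : κ ^ 3 * (1 + (κ' ^ 3 - κ ^ 3) / (2 * κ ^ 3)) = (κ ^ 3 + κ' ^ 3) / 2 := by
      field_simp
      ring
    rw [this]; linarith
  set m : ℕ → ℕ := fun k => ⌈(1 + d) * β * (k : ℝ) ^ 3⌉₊ with hmdef
  have hm_ge : ∀ k : ℕ, (1 + d) * β * (k : ℝ) ^ 3 ≤ (m k : ℝ) := fun k => Nat.le_ceil _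
  have hm_le : ∀ k : ℕ, (m k : ℝ) ≤ (1 + d) * β * (k : ℝ) ^ 3 + 1 := fun k =>
    (Nat.ceil_lt_add_one (by positivity)).le
  have hk3 : Tendsto (fun k : ℕ => (k : ℝ) ^ 3) atTop atTop :=
    (tendsto_pow_atTop (by norm_num)).comp tendsto_natCast_atTop_atTop
  have hm_top : Tendsto m atTop atTop := by
    have h1 : Tendsto (fun k : ℕ => (1 + d) * β * (k : ℝ) ^ 3) atTop atTop :=
      hk3.const_mul_atTop (by positivity)
    exact tendsto_nat_ceil_atTop.comp h1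
  -- the two bounds
  have hA : Tendsto (fun k : ℕ => ENNReal.ofReal (((k ^ 3 : ℕ) : ℝ) / (d * β * (k : ℝ) ^ 3) ^ 2))
      atTop (𝓝 0) := by
    have h1 : Tendsto (fun k : ℕ => (1 / (d * β) ^ 2) * ((k : ℝ) ^ 3)⁻¹) atTop (𝓝 0) := by
      have := (tendsto_inv_atTop_zero.comp hk3).const_mul (1 / (d * β) ^ 2)
      simpa using this
    have h2 : Tendsto (fun k : ℕ => ((k ^ 3 : ℕ) : ℝ) / (d * β * (k : ℝ) ^ 3) ^ 2) atTop (𝓝 0) := by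
      refine h1.congr' ?_
      filter_upwards [eventually_ge_atTop 1] with k hk
      have hk0 : (0 : ℝ) < (k : ℝ) := by exact_mod_cast hk
      push_cast
      field_simp
    have h3 := ENNReal.tendsto_ofReal h2
    simpa using h3
  have hB : Tendsto (fun k : ℕ => P2 (m k) {x | κ * ((m k : ℕ) : ℝ) ^ ((1 : ℝ) / 3) ≤
      (L2 x Set.univ : ℝ)}) atTop (𝓝 0) := hU.comp hm_top
  have hAB := hA.add hB
  rw [add_zero] at hAB
  refine tendsto_of_tendsto_of_tendsto_of_le_of_le' tendsto_const_nhds hAB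
    (Eventually.of_forall fun k => bot_le) ?_
  -- eventually the thresholds compare
  have hev : ∀ᶠ k : ℕ in atTop, κ ^ 3 ≤ (κ' ^ 3 - κ ^ 3 * (1 + d)) * β * (k : ℝ) ^ 3 := by
    have h1 : Tendsto (fun k : ℕ => (κ' ^ 3 - κ ^ 3 * (1 + d)) * β * (k : ℝ) ^ 3) atTop atTop :=
      hk3.const_mul_atTop (mul_pos (sub_pos.2 hdc) hβ)
    exact h1.eventually_ge_atTop _
  filter_upwards [hev, eventually_ge_atTop 1] with k hk hk1
  have hk0 : (0 : ℝ) < (k : ℝ) := by exact_mod_cast hk1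
  refine (hBOX (k ^ 3) (m k) (κ' * β ^ ((1 : ℝ) / 3) * k) a₁ b₁ a₂ b₂ ha₁ hab₁ hb₁ ha₂ hab₂
    hb₂).trans (add_le_add ?_ ?_)
  · refine le_trans (measure_mono ?_) (hBIN (k ^ 3) (d * β * (k : ℝ) ^ 3) a₁ b₁ a₂ b₂ ha₁ hab₁ hb₁
      ha₂ hab₂ hb₂ (by positivity))
    intro x hx
    simp only [Set.mem_ofPred_eq] at hx ⊢
    have h1 : (m k : ℝ) < (cnt x (bx a₁ b₁ a₂ b₂) : ℝ) := by exact_mod_cast hx
    have h2 := hm_ge k
    rw [← hβdef]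
    push_cast
    refine le_trans ?_ (le_abs_self _)
    nlinarith
  · refine measure_mono ?_
    intro x hx
    simp only [Set.mem_ofPred_eq] at hx ⊢
    refine le_trans (BXL_.thr hκ hκ' hβ (Nat.cast_nonneg _) hk0.le ?_) hx
    have h2 := hm_le k
    have h3 : 0 < κ ^ 3 := by positivity
    calc κ ^ 3 * (m k : ℝ) ≤ κ ^ 3 * ((1 + d) * β * (k : ℝ) ^ 3 + 1) :=
          mul_le_mul_of_nonneg_left h2 h3.le
      _ ≤ κ' ^ 3 * (β * (k : ℝ) ^ 3) := by nlinarith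

end Pool.Agent.K3L
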