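import Pool.Agent.K3L.Stmts

set_option autoImplicit false

/-!
# Module CHB: Chebyshev for the product weight
-/

namespace Pool.Agent.K3L

open MeasureTheory ProbabilityTheory
open scoped ENNReal

namespace CHB_

theorem f_nonneg (P : Par) (t : ℕ) : 0 ≤ P.f t := by
  rcases Nat.lt_or_ge t 2 with h | h
  · rw [P.f_zero t h]
  · exact (P.f_pos t h).le

theorem tsum_f (P : Par) : ∑' t, ENNReal.ofReal (P.f t) = 1 := by
  rw [← ENNReal.ofReal_tsum_of_nonneg (f_nonneg P) P.f_sum.summable, P.f_sum.tsum_eq,
    ENNReal.ofReal_one]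

/-- the law of one gap -/
noncomputable def pm (P : Par) : PMF ℕ :=
  ⟨fun t => ENNReal.ofReal (P.f t), by
    rw [← tsum_f P]
    exact ENNReal.summable.hasSum⟩

theorem pm_apply (P : Par) (t : ℕ) : pm P t = ENNReal.ofReal (P.f t) := rfl

/-- the law of one gap as a measure -/
noncomputable def pf (P : Par) : Measure ℕ := (pm P).toMeasure

instance (P : Par) : IsProbabilityMeasure (pf P) := by unfold pf; infer_instance

theorem pf_singleton (P : Par) (t : ℕ) : pf P {t} = ENNReal.ofReal (P.f t) := by
  unfold pf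
  rw [PMF.toMeasure_apply_singleton _ _ (measurableSet_singleton t), pm_apply]

theorem wt_eq (P : Par) {M : ℕ} (g : Fin M → ℕ) :
    wt P g = Measure.pi (fun _ : Fin M => pf P) {g} := by
  rw [Measure.pi_singleton]
  unfold wt
  refine Finset.prod_congr rfl fun i _ => ?_
  rw [pf_singleton]

theorem integ_sq (P : Par) : Integrable (fun t : ℕ => (t : ℝ) ^ 2) (pf P) := by
  refine ⟨(measurable_of_countable _).aestronglyMeasurable, ?_⟩
  rw [hasFiniteIntegral_iff_ofReal (Filter.Eventually.of_forall fun t => by positivity),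
    lintegral_countable']
  have h1 : ∀ t : ℕ, ENNReal.ofReal ((t : ℝ) ^ 2) * pf P {t} =
      ENNReal.ofReal ((t : ℝ) ^ 2 * P.f t) := by
    intro t
    rw [pf_singleton, ← ENNReal.ofReal_mul (by positivity)]
  simp_rw [h1]
  rw [← ENNReal.ofReal_tsum_of_nonneg (fun t => mul_nonneg (by positivity) (f_nonneg P t))
    P.f_sq.summable]
  exact ENNReal.ofReal_lt_top

theorem memLp (P : Par) : MemLp (fun t : ℕ => (t : ℝ)) 2 (pf P) := by
  rw [memLp_two_iff_integrable_sq (measurable_of_countable _).aestronglyMeasurable]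
  exact integ_sq P

theorem int_sq (P : Par) : ∫ t : ℕ, (t : ℝ) ^ 2 ∂(pf P) = P.V := by
  unfold pf
  rw [PMF.integral_eq_tsum _ _ (integ_sq P), ← P.f_sq.tsum_eq]
  refine tsum_congr fun t => ?_
  rw [pm_apply, ENNReal.toReal_ofReal (f_nonneg P t), smul_eq_mul, mul_comm]

theorem int_id (P : Par) : ∫ t : ℕ, (t : ℝ) ∂(pf P) = P.μ := by
  unfold pf
  rw [PMF.integral_eq_tsum _ _ ((memLp P).integrable (by norm_num)), ← P.f_mean.tsum_eq]
  refine tsum_congr fun t => ?_
  rw [pm_apply, ENNReal.toReal_ofReal (f_nonneg P t), smul_eq_mul, mul_comm]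

theorem V_nonneg (P : Par) : 0 ≤ P.V := by
  rw [← int_sq P]
  exact integral_nonneg fun t => by positivity

/-- the summands -/
noncomputable def X {M : ℕ} (j : ℕ) (i : Fin M) : ℕ → ℝ := fun t => if (i : ℕ) < j then (t : ℝ) else 0

theorem X_memLp (P : Par) {M : ℕ} (j : ℕ) (i : Fin M) : MemLp (X j i) 2 (pf P) := by
  unfold X
  by_cases h : (i : ℕ) < j
  · simp only [h, if_true]
    exact memLp P
  · simp only [h, if_false]
    exact MemLp.zero

theorem X_var (P : Par) {M : ℕ} (j : ℕ) (i : Fin M) : Var[X j i; pf P] ≤ P.V := by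
  refine (variance_le_expectation_sq (X_memLp P j i).1).trans ?_
  rw [← int_sq P]
  refine integral_mono_of_nonneg (Filter.Eventually.of_forall fun t => ?_) (integ_sq P)
    (Filter.Eventually.of_forall fun t => ?_)
  · show (0 : ℝ) ≤ (X j i t) ^ 2
    positivity
  · show (X j i t) ^ 2 ≤ (t : ℝ) ^ 2
    unfold X
    split_ifs
    · exact le_rfl
    · rw [zero_pow (by norm_num)]
      positivity

theorem X_mean (P : Par) {M : ℕ} (j : ℕ) (i : Fin M) :
    ∫ t, X j i t ∂(pf P) = if (i : ℕ) < j then P.μ else 0 := by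
  unfold X
  by_cases h : (i : ℕ) < j
  · simp only [h, if_true]
    exact int_id P
  · simp only [h, if_false]
    exact integral_zero _ _

end CHB_

open CHB_ in
theorem chb_proof : Stmt_CHB := by
  refine ⟨fun P M => ?_, fun P M j t hj ht => ?_⟩
  · have h1 := Measure.tsum_indicator_apply_singleton (Measure.pi fun _ : Fin M => pf P) Set.univ
      MeasurableSet.univ
    rw [measure_univ] at h1
    rw [← h1]
    refine tsum_congr fun g => ?_
    rw [Set.indicator_univ, wt_eq]
  · obtain ⟨ν, hν⟩ : ∃ ν : Measure (Fin M → ℕ), ν = Measure.pi fun _ : Fin M => pf P := ⟨_, rfl⟩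
    have hνp : IsProbabilityMeasure ν := by rw [hν]; infer_instance
    obtain ⟨S, hS⟩ : ∃ S : (Fin M → ℕ) → ℝ, S = ∑ i : Fin M, fun g => X j i (g i) := ⟨_, rfl⟩
    have hSp : ∀ g : Fin M → ℕ, S g = (psum g j : ℝ) := by
      intro g
      rw [hS, Finset.sum_apply]
      unfold psum X
      push_cast
      refine Finset.sum_congr rfl fun i _ => ?_
      split_ifs <;> simp
    have hcomp : ∀ i : Fin M, MemLp (fun g : Fin M → ℕ => X j i (g i)) 2 ν := by
      intro i
      rw [hν]
      exact (X_memLp P j i).comp_measurePreserving (measurePreserving_eval (fun _ => pf P) i)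
    have hSm : MemLp S 2 ν := by
      rw [hS]
      exact memLp_finsetSum' _ fun i _ => hcomp i
    have hSv : Var[S; ν] ≤ M * P.V := by
      rw [hS, hν, variance_sum_pi fun i => X_memLp P j i]
      calc ∑ i : Fin M, Var[X j i; pf P] ≤ ∑ _i : Fin M, P.V :=
            Finset.sum_le_sum fun i _ => X_var P j i
        _ = M * P.V := by simp
    have hSe : ∫ g, S g ∂ν = j * P.μ := by
      have h1 : ∀ g, S g = ∑ i : Fin M, X j i (g i) := by
        intro g
        rw [hS, Finset.sum_apply]
      simp_rw [h1]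
      rw [integral_finsetSum _ fun i _ => (hcomp i).integrable (by norm_num), hν]
      have h2 : ∀ i : Fin M, ∫ g : Fin M → ℕ, X j i (g i) ∂(Measure.pi fun _ : Fin M => pf P) =
          if (i : ℕ) < j then P.μ else 0 := by
        intro i
        rw [← X_mean P j i]
        exact integral_comp_eval (μ := fun _ : Fin M => pf P) (X_memLp P j i).1
      simp_rw [h2]
      rw [← Finset.sum_filter, Finset.sum_const, nsmul_eq_mul]
      congr 1
      have h3 : (Finset.univ.filter fun i : Fin M => (i : ℕ) < j).card = j := by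
        rw [Fin.card_filter_val_lt]
        omega
      rw [h3]
    have hch := meas_ge_le_variance_div_sq hSm ht
    rw [hSe] at hch
    have hset : {g : Fin M → ℕ | t ≤ |S g - j * P.μ|} =
        {g : Fin M → ℕ | t ≤ |(psum g j : ℝ) - j * P.μ|} := by
      ext g
      rw [Set.mem_ofPred_eq, Set.mem_ofPred_eq, hSp]
    rw [hset] at hch
    have hsum : ∑' g : Fin M → ℕ, wt P g * ib {g | t ≤ |(psum g j : ℝ) - j * P.μ|} g =
        ν {g : Fin M → ℕ | t ≤ |(psum g j : ℝ) - j * P.μ|} := by
      rw [← Measure.tsum_indicator_apply_singleton ν _ (Set.Countable.measurableSet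
        (Set.to_countable _))]
      refine tsum_congr fun g => ?_
      unfold ib
      rw [Set.indicator_apply, wt_eq, ← hν]
      split_ifs <;> simp
    rw [hsum]
    refine hch.trans (ENNReal.ofReal_le_ofReal ?_)
    exact div_le_div_of_nonneg_right hSv (by positivity)

end Pool.Agent.K3L
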