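import Pool.Agent.K3L.Stmts

/-!
# CHN: the end points of the levels are end points of increasing sequences
-/

set_option autoImplicit false

namespace Pool.Agent.K3L

namespace CHN_

/-- shift of an index set -/
def sh {n : ℕ} (S : Finset (Fin n)) : Finset (Fin (n + 1)) := S.map (Fin.succEmb n)

theorem mem_sh {n : ℕ} {S : Finset (Fin n)} {a : Fin (n + 1)} :
    a ∈ sh S ↔ ∃ s ∈ S, s.succ = a := by
  unfold sh
  rw [Finset.mem_map]
  rfl

theorem zero_notMem_sh {n : ℕ} (S : Finset (Fin n)) : (0 : Fin (n + 1)) ∉ sh S := by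
  intro h
  obtain ⟨s, _, hs⟩ := mem_sh.1 h
  exact Fin.succ_ne_zero s hs

theorem card_sh {n : ℕ} (S : Finset (Fin n)) : (sh S).card = S.card := by
  unfold sh
  exact Finset.card_map _

theorem inc_sh {n : ℕ} {x : Fin (n + 1) → ℝ × ℝ} {S : Finset (Fin n)}
    (h : IsInc (fun i => x i.succ) S) : IsInc x (sh S) := by
  intro a ha b hb hab
  obtain ⟨s, hs, rfl⟩ := mem_sh.1 ha
  obtain ⟨t, ht, rfl⟩ := mem_sh.1 hb
  exact h s hs t ht (Fin.succ_lt_succ_iff.1 hab)

end CHN_

open CHN_ in
theorem chn_proof : Stmt_CHN := by
  classical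
  intro P N M n
  induction n with
  | zero =>
    intro e x k
    refine ⟨∅, fun i hi => absurd hi (by simp), fun i hi => absurd hi (by simp), ?_⟩
    rcases Nat.eq_zero_or_pos (k : ℕ) with hk | hk
    · left
      rw [hk]; rfl
    · right
      exact ⟨k, by simp, hk, fun i hi => absurd hi (by simp), le_rfl, le_rfl⟩
  | succ n ih =>
    intro e x k
    obtain ⟨S', h1, h2, h3⟩ := ih (step P N e (x 0)) (fun i => x i.succ) k
    have htr : traj P N (n + 1) x e = traj P N n (fun i => x i.succ) (step P N e (x 0)) := rfl
    rw [htr]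
    have h2' : ∀ i ∈ sh S', (cell N (x i)).1 ≤
        (traj P N n (fun i => x i.succ) (step P N e (x 0)) k).1 ∧
        (cell N (x i)).2 ≤ (traj P N n (fun i => x i.succ) (step P N e (x 0)) k).2 := by
      intro a ha
      obtain ⟨s, hs, rfl⟩ := mem_sh.1 ha
      exact h2 s hs
    rcases h3 with h3 | ⟨j, hj1, hj2, hj3, hj4, hj5⟩
    · exact ⟨sh S', inc_sh h1, h2', Or.inl (by rw [card_sh, h3])⟩
    · obtain ⟨i, rfl⟩ : ∃ i : Fin M, j = i.succ := by
        rcases Fin.eq_zero_or_eq_succ j with h | ⟨i, h⟩
        · rw [h] at hj2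
          exact absurd hj2 (by simp)
        · exact ⟨i, h⟩
      by_cases hH : Hit P N e i (x 0)
      · have he : step P N e (x 0) i.succ = cell N (x 0) := by
          rw [step_succ, if_pos hH]
        rw [he] at hj3 hj4 hj5
        obtain ⟨hH1, hH2, -, -⟩ := hH
        have hinc : IsInc x (insert 0 (sh S')) := by
          intro a ha b hb hab
          rw [Finset.mem_insert] at ha hb
          rcases hb with rfl | hb
          · exact absurd hab (Fin.not_lt_zero a)
          · rcases ha with rfl | ha
            · obtain ⟨s, hs, rfl⟩ := mem_sh.1 hb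
              exact ⟨lt_of_floor_lt (N := N) (hj3 s hs).1, lt_of_floor_lt (N := N) (hj3 s hs).2⟩
            · exact inc_sh h1 a ha b hb hab
        have hbd : ∀ a ∈ insert 0 (sh S'), (cell N (x a)).1 ≤
            (traj P N n (fun i => x i.succ) (step P N e (x 0)) k).1 ∧
            (cell N (x a)).2 ≤ (traj P N n (fun i => x i.succ) (step P N e (x 0)) k).2 := by
          intro a ha
          rw [Finset.mem_insert] at ha
          rcases ha with rfl | ha
          · exact ⟨hj4, hj5⟩
          · exact h2' a ha
        have hcard : (insert 0 (sh S')).card = S'.card + 1 := by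
          rw [Finset.card_insert_of_notMem (zero_notMem_sh S'), card_sh]
        rw [Fin.val_succ] at hj1
        refine ⟨insert 0 (sh S'), hinc, hbd, ?_⟩
        rcases Nat.eq_zero_or_pos (i : ℕ) with hi | hi
        · left
          omega
        · right
          refine ⟨i.castSucc, ?_, ?_, ?_, ?_, ?_⟩
          · rw [Fin.val_castSucc]
            omega
          · rw [Fin.val_castSucc]
            exact hi
          · intro a ha
            rw [Finset.mem_insert] at ha
            rcases ha with rfl | ha
            · exact ⟨hH1, hH2⟩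
            · obtain ⟨s, hs, rfl⟩ := mem_sh.1 ha
              exact ⟨lt_trans hH1 (hj3 s hs).1, lt_trans hH2 (hj3 s hs).2⟩
          · exact le_trans hH1.le hj4
          · exact le_trans hH2.le hj5
      · have he : step P N e (x 0) i.succ = e i.succ := by
          rw [step_succ, if_neg hH]
        rw [he] at hj3 hj4 hj5
        refine ⟨sh S', inc_sh h1, h2', Or.inr ⟨i.succ, by rw [card_sh]; exact hj1, hj2, ?_, hj4, hj5⟩⟩
        intro a ha
        obtain ⟨s, hs, rfl⟩ := mem_sh.1 ha
        exact hj3 s hs

end Pool.Agent.K3L
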