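import Pool.Agent.K3L.Stmts

/-!
# MP_79568f_pr, squad KTH, module DET: the deterministic mesh argument
-/

set_option autoImplicit false

namespace Pool.Agent.K3L

namespace DET_

lemma cube_le (C κ P k A dx dy Q : ℝ) (hC : 0 ≤ C) (hκ : 0 < κ) (hk : 0 < k) (hA : 0 < A)
    (hdx : 0 < dx) (hdy : 0 < dy) (hP : P = dx * dy / A ^ 2)
    (h : C < κ * P ^ ((1 : ℝ) / 3) * k) (hQ : k * (dx + dy) ≤ Q) :
    C ^ 3 ≤ κ ^ 3 * Q ^ 2 * k / (4 * A ^ 2) := by
  have hP0 : 0 ≤ P := by rw [hP]; positivity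
  have h1 : C ^ 3 ≤ (κ * P ^ ((1 : ℝ) / 3) * k) ^ 3 := pow_le_pow_left₀ hC h.le 3
  have h2 : (P ^ ((1 : ℝ) / 3)) ^ 3 = P := by
    rw [← Real.rpow_natCast, ← Real.rpow_mul hP0]
    norm_num
  have h3 : (κ * P ^ ((1 : ℝ) / 3) * k) ^ 3 = κ ^ 3 * P * k ^ 3 := by
    rw [mul_pow, mul_pow, h2]
  have h4 : (k * (dx + dy)) ^ 2 ≤ Q ^ 2 := pow_le_pow_left₀ (by positivity) hQ 2
  have h5 : 4 * (dx * dy) ≤ (dx + dy) ^ 2 := by nlinarith [sq_nonneg (dx - dy)]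
  have h6 : 4 * (dx * dy) * k ^ 2 ≤ Q ^ 2 := by
    have := mul_le_mul_of_nonneg_right h5 (sq_nonneg k)
    nlinarith
  rw [h3] at h1
  refine h1.trans ?_
  rw [hP]
  have h7 : κ ^ 3 * (dx * dy / A ^ 2) * k ^ 3 = κ ^ 3 * k * (4 * (dx * dy) * k ^ 2) / (4 * A ^ 2) := by
    field_simp
  rw [h7]
  have h8 : κ ^ 3 * Q ^ 2 * k / (4 * A ^ 2) = κ ^ 3 * k * (Q ^ 2) / (4 * A ^ 2) := by ring
  rw [h8]
  gcongr

end DET_

open DET_

theorem det_proof : Stmt_DET := by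
  intro A D k n s κ x S q hA hD hk hκ hinc hne hcell hq1 hq2 hL
  have hkR : (0 : ℝ) < k := by exact_mod_cast hk
  have hAR : (0 : ℝ) < A := by exact_mod_cast hA
  have hDR : (0 : ℝ) < D := by exact_mod_cast hD
  set h : ℕ := s / 2 with hh
  have hs2 : 2 * h ≤ s ∧ s ≤ 2 * h + 1 := by omega
  obtain ⟨i0, hi0⟩ := hne
  obtain ⟨c1, c2, c3, c4⟩ := hcell i0 hi0
  have hq1pos : 0 ≤ q.1 := by omega
  have hq2pos : 0 ≤ q.2 := by omega
  obtain ⟨Q1, hQ1⟩ := Int.eq_ofNat_of_zero_le hq1pos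
  obtain ⟨Q2, hQ2⟩ := Int.eq_ofNat_of_zero_le hq2pos
  have hq1' : Q1 + 1 ≤ A * k := by
    have : ((Q1 + 1 : ℕ) : ℤ) ≤ ((A * k : ℕ) : ℤ) := by
      push_cast
      rw [← hQ1]
      exact hq1
    exact_mod_cast this
  have hq2' : Q2 + 1 ≤ A * k := by
    have : ((Q2 + 1 : ℕ) : ℤ) ≤ ((A * k : ℕ) : ℤ) := by
      push_cast
      rw [← hQ2]
      exact hq2
    exact_mod_cast this
  have hhQ : h ≤ Q2 := by omega
  -- the numbers a, b, c
  set a : ℕ := ⌊(D : ℝ) * h / k⌋₊ with ha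
  set b : ℕ := ⌈(D : ℝ) * (Q1 + 1) / k⌉₊ with hb
  set c : ℕ := ⌈(D : ℝ) * (Q2 + 1) / k⌉₊ with hc
  have ha1 : (a : ℝ) ≤ (D : ℝ) * h / k := Nat.floor_le (by positivity)
  have ha2 : (D : ℝ) * h / k < a + 1 := Nat.lt_floor_add_one _
  have hb1 : (D : ℝ) * (Q1 + 1) / k ≤ b := Nat.le_ceil _
  have hb2 : (b : ℝ) < (D : ℝ) * (Q1 + 1) / k + 1 := Nat.ceil_lt_add_one (by positivity)
  have hc1 : (D : ℝ) * (Q2 + 1) / k ≤ c := Nat.le_ceil _
  have hc2 : (c : ℝ) < (D : ℝ) * (Q2 + 1) / k + 1 := Nat.ceil_lt_add_one (by positivity)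
  have hbA : b ≤ A * D := by
    rw [hb, Nat.ceil_le, div_le_iff₀ hkR]
    have : ((Q1 : ℝ) + 1) ≤ A * k := by exact_mod_cast hq1'
    push_cast
    nlinarith
  have hcA : c ≤ A * D := by
    rw [hc, Nat.ceil_le, div_le_iff₀ hkR]
    have : ((Q2 : ℝ) + 1) ≤ A * k := by exact_mod_cast hq2'
    push_cast
    nlinarith
  have haA : a ≤ A * D := by
    have h1 : (a : ℝ) ≤ c := by
      refine ha1.trans (le_trans ?_ hc1)
      have : (h : ℝ) ≤ Q2 := by exact_mod_cast hhQ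
      gcongr
      linarith
    have h2 : a ≤ c := by exact_mod_cast h1
    exact h2.trans hcA
  -- the points lie in the box
  have hAk : (((A * k : ℕ) : ℝ)) = (A : ℝ) * k := by push_cast; ring
  have hbox : ∀ i ∈ S, (1 + (a : ℝ) / D) / A ≤ (x i).1 ∧ (x i).1 < ((b : ℝ) / D) / A ∧
      ((a : ℝ) / D) / A ≤ (x i).2 ∧ (x i).2 < ((c : ℝ) / D) / A := by
    intro i hi
    obtain ⟨d1, d2, d3, d4⟩ := hcell i hi
    have e1 : ((k : ℝ) + h) ≤ (A : ℝ) * k * (x i).1 := by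
      have h1 : ((k : ℤ) + (h : ℤ)) ≤ ⌊((A * k : ℕ) : ℝ) * (x i).1⌋ := by
        have : (cell (A * k) (x i)).1 = ⌊((A * k : ℕ) : ℝ) * (x i).1⌋ := rfl
        rw [← this]
        omega
      have h2 := Int.le_floor.1 h1
      rw [hAk] at h2
      push_cast at h2
      exact h2
    have e2 : (h : ℝ) ≤ (A : ℝ) * k * (x i).2 := by
      have h1 : (h : ℤ) ≤ ⌊((A * k : ℕ) : ℝ) * (x i).2⌋ := by
        have : (cell (A * k) (x i)).2 = ⌊((A * k : ℕ) : ℝ) * (x i).2⌋ := rfl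
        rw [← this]
        omega
      have h2 := Int.le_floor.1 h1
      rw [hAk] at h2
      push_cast at h2
      exact h2
    have e3 : (A : ℝ) * k * (x i).1 < Q1 + 1 := by
      have h1 : ⌊((A * k : ℕ) : ℝ) * (x i).1⌋ < (Q1 : ℤ) + 1 := by
        have : (cell (A * k) (x i)).1 = ⌊((A * k : ℕ) : ℝ) * (x i).1⌋ := rfl
        rw [← this]
        omega
      have h2 := Int.floor_lt.1 h1
      rw [hAk] at h2
      push_cast at h2
      exact h2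
    have e4 : (A : ℝ) * k * (x i).2 < Q2 + 1 := by
      have h1 : ⌊((A * k : ℕ) : ℝ) * (x i).2⌋ < (Q2 : ℤ) + 1 := by
        have : (cell (A * k) (x i)).2 = ⌊((A * k : ℕ) : ℝ) * (x i).2⌋ := rfl
        rw [← this]
        omega
      have h2 := Int.floor_lt.1 h1
      rw [hAk] at h2
      push_cast at h2
      exact h2
    have f1 : (a : ℝ) * k ≤ D * h := (le_div_iff₀ hkR).1 ha1
    have f2 : (D : ℝ) * (Q1 + 1) ≤ b * k := (div_le_iff₀ hkR).1 hb1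
    have f3 : (D : ℝ) * (Q2 + 1) ≤ c * k := (div_le_iff₀ hkR).1 hc1
    refine ⟨?_, ?_, ?_, ?_⟩
    · rw [div_le_iff₀ hAR, ← mul_le_mul_iff_left₀ (mul_pos hDR hkR)]
      have : (1 + (a : ℝ) / D) * (D * k) = D * k + a * k := by field_simp
      rw [this]
      nlinarith
    · rw [lt_div_iff₀ hAR, lt_div_iff₀ hDR]
      have : (x i).1 * A * D * k < b * k := by nlinarith
      exact lt_of_mul_lt_mul_right this hkR.le
    · rw [div_le_iff₀ hAR, div_le_iff₀ hDR]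
      have : (a : ℝ) * k ≤ (x i).2 * A * D * k := by nlinarith
      exact le_of_mul_le_mul_right this hkR
    · rw [lt_div_iff₀ hAR, lt_div_iff₀ hDR]
      have : (x i).2 * A * D * k < c * k := by nlinarith
      exact lt_of_mul_lt_mul_right this hkR.le
  obtain ⟨g1, g2, g3, g4⟩ := hbox i0 hi0
  have hLL := hL a b c haA hbA hcA (lt_of_le_of_lt g1 g2) (lt_of_le_of_lt g3 g4)
  have hcard : (S.card : ℝ) ≤ (L2 x (bx ((1 + (a : ℝ) / D) / A) (((b : ℝ) / D) / A)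
      (((a : ℝ) / D) / A) (((c : ℝ) / D) / A)) : ℝ) := by
    have : S.card ≤ L2 x (bx ((1 + (a : ℝ) / D) / A) (((b : ℝ) / D) / A)
      (((a : ℝ) / D) / A) (((c : ℝ) / D) / A)) := by
      apply card_le_L2
      · exact hinc
      · intro i hi
        obtain ⟨g1, g2, g3, g4⟩ := hbox i hi
        exact ⟨⟨g1, g2⟩, ⟨g3, g4⟩⟩
    exact_mod_cast this
  have hC := lt_of_le_of_lt hcard hLL
  have hdx : 0 < (b : ℝ) / D - 1 - (a : ℝ) / D := by
    have := lt_of_le_of_lt g1 g2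
    rw [div_lt_div_iff_of_pos_right hAR] at this
    linarith
  have hdy : 0 < (c : ℝ) / D - (a : ℝ) / D := by
    have := lt_of_le_of_lt g3 g4
    rw [div_lt_div_iff_of_pos_right hAR] at this
    linarith
  have hQ : (k : ℝ) * (((b : ℝ) / D - 1 - (a : ℝ) / D) + ((c : ℝ) / D - (a : ℝ) / D)) ≤
      (q.1 : ℝ) + q.2 - k - s + 3 + 4 * k / D := by
    have k1 : (k : ℝ) * ((b : ℝ) / D) ≤ Q1 + 1 + k / D := by
      have : (b : ℝ) * k ≤ D * (Q1 + 1) + k := by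
        have := mul_le_mul_of_nonneg_right hb2.le hkR.le
        rwa [add_mul, div_mul_cancel₀ _ hkR.ne', one_mul] at this
      have e : (k : ℝ) * ((b : ℝ) / D) = (b * k) / D := by ring
      rw [e, div_le_iff₀ hDR, add_mul, div_mul_cancel₀ _ hDR.ne']
      nlinarith
    have k2 : (k : ℝ) * ((c : ℝ) / D) ≤ Q2 + 1 + k / D := by
      have : (c : ℝ) * k ≤ D * (Q2 + 1) + k := by
        have := mul_le_mul_of_nonneg_right hc2.le hkR.le
        rwa [add_mul, div_mul_cancel₀ _ hkR.ne', one_mul] at this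
      have e : (k : ℝ) * ((c : ℝ) / D) = (c * k) / D := by ring
      rw [e, div_le_iff₀ hDR, add_mul, div_mul_cancel₀ _ hDR.ne']
      nlinarith
    have k3 : (h : ℝ) - k / D ≤ (k : ℝ) * ((a : ℝ) / D) := by
      have : (D : ℝ) * h ≤ (a + 1) * k := (div_le_iff₀ hkR).1 ha2.le
      have e : (k : ℝ) * ((a : ℝ) / D) = (a * k) / D := by ring
      rw [e, le_div_iff₀ hDR, sub_mul, div_mul_cancel₀ _ hDR.ne']
      nlinarith
    have k4 : (s : ℝ) ≤ 2 * h + 1 := by exact_mod_cast hs2.2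
    have k5 : (q.1 : ℝ) = Q1 := by rw [hQ1]; simp
    have k6 : (q.2 : ℝ) = Q2 := by rw [hQ2]; simp
    have k7 : 4 * (k : ℝ) / D = 4 * (k / D) := by ring
    rw [k5, k6, k7]
    have e : (k : ℝ) * (((b : ℝ) / D - 1 - (a : ℝ) / D) + ((c : ℝ) / D - (a : ℝ) / D)) =
      k * ((b : ℝ) / D) - k - k * ((a : ℝ) / D) + (k * ((c : ℝ) / D) - k * ((a : ℝ) / D)) := by ring
    rw [e]
    linarith
  refine cube_le _ κ _ k A _ _ _ (by positivity) hκ hkR hAR hdx hdy ?_ hC hQ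
  field_simp
  ring

end Pool.Agent.K3L
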