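import Mathlib

/-!
# MP_79568f_pr, lower bound for the longest chain constant in dimension three: definitions

The third coordinate of the points is replaced by their index (`sq` below is the uniform measure
on the unit square, `L2 x A` the longest increasing subsequence inside `A`).
Level `k` of a state `e : St M` is one cell `e k`, an end point of a chain of `k` points
(level `0` is a moving base); `sm` is the sum of the two coordinates. A new point replaces the end
point of level `k + 1` if it lies above the end point of level `k`, has a smaller sum than the end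
point of level `k + 1`, and passes the thinning `alpha`. The gaps of the sums then form a Markov
chain with a product stationary law, marginal `P.f`.
-/

set_option autoImplicit false

namespace Pool.Agent.K3L

open MeasureTheory
open scoped ENNReal

/-- The uniform measure on the unit square. -/
noncomputable def sq : Measure (ℝ × ℝ) :=
  ((volume : Measure ℝ).restrict (Set.Ico 0 1)).prod ((volume : Measure ℝ).restrict (Set.Ico 0 1))

/-- The law of `n` independent uniform points of the unit square. -/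
noncomputable def P2 (n : ℕ) : Measure (Fin n → ℝ × ℝ) := Measure.pi (fun _ => sq)

/-- The points of `x` with indices in `S` increase (both coordinates) with the index. -/
def IsInc {n : ℕ} (x : Fin n → ℝ × ℝ) (S : Finset (Fin n)) : Prop :=
  ∀ i ∈ S, ∀ j ∈ S, i < j → (x i).1 < (x j).1 ∧ (x i).2 < (x j).2

open Classical in
/-- The length of the longest increasing subsequence of `x` inside `A`. -/
noncomputable def L2 {n : ℕ} (x : Fin n → ℝ × ℝ) (A : Set (ℝ × ℝ)) : ℕ :=
  (Finset.univ.filter (fun S : Finset (Fin n) => IsInc x S ∧ ∀ i ∈ S, x i ∈ A)).sup Finset.card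

/-- The parameters: `f` the law of one gap, `G` the flow. -/
structure Par where
  f : ℕ → ℝ
  G : ℕ → ℝ
  R : ℕ
  μ : ℝ
  J : ℝ
  V : ℝ
  f_pos : ∀ t, 2 ≤ t → 0 < f t
  f_zero : ∀ t, t < 2 → f t = 0
  G_nonneg : ∀ m, 0 ≤ G m
  G_zero : G 0 = 0
  G_big : ∀ m, R < m → G m = 0
  key : ∀ t m, 2 ≤ t → G m * f t ≤ ((t : ℝ) - 1) * f (t + m)
  f_sum : HasSum f 1
  f_mean : HasSum (fun t : ℕ => (t : ℝ) * f t) μ
  f_sq : HasSum (fun t : ℕ => (t : ℝ) ^ 2 * f t) V
  J_eq : J = ∑ m ∈ Finset.range (R + 1), (m : ℝ) * G m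
  J_pos : 0 < J

/-- States: level `k` of `e` is the cell `e k`. -/
abbrev St (M : ℕ) : Type := Fin (M + 1) → ℤ × ℤ

/-- The sum of the coordinates. -/
def sm (p : ℤ × ℤ) : ℤ := p.1 + p.2

/-- The cell (of side `1 / N`) of a point. -/
noncomputable def cell (N : ℕ) (x : ℝ × ℝ) : ℤ × ℤ := (⌊(N : ℝ) * x.1⌋, ⌊(N : ℝ) * x.2⌋)

/-- The gaps of the sums. -/
def gap {M : ℕ} (e : St M) (k : Fin M) : ℕ := (sm (e k.succ) - sm (e k.castSucc)).toNat

/-- The thinning probability. -/
noncomputable def alpha (P : Par) (g t : ℕ) : ℝ :=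
  P.G (g - t) * P.f t / (P.f g * ((t : ℝ) - 1))

/-- The point `x` replaces the end point of level `k + 1`. -/
def Hit (P : Par) (N : ℕ) {M : ℕ} (e : St M) (k : Fin M) (x : ℝ × ℝ) : Prop :=
  (e k.castSucc).1 < (cell N x).1 ∧ (e k.castSucc).2 < (cell N x).2 ∧
    sm (cell N x) < sm (e k.succ) ∧
    Int.fract ((N : ℝ) * x.1) < alpha P (gap e k) (sm (cell N x) - sm (e k.castSucc)).toNat

/-- Partial sums of `G`. -/
noncomputable def cumG (P : Par) (m : ℕ) : ℝ := ∑ i ∈ Finset.range (m + 1), P.G i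

open Classical in
/-- The move of the base: `m` if `N x.1 ∈ [cumG (m-1), cumG m)` and `x` is in the bottom row. -/
noncomputable def mark (P : Par) (N : ℕ) (x : ℝ × ℝ) : ℕ :=
  if ⌊(N : ℝ) * x.2⌋ = 0 ∧ (N : ℝ) * x.1 < cumG P P.R then
    ((Finset.range (P.R + 1)).filter (fun m => cumG P m ≤ (N : ℝ) * x.1)).card
  else 0

open Classical in
/-- One step of the process. -/
noncomputable def step (P : Par) (N : ℕ) {M : ℕ} (e : St M) (x : ℝ × ℝ) : St M :=
  Fin.cases ((e 0).1 - (mark P N x : ℤ), (e 0).2)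
    (fun k => if Hit P N e k x then cell N x else e k.succ)

/-- The state after the points `x 0, …, x (n-1)`. -/
noncomputable def traj (P : Par) (N : ℕ) {M : ℕ} : (n : ℕ) → (Fin n → ℝ × ℝ) → St M → St M
  | 0, _, e => e
  | n + 1, x, e => traj P N n (fun i => x i.succ) (step P N e (x 0))

/-- The invariant of the process. -/
def Inv {M : ℕ} (top : ℕ) (e : St M) : Prop :=
  (e 0).2 = 0 ∧ (∀ k, (e 0).1 ≤ (e k).1) ∧ (∀ k, 0 ≤ (e k).2) ∧
    (∀ k : Fin M, sm (e k.castSucc) + 2 ≤ sm (e k.succ)) ∧ sm (e (Fin.last M)) ≤ (top : ℤ)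

/-- The effect on the gaps of moving level `k` down by `m`. -/
def mv {M : ℕ} (k : Fin (M + 1)) (m : ℕ) (g : Fin M → ℕ) : Fin M → ℕ := fun i =>
  g i + (if i.castSucc = k then m else 0) - (if i.succ = k then m else 0)

/-- The rate at which level `k` moves down by `m`. -/
noncomputable def rate (P : Par) {M : ℕ} (k : Fin (M + 1)) (m : ℕ) (g : Fin M → ℕ) : ℝ :=
  Fin.cases (P.G m) (fun i => P.G m * P.f (g i - m) / P.f (g i)) k

/-- The total probability of a move. -/
noncomputable def tot (P : Par) (N : ℕ) {M : ℕ} (g : Fin M → ℕ) : ℝ≥0∞ :=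
  ∑ k : Fin (M + 1), ∑ m ∈ Finset.range (P.R + 1), ENNReal.ofReal (rate P k m g / (N : ℝ) ^ 2)

/-- The transition operator of the gaps. -/
noncomputable def kap (P : Par) (N : ℕ) {M : ℕ} (v : (Fin M → ℕ) → ℝ≥0∞) (g : Fin M → ℕ) :
    ℝ≥0∞ :=
  (∑ k : Fin (M + 1), ∑ m ∈ Finset.range (P.R + 1),
    ENNReal.ofReal (rate P k m g / (N : ℝ) ^ 2) * v (mv k m g)) + (1 - tot P N g) * v g

/-- The transition operator restricted to gap vectors of sum at most `top`. -/
noncomputable def kapT (P : Par) (N top : ℕ) {M : ℕ} (v : (Fin M → ℕ) → ℝ≥0∞)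
    (g : Fin M → ℕ) : ℝ≥0∞ :=
  if ∑ i, g i ≤ top then kap P N v g else 0

/-- The product weight. -/
noncomputable def wt (P : Par) {M : ℕ} (g : Fin M → ℕ) : ℝ≥0∞ :=
  ∏ i, ENNReal.ofReal (P.f (g i))

open Classical in
/-- The indicator function of `B` restricted to sum at most `top`. -/
noncomputable def ind (top : ℕ) {M : ℕ} (B : Set (Fin M → ℕ)) (g : Fin M → ℕ) : ℝ≥0∞ :=
  if ∑ i, g i ≤ top ∧ g ∈ B then 1 else 0

/-- The sum of the first `j` gaps. -/
def psum {M : ℕ} (g : Fin M → ℕ) (j : ℕ) : ℕ := ∑ i : Fin M, if (i : ℕ) < j then g i else 0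

/-- The initial state with base `(a, 0)` and gaps `g`. -/
def ini {M : ℕ} (a : ℕ) (g : Fin M → ℕ) : St M := fun j =>
  ((a : ℤ) + (psum g j / 2 : ℕ), ((psum g j - psum g j / 2 : ℕ) : ℤ))

open Classical in
/-- The indicator function of a set of gap vectors. -/
noncomputable def ib {M : ℕ} (B : Set (Fin M → ℕ)) (g : Fin M → ℕ) : ℝ≥0∞ :=
  if g ∈ B then 1 else 0

open Classical in
/-- The number of points in `A`. -/
noncomputable def cnt {n : ℕ} (x : Fin n → ℝ × ℝ) (A : Set (ℝ × ℝ)) : ℕ :=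
  (Finset.univ.filter (fun i : Fin n => x i ∈ A)).card

/-- The upper bound hypothesis. -/
def HypU (κ : ℝ) : Prop :=
  Filter.Tendsto (fun n : ℕ => P2 n {x | κ * (n : ℝ) ^ ((1 : ℝ) / 3) ≤ (L2 x Set.univ : ℝ)})
    Filter.atTop (nhds 0)

/-- The box `[a₁, b₁) × [a₂, b₂)`. -/
def bx (a₁ b₁ a₂ b₂ : ℝ) : Set (ℝ × ℝ) := Set.Ico a₁ b₁ ×ˢ Set.Ico a₂ b₂

/-- The coordinatewise strict order of `ℝ³`. -/
def Lt3 (x y : Fin 3 → ℝ) : Prop := ∀ c, x c < y c

/-- The indices in `s` form a chain of the configuration `x`. -/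
def IsChain3 {n : ℕ} (x : Fin n → Fin 3 → ℝ) (s : Finset (Fin n)) : Prop :=
  ∀ i ∈ s, ∀ j ∈ s, i ≠ j → Lt3 (x i) (x j) ∨ Lt3 (x j) (x i)

open Classical in
/-- The length of a longest chain. -/
noncomputable def longest3 {n : ℕ} (x : Fin n → Fin 3 → ℝ) : ℕ :=
  (Finset.univ.filter (fun s : Finset (Fin n) => IsChain3 x s)).sup Finset.card

/-- The law of `n` independent uniform points of the unit cube. -/
noncomputable def P3 (n : ℕ) : Measure (Fin n → Fin 3 → ℝ) :=
  Measure.pi (fun _ => (volume : Measure (Fin 3 → ℝ)).restrict (Set.Icc 0 1))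

/-! ## Basic facts -/

instance : IsProbabilityMeasure ((volume : Measure ℝ).restrict (Set.Ico 0 1)) :=
  ⟨by simp⟩

instance : IsProbabilityMeasure sq := by unfold sq; infer_instance

instance (n : ℕ) : IsProbabilityMeasure (P2 n) := by unfold P2; infer_instance

/-- The measure of a rectangle. -/
lemma sq_rect {a b c d : ℝ} (ha : 0 ≤ a) (hb : b ≤ 1) (hc : 0 ≤ c) (hd : d ≤ 1) :
    sq (Set.Ico a b ×ˢ Set.Ico c d) = ENNReal.ofReal (b - a) * ENNReal.ofReal (d - c) := by
  have h : ∀ u v : ℝ, 0 ≤ u → v ≤ 1 →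
      ((volume : Measure ℝ).restrict (Set.Ico 0 1)) (Set.Ico u v) = ENNReal.ofReal (v - u) := by
    intro u v hu hv
    rw [Measure.restrict_apply measurableSet_Ico, Set.Ico_inter_Ico, Real.volume_Ico,
      sup_eq_left.2 hu, inf_eq_left.2 hv]
  rw [sq, Measure.prod_prod, h a b ha hb, h c d hc hd]

lemma measurable_cell (N : ℕ) : Measurable (cell N) := by
  unfold cell
  fun_prop

/-- Strictly larger cells come from strictly larger coordinates. -/
lemma lt_of_floor_lt {N : ℕ} {a b : ℝ} (h : ⌊(N : ℝ) * a⌋ < ⌊(N : ℝ) * b⌋) : a < b := by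
  have h1 : (N : ℝ) * a < (N : ℝ) * b := by
    by_contra hc
    exact absurd (Int.floor_le_floor (not_lt.1 hc)) (not_le.2 h)
  exact lt_of_mul_lt_mul_left h1 (Nat.cast_nonneg N)

/-- `L2` bounds the size of every increasing set. -/
lemma card_le_L2 {n : ℕ} {x : Fin n → ℝ × ℝ} {A : Set (ℝ × ℝ)} {S : Finset (Fin n)}
    (hS : IsInc x S) (hA : ∀ i ∈ S, x i ∈ A) : S.card ≤ L2 x A := by
  classical
  unfold L2
  exact Finset.le_sup (f := Finset.card) (Finset.mem_filter.2 ⟨Finset.mem_univ _, hS, hA⟩)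

/-- `L2` is attained. -/
lemma exists_L2 {n : ℕ} (x : Fin n → ℝ × ℝ) (A : Set (ℝ × ℝ)) :
    ∃ S : Finset (Fin n), IsInc x S ∧ (∀ i ∈ S, x i ∈ A) ∧ S.card = L2 x A := by
  classical
  have hne : (Finset.univ.filter (fun S : Finset (Fin n) =>
      IsInc x S ∧ ∀ i ∈ S, x i ∈ A)).Nonempty :=
    ⟨∅, Finset.mem_filter.2 ⟨Finset.mem_univ _, fun i hi => absurd hi (by simp),
      fun i hi => absurd hi (by simp)⟩⟩
  obtain ⟨t, ht, htc⟩ := Finset.exists_mem_eq_sup _ hne Finset.card
  have ht' := (Finset.mem_filter.1 ht).2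
  exact ⟨t, ht'.1, ht'.2, htc.symm⟩

@[simp] lemma step_zero (P : Par) (N : ℕ) {M : ℕ} (e : St M) (x : ℝ × ℝ) :
    step P N e x 0 = ((e 0).1 - (mark P N x : ℤ), (e 0).2) := rfl

open Classical in
lemma step_succ (P : Par) (N : ℕ) {M : ℕ} (e : St M) (x : ℝ × ℝ) (k : Fin M) :
    step P N e x k.succ = if Hit P N e k x then cell N x else e k.succ := rfl

@[simp] lemma rate_zero (P : Par) {M : ℕ} (m : ℕ) (g : Fin M → ℕ) :
    rate P 0 m g = P.G m := rfl

@[simp] lemma rate_succ (P : Par) {M : ℕ} (i : Fin M) (m : ℕ) (g : Fin M → ℕ) :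
    rate P i.succ m g = P.G m * P.f (g i - m) / P.f (g i) := rfl

end Pool.Agent.K3L
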