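import Pool.Agent.K3L.Stmts

/-!
# Existence of a good initial gap vector
-/

set_option autoImplicit false

namespace Pool.Agent.K3L

open MeasureTheory Filter Topology
open scoped ENNReal

namespace EXI_

/-- The weight of a set. -/
noncomputable def W (P : Par) {M : ℕ} (B : Set (Fin M → ℕ)) : ℝ≥0∞ := ∑' g, wt P g * ib B g

lemma ib_le_one {M : ℕ} (B : Set (Fin M → ℕ)) (g : Fin M → ℕ) : ib B g ≤ 1 := by
  unfold ib
  split_ifs <;> simp

lemma W_mono (P : Par) {M : ℕ} {A B : Set (Fin M → ℕ)} (h : A ⊆ B) : W P A ≤ W P B := by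
  unfold W
  refine ENNReal.tsum_le_tsum fun g => ?_
  gcongr
  unfold ib
  by_cases hg : g ∈ A
  · rw [if_pos hg, if_pos (h hg)]
  · rw [if_neg hg]
    exact zero_le

lemma W_union (P : Par) {M : ℕ} (A B : Set (Fin M → ℕ)) : W P (A ∪ B) ≤ W P A + W P B := by
  unfold W
  rw [← ENNReal.tsum_add]
  refine ENNReal.tsum_le_tsum fun g => ?_
  rw [← mul_add]
  gcongr
  unfold ib
  by_cases hA : g ∈ A
  · rw [if_pos (Set.mem_union_left _ hA), if_pos hA]
    exact le_self_add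
  · by_cases hB : g ∈ B
    · rw [if_pos (Set.mem_union_right _ hB), if_pos hB]
      exact le_add_self
    · rw [if_neg (by rintro (h | h) <;> contradiction)]
      exact zero_le

lemma W_empty (P : Par) {M : ℕ} : W P (∅ : Set (Fin M → ℕ)) = 0 := by
  unfold W ib
  simp

lemma W_range (P : Par) {M : ℕ} (E : ℕ → Set (Fin M → ℕ)) (c : ℝ≥0∞) (r : ℕ)
    (h : ∀ i < r, W P (E i) ≤ c) : W P (⋃ i ∈ Finset.range r, E i) ≤ r * c := by
  induction r with
  | zero => simp [W_empty]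
  | succ r ih =>
    have h1 : (⋃ i ∈ Finset.range (r + 1), E i) = (⋃ i ∈ Finset.range r, E i) ∪ E r := by
      ext g
      simp only [Set.mem_iUnion, Finset.mem_range, exists_prop, Set.mem_union]
      constructor
      · rintro ⟨i, hi, hg⟩
        rcases Nat.lt_succ_iff_lt_or_eq.1 hi with h2 | h2
        · exact Or.inl ⟨i, h2, hg⟩
        · exact Or.inr (h2 ▸ hg)
      · rintro (⟨i, hi, hg⟩ | hg)
        · exact ⟨i, by omega, hg⟩
        · exact ⟨r, by omega, hg⟩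
    rw [h1]
    refine (W_union P _ _).trans ?_
    have h2 := ih fun i hi => h i (by omega)
    have h3 := h r (by omega)
    calc W P (⋃ i ∈ Finset.range r, E i) + W P (E r) ≤ r * c + c := add_le_add h2 h3
      _ = ((r + 1 : ℕ) : ℝ≥0∞) * c := by push_cast; ring

lemma W_small (P : Par) {M : ℕ} : W P {g : Fin M → ℕ | ∃ i, g i < 2} = 0 := by
  unfold W
  rw [ENNReal.tsum_eq_zero]
  intro g
  unfold ib
  split_ifs with hg
  · obtain ⟨i, hi⟩ := hg
    rw [mul_one]
    unfold wt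
    exact Finset.prod_eq_zero (Finset.mem_univ i) (by rw [P.f_zero _ hi]; simp)
  · simp

lemma W_compl (P : Par) {M : ℕ} (h1 : ∑' g : Fin M → ℕ, wt P g = 1) (B : Set (Fin M → ℕ)) :
    W P B + W P Bᶜ = 1 := by
  unfold W
  rw [← ENNReal.tsum_add, ← h1]
  refine tsum_congr fun g => ?_
  rw [← mul_add]
  unfold ib
  by_cases hg : g ∈ B
  · rw [if_pos hg, if_neg (by simpa using hg)]
    simp
  · rw [if_neg hg, if_pos (by simpa using hg)]
    simp

/-- Averaging. -/
lemma exists_good (P : Par) {M : ℕ} (h1 : ∑' g : Fin M → ℕ, wt P g = 1)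
    (Bad : Set (Fin M → ℕ)) (F : (Fin M → ℕ) → ℝ≥0∞) (η : ℝ≥0∞)
    (hBad : W P Bad ≤ 1 / 2) (hF : ∑' g, wt P g * F g ≤ η) (hη : η < 1 / 2 * (1 / 4)) :
    ∃ g, g ∉ Bad ∧ F g ≤ 1 / 4 := by
  by_contra hcon
  push Not at hcon
  have h2 := W_compl P h1 Bad
  have h3 : 1 / 2 ≤ W P Badᶜ := by
    by_contra h4
    rw [not_le] at h4
    have h5 : W P Bad + W P Badᶜ < 1 / 2 + 1 / 2 :=
      ENNReal.add_lt_add_of_le_of_lt (ne_top_of_le_ne_top (by simp) hBad) hBad h4
    rw [h2, ENNReal.add_halves] at h5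
    exact lt_irrefl _ h5
  have h4 : W P Badᶜ * (1 / 4) ≤ η := by
    refine le_trans ?_ hF
    unfold W
    rw [← ENNReal.tsum_mul_right]
    refine ENNReal.tsum_le_tsum fun g => ?_
    rw [mul_assoc]
    gcongr
    unfold ib
    by_cases hg : g ∈ Bad
    · rw [if_neg (by simpa using hg), zero_mul]
      exact zero_le
    · rw [if_pos (by simpa using hg), one_mul]
      exact (hcon g hg).le
  have h5 : (1 : ℝ≥0∞) / 2 * (1 / 4) ≤ W P Badᶜ * (1 / 4) := by gcongr
  exact absurd (h5.trans h4) (not_le.2 hη)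

lemma psum_mono {M : ℕ} (g : Fin M → ℕ) : Monotone (psum g) := by
  intro a b hab
  unfold psum
  refine Finset.sum_le_sum fun i _ => ?_
  by_cases h : (i : ℕ) < a
  · rw [if_pos h, if_pos (lt_of_lt_of_le h hab)]
  · rw [if_neg h]
    exact Nat.zero_le _

lemma mesh {M : ℕ} (g : Fin M → ℕ) (μ c : ℝ) (hμ : 0 ≤ μ) (T r : ℕ) (hr : 1 ≤ r)
    (h : ∀ i ≤ r, ((i * T / r : ℕ) : ℝ) * μ - c ≤ psum g (i * T / r)) (j : ℕ) (hj : j ≤ T) :
    j * μ - ((T : ℝ) / r + 1) * μ - c ≤ psum g j := by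
  have hr0 : (0 : ℝ) < r := by exact_mod_cast hr
  rcases Nat.eq_zero_or_pos T with hT | hT
  · subst hT
    have hj0 : j = 0 := by omega
    subst hj0
    have h0 := h 0 (Nat.zero_le _)
    have h00 : 0 * 0 / r = 0 := by simp
    rw [h00] at h0
    push_cast at h0 ⊢
    have : (0 : ℝ) / r = 0 := by simp
    rw [this]
    linarith
  · have hi1 : j * r / T ≤ r := by
      calc j * r / T ≤ T * r / T := Nat.div_le_div_right (Nat.mul_le_mul_right _ hj)
        _ = r := by rw [Nat.mul_div_cancel_left _ hT]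
    set i := j * r / T with hi
    have h1 : i * T ≤ j * r := Nat.div_mul_le_self _ _
    have h2 : j * r < (i + 1) * T := by
      have := Nat.lt_div_mul_add (a := j * r) hT
      rw [← hi] at this
      nlinarith
    set jj := i * T / r with hjj
    have h3 : jj ≤ j := by
      calc jj ≤ j * r / r := Nat.div_le_div_right h1
        _ = j := Nat.mul_div_cancel _ (by omega)
    have h4 : i * T < (jj + 1) * r := by
      have := Nat.lt_div_mul_add (a := i * T) (b := r) (by omega)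
      rw [← hjj] at this
      nlinarith
    have h5 : (j : ℝ) * r ≤ ((jj : ℝ) + 1) * r + T := by
      have : j * r ≤ (jj + 1) * r + T := by nlinarith
      exact_mod_cast this
    have h6 : (j : ℝ) ≤ jj + 1 + T / r := by
      rw [← sub_le_iff_le_add', le_div_iff₀ hr0]
      nlinarith
    have h7 : (psum g jj : ℝ) ≤ psum g j := by exact_mod_cast psum_mono g h3
    have h8 := h i hi1
    nlinarith

lemma mu_nonneg (P : Par) : 0 ≤ P.μ := by
  refine P.f_mean.nonneg fun t => ?_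
  rcases lt_or_ge t 2 with h | h
  · rw [P.f_zero t h]
    simp
  · exact mul_nonneg (Nat.cast_nonneg t) (P.f_pos t h).le

lemma V_nonneg (P : Par) : 0 ≤ P.V := by
  refine P.f_sq.nonneg fun t => ?_
  rcases lt_or_ge t 2 with h | h
  · rw [P.f_zero t h]
    simp
  · exact mul_nonneg (by positivity) (P.f_pos t h).le

/-- A bound `c / k` (times a constant) is eventually small. -/
lemma ev_small (c : ℝ) (δ : ℝ≥0∞) (hδ : 0 < δ) :
    ∀ᶠ k : ℕ in atTop, ENNReal.ofReal (c / k) < δ := by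
  have h : Tendsto (fun k : ℕ => ENNReal.ofReal (c / k)) atTop (𝓝 (ENNReal.ofReal 0)) := by
    refine (ENNReal.continuous_ofReal.tendsto 0).comp ?_
    exact tendsto_const_div_atTop_nhds_zero_nat c
  rw [ENNReal.ofReal_zero] at h
  exact h.eventually (gt_mem_nhds hδ)

lemma psum_top {M : ℕ} (g : Fin M → ℕ) : psum g M = ∑ i, g i := by
  unfold psum
  exact Finset.sum_congr rfl fun i _ => if_pos i.2

/-- The deterministic inclusion of events and the resulting bound. -/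
lemma final_bound (hTRJ : Stmt_TRJ) (P : Par) {M : ℕ} (N top n k : ℕ) (e : St M)
    (w ε S : ℝ) (hw : w ≤ 1 / 2) (hε4 : ε ≤ 1 / 4) (hinv : Inv top e)
    (he : (e 0).1 = (k : ℤ)) (hn : (n : ℝ) * (P.J / (N : ℝ) ^ 2) = w * k)
    (h1 : P2 n {x | 0 ≤ (traj P N n x e 0).1 ∧
      gap (traj P N n x e) ∈ {g : Fin M → ℕ | (S + ε / 2) * k < ((∑ i, g i : ℕ) : ℝ)}} ≤ 1 / 4)
    (h2 : P2 n {x | ε / 2 * k ≤ |(∑ i, (mark P N (x i) : ℝ)) - n * (P.J / (N : ℝ) ^ 2)|} ≤
      1 / 4) :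
    P2 n {x | (1 + S - w + ε) * k < (sm (traj P N n x e (Fin.last M)) : ℝ)} ≤ 1 / 2 := by
  have hk : (0 : ℝ) ≤ k := Nat.cast_nonneg k
  have h3 : {x | (1 + S - w + ε) * k < (sm (traj P N n x e (Fin.last M)) : ℝ)} ⊆
      {x | 0 ≤ (traj P N n x e 0).1 ∧
        gap (traj P N n x e) ∈ {g : Fin M → ℕ | (S + ε / 2) * k < ((∑ i, g i : ℕ) : ℝ)}} ∪
      {x | ε / 2 * k ≤ |(∑ i, (mark P N (x i) : ℝ)) - n * (P.J / (N : ℝ) ^ 2)|} := by
    intro x hx
    by_cases h4 : ε / 2 * k ≤ |(∑ i, (mark P N (x i) : ℝ)) - n * (P.J / (N : ℝ) ^ 2)|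
    · exact Or.inr h4
    · left
      rw [not_le, abs_lt, hn] at h4
      obtain ⟨h5, h6⟩ := hTRJ.1 P N M top n e x hinv
      have h7 := hTRJ.2 M top _ h5
      have h8 : ((traj P N n x e 0).1 : ℝ) = k - ∑ i, (mark P N (x i) : ℝ) := by
        rw [h6, he]
        push_cast
        ring
      have hx' : (1 + S - w + ε) * k < (sm (traj P N n x e (Fin.last M)) : ℝ) := hx
      rw [h7] at hx'
      push_cast at hx'
      have hwk : w * k ≤ 1 / 2 * k := mul_le_mul_of_nonneg_right hw hk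
      have hεk : ε * k ≤ 1 / 4 * k := mul_le_mul_of_nonneg_right hε4 hk
      refine ⟨?_, ?_⟩
      · have : (0 : ℝ) ≤ ((traj P N n x e 0).1 : ℝ) := by
          rw [h8]
          nlinarith [h4.1, h4.2]
        exact_mod_cast this
      · show (S + ε / 2) * k < ((∑ i, gap (traj P N n x e) i : ℕ) : ℝ)
        push_cast
        rw [h8] at hx'
        nlinarith [h4.1, h4.2]
  calc P2 n {x | (1 + S - w + ε) * k < (sm (traj P N n x e (Fin.last M)) : ℝ)}
      ≤ _ := (measure_mono h3).trans (measure_union_le _ _)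
    _ ≤ 1 / 4 + 1 / 4 := add_le_add h1 h2
    _ = 1 / 2 := by
        rw [ENNReal.div_add_div_same]
        rw [ENNReal.div_eq_div_iff (by norm_num) (by norm_num) (by norm_num) (by norm_num)]
        norm_num

end EXI_

open EXI_ in
theorem exi_proof (hINI : Stmt_INI) (hTRJ : Stmt_TRJ) (hITR : Stmt_ITR) (hTOT : Stmt_TOT)
    (hITS : Stmt_ITS) (hCHB : Stmt_CHB) (hMCH : Stmt_MCH) : Stmt_EXI := by
  intro P A B ε hε hε4 hB hA hJ
  have hμ := mu_nonneg P
  have hV := V_nonneg P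
  have hB0 : (0 : ℝ) < B := by exact_mod_cast hB
  have hA3 : (3 : ℝ) ≤ A := by nlinarith [mul_nonneg hB0.le hμ]
  have hA0 : (0 : ℝ) < A := by linarith
  set w : ℝ := P.J / (A : ℝ) ^ 2 with hw
  have hw2 : w ≤ 1 / 2 := by
    rw [hw, div_le_iff₀ (by positivity)]
    linarith
  obtain ⟨r, hr⟩ : ∃ r : ℕ, r = ⌈4 * B * P.μ / ε⌉₊ + 1 := ⟨_, rfl⟩
  have hr1 : 1 ≤ r := by omega
  have hr0 : (0 : ℝ) < r := by exact_mod_cast hr1
  have hrb : B * P.μ / r ≤ ε / 4 := by
    rw [div_le_iff₀ hr0]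
    have h1 : 4 * B * P.μ / ε ≤ r := by
      rw [hr]
      push_cast
      linarith [Nat.le_ceil (4 * B * P.μ / ε)]
    rw [div_le_iff₀ hε] at h1
    linarith
  set c : ℝ := B * P.V / (ε / 2) ^ 2 with hc
  set d : ℝ := P.R * P.J / ((A : ℝ) ^ 2 * (ε / 2) ^ 2) with hd
  have e1 : ∀ᶠ k : ℕ in atTop, cumG P P.R ≤ ((A * k : ℕ) : ℝ) := by
    have : Tendsto (fun k : ℕ => (A : ℝ) * (k : ℝ)) atTop atTop :=
      tendsto_natCast_atTop_atTop.const_mul_atTop hA0
    filter_upwards [this.eventually_ge_atTop (cumG P P.R)] with k hk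
    push_cast
    exact hk
  have e2 : ∀ᶠ k : ℕ in atTop, 2 * cumG P P.R ≤ ((A * k : ℕ) : ℝ) ^ 2 := by
    have : Tendsto (fun k : ℕ => (A : ℝ) * (k : ℝ)) atTop atTop :=
      tendsto_natCast_atTop_atTop.const_mul_atTop hA0
    filter_upwards [this.eventually_ge_atTop (2 * cumG P P.R),
      this.eventually_ge_atTop 1] with k hk hk1
    push_cast
    nlinarith
  have e3 : ∀ᶠ k : ℕ in atTop, P.μ ≤ ε / 4 * k := by
    have : Tendsto (fun k : ℕ => (ε / 4) * (k : ℝ)) atTop atTop :=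
      tendsto_natCast_atTop_atTop.const_mul_atTop (by linarith)
    exact this.eventually_ge_atTop P.μ
  have e4 := ev_small c (1 / 2 * (1 / 4)) (by simp)
  have e5 := ev_small c (1 / 2 / ((r : ℝ≥0∞) + 1))
    (ENNReal.div_pos (by norm_num) (by simp))
  have e6 := ev_small d (1 / 4) (by norm_num)
  filter_upwards [eventually_ge_atTop 1, e1, e2, e3, e4, e5, e6] with k hk1 k1 k2 k3 k4 k5 k6
  have hk0 : (0 : ℝ) < k := by exact_mod_cast hk1
  have hεk : 0 < ε / 2 * k := by positivity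
  -- the Chebyshev bound for one index
  have hcheb : ∀ j ≤ B * k, W P {g : Fin (B * k) → ℕ | ε / 2 * k ≤ |(psum g j : ℝ) - j * P.μ|} ≤
      ENNReal.ofReal (c / k) := by
    intro j hj
    have := hCHB.2 P (B * k) j (ε / 2 * k) hj hεk
    refine this.trans (le_of_eq ?_)
    congr 1
    rw [hc]
    push_cast
    field_simp
  set E : ℕ → Set (Fin (B * k) → ℕ) := fun i =>
    {g | ε / 2 * k ≤ |(psum g (i * (B * k) / r) : ℝ) - (i * (B * k) / r : ℕ) * P.μ|} with hE
  set Bad : Set (Fin (B * k) → ℕ) :=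
    (⋃ i ∈ Finset.range (r + 1), E i) ∪ {g | ∃ i, g i < 2} with hBaddef
  have hir : ∀ i ≤ r, i * (B * k) / r ≤ B * k := by
    intro i hi
    calc i * (B * k) / r ≤ r * (B * k) / r := Nat.div_le_div_right (Nat.mul_le_mul_right _ hi)
      _ = B * k := Nat.mul_div_cancel_left _ (by omega)
  have hBad : W P Bad ≤ 1 / 2 := by
    refine (W_union P _ _).trans ?_
    rw [W_small, add_zero]
    have h1 := W_range P E (ENNReal.ofReal (c / k)) (r + 1) (fun i hi =>
      hcheb _ (hir i (by omega)))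
    refine h1.trans ?_
    have h2 : ENNReal.ofReal (c / k) ≤ 1 / 2 / ((r : ℝ≥0∞) + 1) := k5.le
    calc ((r + 1 : ℕ) : ℝ≥0∞) * ENNReal.ofReal (c / k)
        ≤ ((r + 1 : ℕ) : ℝ≥0∞) * (1 / 2 / ((r : ℝ≥0∞) + 1)) := by gcongr
      _ = 1 / 2 := by
          push_cast
          exact ENNReal.mul_div_cancel (by simp) (by simp)
  set N : ℕ := A * k with hN
  set n : ℕ := k ^ 3 with hn
  have hN1 : 1 ≤ N := by
    have : (1 : ℝ) ≤ ((A * k : ℕ) : ℝ) := by
      push_cast
      nlinarith [(by exact_mod_cast hk1 : (1 : ℝ) ≤ k)]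
    exact_mod_cast this
  set Bp : Set (Fin (B * k) → ℕ) :=
    {g | (B * P.μ + ε / 2) * k < ((∑ i, g i : ℕ) : ℝ)} with hBp
  have htot : ∀ g : Fin (B * k) → ℕ, ∑ i, g i ≤ N → tot P N g ≤ 1 := fun g hg =>
    hTOT P N (B * k) N g k2 le_rfl hg
  have hF : ∑' g, wt P g * (kapT P N N)^[n] (ind N Bp) g ≤ ENNReal.ofReal (c / k) := by
    refine (hITS P N (B * k) N n Bp htot).trans ?_
    refine le_trans (W_mono P ?_) (hcheb (B * k) le_rfl)
    intro g hg
    have hg' : (B * P.μ + ε / 2) * k < ((∑ i, g i : ℕ) : ℝ) := hg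
    show ε / 2 * k ≤ |(psum g (B * k) : ℝ) - ((B * k : ℕ) : ℝ) * P.μ|
    rw [psum_top, le_abs]
    left
    push_cast at hg' ⊢
    nlinarith
  obtain ⟨g, hg, hFg⟩ := exists_good P (hCHB.1 P (B * k)) Bad
    ((kapT P N N)^[n] (ind N Bp)) _ hBad hF k4
  have hg2 : ∀ i, 2 ≤ g i := by
    intro i
    by_contra hcon
    exact hg (Or.inr ⟨i, by omega⟩)
  have hgE : ∀ i ≤ r, |(psum g (i * (B * k) / r) : ℝ) - (i * (B * k) / r : ℕ) * P.μ| <
      ε / 2 * k := by
    intro i hi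
    by_contra hcon
    rw [not_lt] at hcon
    refine hg (Or.inl ?_)
    rw [Set.mem_iUnion₂]
    exact ⟨i, Finset.mem_range.2 (by omega), hcon⟩
  have hmesh : ∀ j ≤ B * k, j * P.μ - ε * k ≤ (psum g j : ℝ) := by
    intro j hj
    have h1 := mesh g P.μ (ε / 2 * k) hμ (B * k) r hr1 (fun i hi => by
      have := (abs_lt.1 (hgE i hi)).1
      linarith) j hj
    have h2 : (((B * k : ℕ) : ℝ) / r + 1) * P.μ ≤ ε / 2 * k := by
      have h3 : ((B * k : ℕ) : ℝ) / r * P.μ = (B * P.μ / r) * k := by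
        push_cast
        ring
      have h4 : (B * P.μ / r) * k ≤ ε / 4 * k := mul_le_mul_of_nonneg_right hrb hk0.le
      rw [add_mul, h3, one_mul]
      linarith
    linarith
  have htop' : (psum g (B * k) : ℝ) ≤ (B * P.μ + ε / 2) * k := by
    have h1 := (abs_lt.1 (hgE r le_rfl)).2
    rw [Nat.mul_div_cancel_left _ (by omega)] at h1
    push_cast at h1 ⊢
    nlinarith
  refine ⟨g, hg2, hmesh, htop'.trans (mul_le_mul_of_nonneg_right (by linarith) hk0.le), ?_⟩
  have hsum : k + ∑ i, g i ≤ N := by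
    have h1 : ((k + ∑ i, g i : ℕ) : ℝ) ≤ ((A * k : ℕ) : ℝ) := by
      rw [psum_top] at htop'
      push_cast at htop' ⊢
      nlinarith
    exact_mod_cast h1
  obtain ⟨i1, i2, i3, _⟩ := hINI (B * k) k N g hg2 hsum
  have hnn : (n : ℝ) * (P.J / (N : ℝ) ^ 2) = w * k := by
    rw [hn, hN, hw]
    push_cast
    field_simp
  refine final_bound hTRJ P N N n k (ini k g) w ε (B * P.μ) hw2 hε4 i1 i3 hnn ?_ ?_
  · have h1 := hITR P N (B * k) N n (ini k g) Bp hN1 le_rfl k1 i1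
    rw [i2] at h1
    exact h1.trans hFg
  · have h1 := hMCH P N n (ε / 2 * k) hN1 k1 hεk
    refine h1.trans (le_trans (le_of_eq ?_) k6.le)
    congr 1
    rw [hd, hn, hN]
    push_cast
    field_simp

end Pool.Agent.K3L
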