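import Pool.Agent.K3L.Stmts

/-!
# The general lower bound from the modules
-/

set_option autoImplicit false

namespace Pool.Agent.K3L

open MeasureTheory Filter Topology
open scoped ENNReal

namespace FIN_

lemma two_le_mu (P : Par) : 2 ≤ P.μ := by
  have h1 : HasSum (fun t : ℕ => 2 * P.f t) (2 * 1) := P.f_sum.mul_left 2
  have h2 : (2 : ℝ) * 1 ≤ P.μ := by
    refine hasSum_le (fun t => ?_) h1 P.f_mean
    rcases lt_or_ge t 2 with h | h
    · rw [P.f_zero t h]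
      simp
    · have h3 : (2 : ℝ) ≤ t := by exact_mod_cast h
      exact mul_le_mul_of_nonneg_right h3 (P.f_pos t h).le
  linarith

/-- The condition of positive area. -/
def Cond (A D : ℕ) (t : ℕ × ℕ × ℕ) : Prop :=
  (1 + (t.1 : ℝ) / D) / A < ((t.2.1 : ℝ) / D) / A ∧ ((t.1 : ℝ) / D) / A < ((t.2.2 : ℝ) / D) / A

/-- The bad event of a box. -/
def Ev (κ : ℝ) (A D k : ℕ) (t : ℕ × ℕ × ℕ) : Set (Fin (k ^ 3) → ℝ × ℝ) :=
  {x | Cond A D t ∧ κ * ((((t.2.1 : ℝ) / D) / A - (1 + (t.1 : ℝ) / D) / A) *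
        (((t.2.2 : ℝ) / D) / A - ((t.1 : ℝ) / D) / A)) ^ ((1 : ℝ) / 3) * k ≤
    (L2 x (bx ((1 + (t.1 : ℝ) / D) / A) (((t.2.1 : ℝ) / D) / A) (((t.1 : ℝ) / D) / A)
      (((t.2.2 : ℝ) / D) / A)) : ℝ)}

lemma tendsto_Ev (hBXL : Stmt_BXL) {κ κ' : ℝ} (hκ : 0 < κ) (hκ' : κ < κ') (hU : HypU κ)
    (A D : ℕ) (hA : 1 ≤ A) (hD : 1 ≤ D) (t : ℕ × ℕ × ℕ) (ht1 : t.2.1 ≤ A * D)
    (ht2 : t.2.2 ≤ A * D) :
    Tendsto (fun k : ℕ => P2 (k ^ 3) (Ev κ' A D k t)) atTop (𝓝 0) := by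
  have hA0 : (0 : ℝ) < A := by exact_mod_cast hA
  have hD0 : (0 : ℝ) < D := by exact_mod_cast hD
  have hle : ∀ b : ℕ, b ≤ A * D → ((b : ℝ) / D) / A ≤ 1 := by
    intro b hb
    rw [div_le_one hA0, div_le_iff₀ hD0]
    exact_mod_cast hb
  by_cases hc : Cond A D t
  · have h1 := hBXL κ κ' _ _ _ _ hκ hκ' hU (by positivity) hc.1 (hle _ ht1) (by positivity)
      hc.2 (hle _ ht2)
    refine h1.congr fun k => ?_
    congr 1
    ext x
    exact ⟨fun h => ⟨hc, h⟩, fun h => h.2⟩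
  · have h1 : ∀ k, Ev κ' A D k t = ∅ := by
      intro k
      ext x
      exact ⟨fun h => hc h.1, fun h => absurd h (by simp)⟩
    simp [h1]

lemma tendsto_sum (hBXL : Stmt_BXL) {κ κ' : ℝ} (hκ : 0 < κ) (hκ' : κ < κ') (hU : HypU κ)
    (A D : ℕ) (hA : 1 ≤ A) (hD : 1 ≤ D) :
    Tendsto (fun k : ℕ => ∑ t ∈ (Finset.range (A * D + 1)) ×ˢ
      ((Finset.range (A * D + 1)) ×ˢ (Finset.range (A * D + 1))), P2 (k ^ 3) (Ev κ' A D k t))
      atTop (𝓝 0) := by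
  have h1 := tendsto_finsetSum ((Finset.range (A * D + 1)) ×ˢ
      ((Finset.range (A * D + 1)) ×ˢ (Finset.range (A * D + 1))))
      (f := fun t (k : ℕ) => P2 (k ^ 3) (Ev κ' A D k t)) (x := atTop) (a := fun _ => 0)
      (fun t ht => by
        rw [Finset.mem_product, Finset.mem_product, Finset.mem_range, Finset.mem_range,
          Finset.mem_range] at ht
        exact tendsto_Ev hBXL hκ hκ' hU A D hA hD t (by omega) (by omega))
  simpa using h1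

lemma tendsto_all {κ : ℝ} (hU : HypU κ) :
    Tendsto (fun k : ℕ => P2 (k ^ 3) {x | κ * k ≤ (L2 x Set.univ : ℝ)}) atTop (𝓝 0) := by
  have h1 : Tendsto (fun k : ℕ => k ^ 3) atTop atTop :=
    tendsto_pow_atTop (by norm_num)
  have h2 := hU.comp h1
  refine h2.congr fun k => ?_
  have h3 : (((k ^ 3 : ℕ) : ℝ)) ^ ((1 : ℝ) / 3) = k := by
    push_cast
    rw [← Real.rpow_natCast, ← Real.rpow_mul (Nat.cast_nonneg k)]
    norm_num
  simp only [Function.comp, h3]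

/-- The deterministic end of the proof. -/
lemma final (hDET : Stmt_DET) (P : Par) (A B D k n : ℕ) (κ' ε δ c w : ℝ) (hA : 1 ≤ A)
    (hAB : B * P.μ + 3 ≤ (A : ℝ)) (hD : 1 ≤ D) (hk : 1 ≤ k) (hκ' : 0 < κ') (hε : 0 < ε)
    (hε4 : ε ≤ 1 / 4) (hw0 : 0 < w) (hwε : 4 * ε ≤ w)
    (hδ : 2 * ε + 3 / k + 4 / D ≤ δ) (hw : w = P.J / (A : ℝ) ^ 2)
    (hc : c = κ' ^ 3 * P.μ ^ 3 / (27 * P.J))
    (hANA : ∀ y : ℝ, w - δ ≤ y → ¬ (y ^ 3 ≤ 27 * c / 4 * w * (y - w + δ) ^ 2))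
    (x : Fin n → ℝ × ℝ) (S : Finset (Fin n)) (q : ℤ × ℤ) (s j : ℕ)
    (hS : IsInc x S) (hj : j + S.card = B * k)
    (hs : j * P.μ - ε * k ≤ (s : ℝ))
    (hq1 : (k : ℤ) + (s / 2 : ℕ) ≤ q.1) (hq2 : ((s - s / 2 : ℕ) : ℤ) ≤ q.2)
    (hcell : ∀ i ∈ S, (k : ℤ) + (s / 2 : ℕ) < (cell (A * k) (x i)).1 ∧
      ((s - s / 2 : ℕ) : ℤ) < (cell (A * k) (x i)).2 ∧
      (cell (A * k) (x i)).1 ≤ q.1 ∧ (cell (A * k) (x i)).2 ≤ q.2)
    (hq : (sm q : ℝ) ≤ (1 + B * P.μ - w + ε) * k)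
    (hbox : ∀ a b c : ℕ, a ≤ A * D → b ≤ A * D → c ≤ A * D →
      (1 + (a : ℝ) / D) / A < ((b : ℝ) / D) / A → ((a : ℝ) / D) / A < ((c : ℝ) / D) / A →
      (L2 x (bx ((1 + (a : ℝ) / D) / A) (((b : ℝ) / D) / A) (((a : ℝ) / D) / A)
        (((c : ℝ) / D) / A)) : ℝ) <
        κ' * ((((b : ℝ) / D) / A - (1 + (a : ℝ) / D) / A) *
          (((c : ℝ) / D) / A - ((a : ℝ) / D) / A)) ^ ((1 : ℝ) / 3) * k) : False := by
  have hA0 : (0 : ℝ) < A := by exact_mod_cast hA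
  have hk0 : (0 : ℝ) < k := by exact_mod_cast hk
  have hk1 : (1 : ℝ) ≤ k := by exact_mod_cast hk
  have hD0 : (0 : ℝ) < D := by exact_mod_cast hD
  have hμ := two_le_mu P
  have hsplit : (s / 2 : ℕ) + (s - s / 2 : ℕ) = s := by omega
  have hqs : ((k : ℝ) + s) ≤ (q.1 : ℝ) + q.2 := by
    have h1 : (k : ℤ) + s ≤ q.1 + q.2 := by
      have : ((s / 2 : ℕ) : ℤ) + ((s - s / 2 : ℕ) : ℤ) = s := by exact_mod_cast hsplit
      linarith
    exact_mod_cast h1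
  have hsm : (sm q : ℝ) = (q.1 : ℝ) + q.2 := by
    unfold sm
    push_cast
    ring
  rw [hsm] at hq
  have hjr : (j : ℝ) + S.card = B * k := by exact_mod_cast hj
  rcases Finset.eq_empty_or_nonempty S with hSe | hSne
  · rw [hSe] at hjr
    simp only [Finset.card_empty, Nat.cast_zero, add_zero] at hjr
    rw [hjr] at hs
    have h1 : (w - 2 * ε) * k ≤ 0 := by nlinarith
    have h2 : 0 < (w - 2 * ε) * k := mul_pos (by linarith) hk0
    linarith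
  · have hq1A : q.1 + 1 ≤ (A : ℤ) * k := by
      have h1 : (q.1 : ℝ) + 1 ≤ (A : ℝ) * k := by
        have h2 : (0 : ℝ) ≤ q.2 := by
          have : (0 : ℤ) ≤ q.2 := le_trans (by positivity) hq2
          exact_mod_cast this
        nlinarith
      exact_mod_cast h1
    have hq2A : q.2 + 1 ≤ (A : ℤ) * k := by
      have h1 : (q.2 : ℝ) + 1 ≤ (A : ℝ) * k := by
        have h2 : (0 : ℝ) ≤ q.1 := by
          have : (0 : ℤ) ≤ q.1 := le_trans (by positivity) hq1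
          exact_mod_cast this
        nlinarith
      exact_mod_cast h1
    have hdet := hDET A D k n s κ' x S q hA hD hk hκ' hS hSne hcell hq1A hq2A hbox
    set Δ : ℝ := (q.1 : ℝ) + q.2 - k - s + 3 + 4 * k / D with hΔ
    set y : ℝ := S.card * P.μ / k with hy
    have hΔ0 : 0 ≤ Δ := by
      have : 0 ≤ 4 * (k : ℝ) / D := by positivity
      rw [hΔ]
      linarith
    have hyk : y * k = S.card * P.μ := by
      rw [hy]
      field_simp
    have h4 : (2 * ε + 3 / k + 4 / D) * k = 2 * ε * k + 3 + 4 * k / D := by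
      field_simp
    have h5 : (2 * ε + 3 / k + 4 / D) * k ≤ δ * k := mul_le_mul_of_nonneg_right hδ hk0.le
    have hΔ1 : Δ ≤ (y - w + δ) * k := by
      have h6 : (y - w + δ) * k = y * k - w * k + δ * k := by ring
      rw [h6, hyk, hΔ]
      have h7 : (j : ℝ) * P.μ = B * k * P.μ - S.card * P.μ := by
        rw [← hjr]
        ring
      nlinarith
    have hu0 : 0 ≤ y - w + δ := by
      by_contra hcon
      rw [not_le] at hcon
      have : (y - w + δ) * k < 0 := mul_neg_of_neg_of_pos hcon hk0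
      linarith
    refine hANA y (by linarith) ?_
    have h8 : Δ ^ 2 ≤ ((y - w + δ) * k) ^ 2 := pow_le_pow_left₀ hΔ0 hΔ1 2
    have h9 : (S.card : ℝ) ^ 3 ≤
        κ' ^ 3 * ((y - w + δ) * k) ^ 2 * k / (4 * (A : ℝ) ^ 2) := by
      refine hdet.trans ?_
      gcongr
    have h10 : y ^ 3 = (S.card : ℝ) ^ 3 * (P.μ ^ 3 / k ^ 3) := by
      rw [hy]
      field_simp
    rw [h10]
    calc (S.card : ℝ) ^ 3 * (P.μ ^ 3 / k ^ 3)
        ≤ (κ' ^ 3 * ((y - w + δ) * k) ^ 2 * k / (4 * (A : ℝ) ^ 2)) * (P.μ ^ 3 / k ^ 3) := by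
          gcongr
      _ = 27 * c / 4 * w * (y - w + δ) ^ 2 := by
          have hJ := P.J_pos
          rw [hc, hw]
          field_simp

end FIN_

open FIN_ in
theorem fin_proof (hEXI : Stmt_EXI) (hBXL : Stmt_BXL) (hCHN : Stmt_CHN) (hDET : Stmt_DET)
    (hANA : Stmt_ANA) : Stmt_MAIN := by
  intro P κ hκ hU
  by_contra hcon
  rw [not_le] at hcon
  have hμ := two_le_mu P
  have hJ := P.J_pos
  -- a slightly larger constant
  obtain ⟨κ', hκ', hκ'2⟩ : ∃ κ' : ℝ, κ < κ' ∧ κ' ^ 3 * P.μ ^ 3 < 27 * P.J := by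
    have h1 : Tendsto (fun t : ℝ => t ^ 3 * P.μ ^ 3) (𝓝[>] κ) (𝓝 (κ ^ 3 * P.μ ^ 3)) :=
      ((by fun_prop : Continuous (fun t : ℝ => t ^ 3 * P.μ ^ 3)).tendsto κ).mono_left
        nhdsWithin_le_nhds
    have h2 := h1.eventually (gt_mem_nhds hcon)
    obtain ⟨t, ht1, ht2⟩ := (h2.and self_mem_nhdsWithin).exists
    exact ⟨t, ht2, ht1⟩
  have hκ'0 : 0 < κ' := hκ.trans hκ'
  set c : ℝ := κ' ^ 3 * P.μ ^ 3 / (27 * P.J) with hc
  have hc0 : 0 < c := by positivity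
  have hc1 : c < 1 := by
    rw [hc, div_lt_one (by positivity)]
    exact hκ'2
  obtain ⟨B, hB⟩ : ∃ B : ℕ, B = ⌈κ⌉₊ + 1 := ⟨_, rfl⟩
  have hB1 : 1 ≤ B := by omega
  have hBκ : κ < B := by
    rw [hB]
    push_cast
    linarith [Nat.le_ceil κ]
  obtain ⟨A, hA⟩ : ∃ A : ℕ, A = ⌈B * P.μ + 3 + 2 * P.J⌉₊ := ⟨_, rfl⟩
  have hAr : B * P.μ + 3 + 2 * P.J ≤ (A : ℝ) := by
    rw [hA]
    exact Nat.le_ceil _
  have hBμ : 0 ≤ (B : ℝ) * P.μ := by positivity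
  have hA3 : (3 : ℝ) ≤ A := by linarith
  have hA1 : 1 ≤ A := by
    have : (1 : ℝ) ≤ A := by linarith
    exact_mod_cast this
  have hAJ : P.J ≤ (A : ℝ) ^ 2 / 2 := by nlinarith
  set w : ℝ := P.J / (A : ℝ) ^ 2 with hw
  have hw0 : 0 < w := by positivity
  obtain ⟨δ₀, hδ₀, hana⟩ := hANA c w hc0 hc1 hw0
  set ε : ℝ := min (1 / 4) (min (w / 4) (δ₀ / 8)) with hε
  have hε0 : 0 < ε := by positivity
  have hε4 : ε ≤ 1 / 4 := min_le_left _ _
  have hεw : ε ≤ w / 4 := (min_le_right _ _).trans (min_le_left _ _)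
  have hεδ : ε ≤ δ₀ / 8 := (min_le_right _ _).trans (min_le_right _ _)
  obtain ⟨D, hD⟩ : ∃ D : ℕ, D = ⌈16 / δ₀⌉₊ + 1 := ⟨_, rfl⟩
  have hD1 : 1 ≤ D := by omega
  have hD0 : (0 : ℝ) < D := by exact_mod_cast hD1
  have hDδ : 4 / (D : ℝ) ≤ δ₀ / 4 := by
    have h1 : 16 / δ₀ ≤ D := by
      rw [hD]
      push_cast
      linarith [Nat.le_ceil (16 / δ₀)]
    rw [div_le_iff₀ hδ₀] at h1
    rw [div_le_iff₀ hD0]
    linarith
  have e1 := hEXI P A B ε hε0 hε4 hB1 (by linarith) hAJ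
  have e2 := (tendsto_sum hBXL hκ hκ' hU A D hA1 hD1).eventually
    (gt_mem_nhds (show (0 : ℝ≥0∞) < 1 / 4 by norm_num))
  have e3 := (tendsto_all hU).eventually (gt_mem_nhds (show (0 : ℝ≥0∞) < 1 / 4 by norm_num))
  have e4 : ∀ᶠ k : ℕ in atTop, 3 / (k : ℝ) ≤ δ₀ / 4 := by
    have h1 : Tendsto (fun k : ℕ => 3 / (k : ℝ)) atTop (𝓝 0) :=
      tendsto_const_div_atTop_nhds_zero_nat 3
    filter_upwards [h1.eventually (gt_mem_nhds (show (0 : ℝ) < δ₀ / 4 by linarith))] with k hk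
    exact hk.le
  obtain ⟨k, ⟨⟨⟨⟨g, hg2, hgj, _, hgP⟩, k2⟩, k3⟩, k4⟩, hk1⟩ :=
    ((((e1.and e2).and e3).and e4).and (eventually_ge_atTop 1)).exists
  have hk0 : (0 : ℝ) < k := by exact_mod_cast hk1
  -- a good configuration
  set n : ℕ := k ^ 3 with hn
  set T := (Finset.range (A * D + 1)) ×ˢ
      ((Finset.range (A * D + 1)) ×ˢ (Finset.range (A * D + 1))) with hT
  obtain ⟨x, hx1, hx2, hx3⟩ : ∃ x : Fin n → ℝ × ℝ,
      (sm (traj P (A * k) n x (ini k g) (Fin.last (B * k))) : ℝ) ≤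
        (1 + B * P.μ - w + ε) * k ∧ (∀ t ∈ T, x ∉ Ev κ' A D k t) ∧
      (L2 x Set.univ : ℝ) < κ * k := by
    by_contra hno
    push Not at hno
    have h1 : (Set.univ : Set (Fin n → ℝ × ℝ)) ⊆
        ({x | (1 + B * P.μ - w + ε) * k <
          (sm (traj P (A * k) n x (ini k g) (Fin.last (B * k))) : ℝ)} ∪
          ⋃ t ∈ T, Ev κ' A D k t) ∪ {x | κ * k ≤ (L2 x Set.univ : ℝ)} := by
      intro x _
      by_cases h2 : (sm (traj P (A * k) n x (ini k g) (Fin.last (B * k))) : ℝ) ≤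
        (1 + B * P.μ - w + ε) * k
      · by_cases h3 : ∀ t ∈ T, x ∉ Ev κ' A D k t
        · exact Or.inr (hno x h2 h3)
        · push Not at h3
          obtain ⟨t, ht, hxt⟩ := h3
          exact Or.inl (Or.inr (Set.mem_iUnion₂.2 ⟨t, ht, hxt⟩))
      · exact Or.inl (Or.inl (not_le.1 h2))
    have h2 : (1 : ℝ≥0∞) ≤ 1 / 2 + ∑ t ∈ T, P2 n (Ev κ' A D k t) +
        P2 n {x | κ * k ≤ (L2 x Set.univ : ℝ)} := by
      calc (1 : ℝ≥0∞) = P2 n Set.univ := by rw [measure_univ]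
        _ ≤ _ := measure_mono h1
        _ ≤ _ := measure_union_le _ _
        _ ≤ _ := by
          gcongr
          refine (measure_union_le _ _).trans ?_
          exact add_le_add hgP (measure_biUnion_finset_le _ _)
    have h3 : (1 : ℝ≥0∞) / 2 + ∑ t ∈ T, P2 n (Ev κ' A D k t) +
        P2 n {x | κ * k ≤ (L2 x Set.univ : ℝ)} < 1 / 2 + 1 / 4 + 1 / 4 := by
      refine ENNReal.add_lt_add ?_ k3
      exact ENNReal.add_lt_add_left (by norm_num) k2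
    have h4 : (1 : ℝ≥0∞) / 2 + 1 / 4 + 1 / 4 = 1 := by
      rw [← ENNReal.toReal_eq_toReal_iff' (by simp) (by simp)]
      rw [ENNReal.toReal_add (by simp) (by simp), ENNReal.toReal_add (by simp) (by simp)]
      norm_num
    rw [h4] at h3
    exact absurd (h2.trans_lt h3) (lt_irrefl _)
  obtain ⟨S, hS, hSle, hSj⟩ := hCHN P (A * k) (B * k) n (ini k g) x (Fin.last (B * k))
  rcases hSj with hfull | ⟨j, hj, hj1, hjc, hjq1, hjq2⟩
  · have h1 : (S.card : ℝ) ≤ (L2 x Set.univ : ℝ) := by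
      exact_mod_cast card_le_L2 hS (fun i _ => Set.mem_univ _)
    rw [hfull, Fin.val_last] at h1
    push_cast at h1
    nlinarith
  · rw [Fin.val_last] at hj
    refine final hDET P A B D k n κ' ε δ₀ c w hA1 (by linarith) hD1 hk1 hκ'0 hε0 hε4 hw0
      (by linarith) (by linarith) hw hc (fun y hy => hana δ₀ y hδ₀ le_rfl hy) x S
      (traj P (A * k) n x (ini k g) (Fin.last (B * k))) (psum g j) j hS hj
      (hgj j (by omega)) hjq1 hjq2 ?_ hx1 ?_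
    · intro i hi
      exact ⟨(hjc i hi).1, (hjc i hi).2, (hSle i hi).1, (hSle i hi).2⟩
    · intro a b c' ha hb hc' h1 h2
      have h3 := hx2 (a, b, c') (by
        rw [hT, Finset.mem_product, Finset.mem_product, Finset.mem_range, Finset.mem_range,
          Finset.mem_range]
        exact ⟨Nat.lt_succ_of_le ha, Nat.lt_succ_of_le hb, Nat.lt_succ_of_le hc'⟩)
      by_contra h4
      rw [not_lt] at h4
      exact h3 ⟨⟨h1, h2⟩, h4⟩

end Pool.Agent.K3L
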