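import Pool.Agent.K3L.Stmts

/-!
# Module HIT: the law of a hit
-/

set_option autoImplicit false

namespace Pool.Agent.K3L

open MeasureTheory
open scoped ENNReal

namespace HIT_

lemma measurableSet_hit (P : Par) (N M : ℕ) (e : St M) (k : Fin M) :
    MeasurableSet {x | Hit P N e k x} := by
  have hc := measurable_cell N
  have h1 : MeasurableSet {x : ℝ × ℝ | (e k.castSucc).1 < (cell N x).1} :=
    hc (MeasurableSet.of_discrete (s := {p : ℤ × ℤ | (e k.castSucc).1 < p.1}))
  have h2 : MeasurableSet {x : ℝ × ℝ | (e k.castSucc).2 < (cell N x).2} :=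
    hc (MeasurableSet.of_discrete (s := {p : ℤ × ℤ | (e k.castSucc).2 < p.2}))
  have h3 : MeasurableSet {x : ℝ × ℝ | sm (cell N x) < sm (e k.succ)} :=
    hc (MeasurableSet.of_discrete (s := {p : ℤ × ℤ | sm p < sm (e k.succ)}))
  have h4 : MeasurableSet {x : ℝ × ℝ | Int.fract ((N : ℝ) * x.1) <
      alpha P (gap e k) (sm (cell N x) - sm (e k.castSucc)).toNat} := by
    apply measurableSet_lt
    · exact measurable_fract.comp (measurable_const.mul measurable_fst)
    · exact (Measurable.of_discrete (f := fun p : ℤ × ℤ =>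
        alpha P (gap e k) (sm p - sm (e k.castSucc)).toNat)).comp hc
  exact h1.inter (h2.inter (h3.inter h4))

lemma sm_le {M top : ℕ} {e : St M} (h : Inv top e) (j : Fin (M + 1)) : sm (e j) ≤ (top : ℤ) := by
  have h1 : StrictMono (fun j : Fin (M + 1) => sm (e j)) := by
    rw [Fin.strictMono_iff_lt_succ]
    intro i
    have := h.2.2.2.1 i
    show sm (e i.castSucc) < sm (e i.succ)
    omega
  exact le_trans (h1.monotone (Fin.le_last j)) h.2.2.2.2

lemma alpha_bd (P : Par) (τ m : ℕ) (hτ : 2 ≤ τ) :
    0 ≤ alpha P (τ + m) τ ∧ alpha P (τ + m) τ ≤ 1 ∧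
      ((τ : ℝ) - 1) * alpha P (τ + m) τ = P.G m * P.f τ / P.f (τ + m) := by
  have h0 : (0 : ℝ) < (τ : ℝ) - 1 := by
    have : (2 : ℝ) ≤ τ := by exact_mod_cast hτ
    linarith
  have h1 := P.f_pos τ hτ
  have h2 := P.f_pos (τ + m) (by omega)
  have h3 := P.G_nonneg m
  have e : τ + m - τ = m := by omega
  have h4 := P.key τ m hτ
  unfold alpha
  rw [e]
  refine ⟨by positivity, ?_, ?_⟩
  · rw [div_le_one (by positivity)]
    linarith
  · field_simp

end HIT_

open HIT_ in
theorem hit_proof : Stmt_HIT := by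
  refine ⟨measurableSet_hit, ?_⟩
  intro P N M top m e k hN htop hinv he0 hm
  have hN0 : (0 : ℝ) < N := by exact_mod_cast hN
  have hgap := hinv.2.2.2.1 k
  have hX : 0 ≤ (e k.castSucc).1 := le_trans he0 (hinv.2.1 _)
  have hY : 0 ≤ (e k.castSucc).2 := hinv.2.2.1 _
  have hs : sm (e k.succ) ≤ (N : ℤ) := by
    have h1 := sm_le hinv k.succ
    have h2 : (top : ℤ) ≤ N := by exact_mod_cast htop
    omega
  have hg : (gap e k : ℤ) = sm (e k.succ) - sm (e k.castSucc) := by
    unfold gap
    rw [Int.toNat_of_nonneg (by omega)]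
  set X := (e k.castSucc).1 with hXd
  set Y := (e k.castSucc).2 with hYd
  have hc : sm (e k.castSucc) = X + Y := rfl
  rw [rate_succ]
  by_cases hcase : gap e k < m + 2
  · have hz : P.f (gap e k - m) = 0 := P.f_zero _ (by omega)
    rw [hz, mul_zero, zero_div, zero_div, ENNReal.ofReal_zero]
    have hempty : {x | Hit P N e k x ∧ sm (cell N x) + (m : ℤ) = sm (e k.succ)} = ∅ := by
      apply Set.eq_empty_of_forall_notMem
      rintro x ⟨⟨h1, h2, h3, h4⟩, h5⟩
      have h6 : sm (cell N x) = (cell N x).1 + (cell N x).2 := rfl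
      omega
    rw [hempty, measure_empty]
  · push Not at hcase
    obtain ⟨τ, hτ⟩ : ∃ τ : ℕ, gap e k = τ + m := ⟨gap e k - m, by omega⟩
    have hτ2 : 2 ≤ τ := by omega
    have hs' : sm (e k.succ) = X + Y + τ + m := by
      have h1 : (gap e k : ℤ) = τ + m := by rw [hτ]; push_cast; ring
      omega
    obtain ⟨ha0, ha1, ha2⟩ := alpha_bd P τ m hτ2
    set α := alpha P (τ + m) τ with hα
    have hset : {x | Hit P N e k x ∧ sm (cell N x) + (m : ℤ) = sm (e k.succ)} =
        ⋃ d ∈ Finset.Ico 1 τ,
          (Set.Ico (((X : ℝ) + d) / N) (((X : ℝ) + d + α) / N)) ×ˢ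
          (Set.Ico (((Y : ℝ) + τ - d) / N) (((Y : ℝ) + τ - d + 1) / N)) := by
      ext x
      simp only [Set.mem_ofPred_eq, Set.mem_iUnion, Set.mem_prod, Set.mem_Ico, Finset.mem_Ico,
        exists_prop, div_le_iff₀ hN0, lt_div_iff₀ hN0]
      constructor
      · rintro ⟨⟨h1, h2, _, h4⟩, h5⟩
        have h6 : sm (cell N x) = (cell N x).1 + (cell N x).2 := rfl
        have h7 : (sm (cell N x) - sm (e k.castSucc)).toNat = τ := by omega
        rw [h7, hτ] at h4
        have h8 : (cell N x).1 = ⌊(N : ℝ) * x.1⌋ := rfl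
        have h9 : (cell N x).2 = ⌊(N : ℝ) * x.2⌋ := rfl
        obtain ⟨d, hd⟩ : ∃ d : ℕ, (cell N x).1 = X + d :=
          ⟨((cell N x).1 - X).toNat, by rw [Int.toNat_of_nonneg (by omega)]; ring⟩
        have h10 : (cell N x).2 = Y + τ - d := by omega
        have h11 : ((X : ℝ) + d) ≤ (N : ℝ) * x.1 := by
          have := Int.floor_le ((N : ℝ) * x.1)
          rw [← h8, hd] at this
          push_cast at this
          exact this
        have h12 : (N : ℝ) * x.1 < (X : ℝ) + d + α := by
          have h13 : Int.fract ((N : ℝ) * x.1) = (N : ℝ) * x.1 - ((X : ℝ) + d) := by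
            rw [Int.fract, ← h8, hd]
            push_cast
            ring
          rw [h13] at h4
          linarith
        have h14 := Int.floor_le ((N : ℝ) * x.2)
        have h15 := Int.lt_floor_add_one ((N : ℝ) * x.2)
        rw [← h9, h10] at h14 h15
        push_cast at h14 h15
        refine ⟨d, ⟨by omega, by omega⟩, ⟨by linarith, by linarith⟩, by linarith, by linarith⟩
      · rintro ⟨d, ⟨hd1, hd2⟩, ⟨h1, h2⟩, h3, h4⟩
        have h5 : ⌊(N : ℝ) * x.1⌋ = X + d := by
          rw [Int.floor_eq_iff]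
          push_cast
          constructor <;> linarith
        have h6 : ⌊(N : ℝ) * x.2⌋ = Y + τ - d := by
          rw [Int.floor_eq_iff]
          push_cast
          constructor <;> linarith
        have h7 : (cell N x).1 = X + d := h5
        have h8 : (cell N x).2 = Y + τ - d := h6
        have h9 : sm (cell N x) = X + Y + τ := by
          show (cell N x).1 + (cell N x).2 = _
          rw [h7, h8]; ring
        have h10 : (sm (cell N x) - sm (e k.castSucc)).toNat = τ := by omega
        refine ⟨⟨by omega, by omega, by omega, ?_⟩, by omega⟩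
        rw [h10, hτ, Int.fract, h5]
        push_cast
        linarith
    rw [hset, measure_biUnion_finset]
    · have hterm : ∀ d ∈ Finset.Ico 1 τ, sq ((Set.Ico (((X : ℝ) + d) / N)
          (((X : ℝ) + d + α) / N)) ×ˢ
          (Set.Ico (((Y : ℝ) + τ - d) / N) (((Y : ℝ) + τ - d + 1) / N))) =
          ENNReal.ofReal (α / (N : ℝ) ^ 2) := by
        intro d hd
        rw [Finset.mem_Ico] at hd
        have hXr : (0 : ℝ) ≤ X := by exact_mod_cast hX
        have hYr : (0 : ℝ) ≤ Y := by exact_mod_cast hY
        have hdr : (1 : ℝ) ≤ d := by exact_mod_cast hd.1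
        have hdτ : (d : ℝ) + 1 ≤ τ := by exact_mod_cast hd.2
        have hNr : (X : ℝ) + Y + τ + m ≤ N := by
          have : X + Y + (τ : ℤ) + m ≤ N := by omega
          exact_mod_cast this
        have hmr : (1 : ℝ) ≤ m := by exact_mod_cast hm
        rw [sq_rect]
        · have e1 : ((X : ℝ) + d + α) / N - ((X : ℝ) + d) / N = α / N := by ring
          have e2 : ((Y : ℝ) + τ - d + 1) / N - ((Y : ℝ) + τ - d) / N = 1 / N := by ring
          rw [e1, e2, ← ENNReal.ofReal_mul (by positivity)]
          congr 1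
          field_simp
        · positivity
        · rw [div_le_one hN0]; linarith
        · apply div_nonneg _ hN0.le; linarith
        · rw [div_le_one hN0]; linarith
      rw [Finset.sum_congr rfl hterm, Finset.sum_const, Nat.card_Ico, nsmul_eq_mul,
        ← ENNReal.ofReal_natCast, ← ENNReal.ofReal_mul (Nat.cast_nonneg _)]
      congr 1
      have e3 : gap e k - m = τ := by omega
      rw [e3, hτ, ← ha2, Nat.cast_sub (by omega)]
      push_cast
      ring
    · intro d _ d' _ hne
      show Disjoint _ _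
      rw [Set.disjoint_left]
      rintro x hx hx'
      simp only [Set.mem_prod, Set.mem_Ico, div_le_iff₀ hN0, lt_div_iff₀ hN0] at hx hx'
      apply hne
      have h1 : ⌊(N : ℝ) * x.1⌋ = X + d := by
        rw [Int.floor_eq_iff]
        push_cast
        constructor <;> linarith [hx.1.1, hx.1.2]
      have h2 : ⌊(N : ℝ) * x.1⌋ = X + d' := by
        rw [Int.floor_eq_iff]
        push_cast
        constructor <;> linarith [hx'.1.1, hx'.1.2]
      omega
    · intro d _
      exact measurableSet_Ico.prod measurableSet_Ico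

end Pool.Agent.K3L
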