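import Pool.Agent.K3L.Stmts

/-!
# MP_79568f_pr, lower bound: module INI, the initial state
-/

set_option autoImplicit false

namespace Pool.Agent.K3L

namespace INI_

theorem psum_zero {M : ℕ} (g : Fin M → ℕ) : psum g 0 = 0 := by
  unfold psum
  exact Finset.sum_eq_zero fun i _ => if_neg (Nat.not_lt_zero _)

theorem psum_succ {M : ℕ} (g : Fin M → ℕ) (k : Fin M) :
    psum g ((k : ℕ) + 1) = psum g (k : ℕ) + g k := by
  classical
  have h : ∀ i : Fin M, (if (i : ℕ) < (k : ℕ) + 1 then g i else 0) =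
      (if (i : ℕ) < (k : ℕ) then g i else 0) + (if i = k then g i else 0) := by
    intro i
    by_cases h1 : i = k
    · subst h1
      rw [if_pos (Nat.lt_succ_self _), if_neg (lt_irrefl _), if_pos rfl, zero_add]
    · have h2 : (i : ℕ) ≠ (k : ℕ) := fun h => h1 (Fin.ext h)
      rw [if_neg h1, add_zero]
      by_cases h3 : (i : ℕ) < (k : ℕ)
      · rw [if_pos h3, if_pos (Nat.lt_succ_of_lt h3)]
      · rw [if_neg h3, if_neg (fun h4 => h3 (lt_of_le_of_ne (Nat.lt_succ_iff.1 h4) h2))]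
  unfold psum
  rw [Finset.sum_congr rfl fun i _ => h i, Finset.sum_add_distrib,
    Finset.sum_ite_eq' Finset.univ k g, if_pos (Finset.mem_univ _)]

theorem psum_last {M : ℕ} (g : Fin M → ℕ) : psum g M = ∑ i, g i := by
  unfold psum
  exact Finset.sum_congr rfl fun i _ => if_pos i.isLt

theorem sm_ini {M : ℕ} (a : ℕ) (g : Fin M → ℕ) (j : Fin (M + 1)) :
    sm (ini a g j) = (a : ℤ) + psum g j := by
  have h : psum g (j : ℕ) / 2 ≤ psum g (j : ℕ) := Nat.div_le_self _ _
  unfold sm ini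
  dsimp only
  rw [Nat.cast_sub h]
  ring

end INI_

theorem ini_proof : Stmt_INI := by
  intro M a top g hg hs
  have h0 : psum g ((0 : Fin (M + 1)) : ℕ) = 0 := by
    rw [Fin.val_zero]
    exact INI_.psum_zero g
  have hstep : ∀ k : Fin M, psum g ((k.succ : Fin (M + 1)) : ℕ) =
      psum g ((k.castSucc : Fin (M + 1)) : ℕ) + g k := by
    intro k
    rw [Fin.val_succ, Fin.val_castSucc]
    exact INI_.psum_succ g k
  refine ⟨⟨?_, ?_, ?_, ?_, ?_⟩, ?_, ?_, INI_.sm_ini a g⟩
  · unfold ini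
    dsimp only
    rw [h0]
    rfl
  · intro k
    unfold ini
    dsimp only
    rw [h0]
    have : (0 : ℤ) ≤ ((psum g (k : ℕ) / 2 : ℕ) : ℤ) := Int.natCast_nonneg _
    simpa using this
  · intro k
    unfold ini
    dsimp only
    exact Int.natCast_nonneg _
  · intro k
    rw [INI_.sm_ini, INI_.sm_ini, hstep k]
    have := hg k
    push_cast
    have h2 : (2 : ℤ) ≤ (g k : ℤ) := by exact_mod_cast this
    linarith
  · rw [INI_.sm_ini, Fin.val_last, INI_.psum_last]
    exact_mod_cast hs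
  · funext k
    unfold gap
    rw [INI_.sm_ini, INI_.sm_ini, hstep k]
    have : (a : ℤ) + ((psum g ((k.castSucc : Fin (M + 1)) : ℕ) + g k : ℕ) : ℤ) -
        ((a : ℤ) + (psum g ((k.castSucc : Fin (M + 1)) : ℕ) : ℤ)) = (g k : ℤ) := by
      push_cast
      ring
    rw [this, Int.toNat_natCast]
  · unfold ini
    dsimp only
    rw [h0]
    simp

end Pool.Agent.K3L
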