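import Pool.Agent.K3L.Stmts

/-!
# MP_79568f_pr, lower bound: the invariant is preserved
-/

set_option autoImplicit false

namespace Pool.Agent.K3L

namespace INV_

/-- the sums only decrease -/
theorem sm_le (P : Par) (N : ℕ) {M : ℕ} (e : St M) (x : ℝ × ℝ) (i : Fin (M + 1)) :
    sm (step P N e x i) ≤ sm (e i) := by
  refine Fin.cases ?_ ?_ i
  · rw [step_zero]
    unfold sm
    have : (0 : ℤ) ≤ (mark P N x : ℤ) := Int.natCast_nonneg _
    simp only
    omega
  · intro k
    rw [step_succ]
    split_ifs with h
    · exact le_of_lt h.2.2.1
    · exact le_rfl

end INV_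

theorem inv_proof : Stmt_INV := by
  intro P N M top e x ⟨h1, h2, h3, h4, h5⟩
  refine ⟨?_, ?_, ?_, ?_, ?_⟩
  · rw [step_zero]
    exact h1
  · intro k
    have hm : (0 : ℤ) ≤ (mark P N x : ℤ) := Int.natCast_nonneg _
    refine Fin.cases ?_ ?_ k
    · exact le_rfl
    · intro j
      rw [step_zero, step_succ]
      split_ifs with h
      · have := h.1
        have := h2 j.castSucc
        simp only
        omega
      · have := h2 j.succ
        simp only
        omega
  · intro k
    refine Fin.cases ?_ ?_ k
    · rw [step_zero]
      simp only
      omega
    · intro j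
      rw [step_succ]
      split_ifs with h
      · have := h.2.1
        have := h3 j.castSucc
        omega
      · exact h3 j.succ
  · intro k
    have i1 := INV_.sm_le P N e x k.castSucc
    rw [step_succ]
    split_ifs with h
    · have a := h.1
      have b := h.2.1
      have c : sm (e k.castSucc) + 2 ≤ sm (cell N x) := by
        unfold sm
        omega
      omega
    · have := h4 k
      omega
  · exact (INV_.sm_le P N e x _).trans h5

end Pool.Agent.K3L
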