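import Pool.Agent.K3L.Stmts

/-!
# K3L, module ITR: iteration of the one step inequality
-/

set_option autoImplicit false

namespace Pool.Agent.K3L

open MeasureTheory Filter Topology
open scoped ENNReal

namespace ITR_

lemma meas_hit (P : Par) (N : ℕ) {M : ℕ} (e : St M) (k : Fin M) :
    MeasurableSet {x : ℝ × ℝ | Hit P N e k x} := by
  unfold Hit
  have hc := measurable_cell N
  have h1 : MeasurableSet {x : ℝ × ℝ | (e k.castSucc).1 < (cell N x).1} :=
    hc (MeasurableSet.of_discrete (s := {p : ℤ × ℤ | (e k.castSucc).1 < p.1}))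
  have h2 : MeasurableSet {x : ℝ × ℝ | (e k.castSucc).2 < (cell N x).2} :=
    hc (MeasurableSet.of_discrete (s := {p : ℤ × ℤ | (e k.castSucc).2 < p.2}))
  have h3 : MeasurableSet {x : ℝ × ℝ | sm (cell N x) < sm (e k.succ)} :=
    hc (MeasurableSet.of_discrete (s := {p : ℤ × ℤ | sm p < sm (e k.succ)}))
  have h4 : MeasurableSet {x : ℝ × ℝ | Int.fract ((N : ℝ) * x.1) <
      alpha P (gap e k) (sm (cell N x) - sm (e k.castSucc)).toNat} := by
    apply measurableSet_lt
    · exact (measurable_fst.const_mul (N : ℝ)).fract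
    · exact (Measurable.of_discrete
        (f := fun p : ℤ × ℤ => alpha P (gap e k) (sm p - sm (e k.castSucc)).toNat)).comp hc
  exact h1.inter (h2.inter (h3.inter h4))

lemma meas_mark (P : Par) (N : ℕ) : Measurable (mark P N) := by
  classical
  unfold mark
  have hx1 : Measurable (fun x : ℝ × ℝ => (N : ℝ) * x.1) := measurable_fst.const_mul _
  have hx2 : Measurable (fun x : ℝ × ℝ => (N : ℝ) * x.2) := measurable_snd.const_mul _
  apply Measurable.ite
  · apply MeasurableSet.inter
    · exact (hx2.floor) (measurableSet_singleton (0 : ℤ))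
    · exact measurableSet_lt hx1 measurable_const
  · have he : (fun x : ℝ × ℝ => ((Finset.range (P.R + 1)).filter
        (fun m => cumG P m ≤ (N : ℝ) * x.1)).card) =
        fun x : ℝ × ℝ => ∑ m ∈ Finset.range (P.R + 1),
          if cumG P m ≤ (N : ℝ) * x.1 then 1 else 0 := by
      funext x
      rw [Finset.card_filter]
    rw [he]
    apply Finset.measurable_sum
    intro m _
    exact Measurable.ite (measurableSet_le measurable_const hx1) measurable_const measurable_const
  · exact measurable_const

lemma meas_step (P : Par) (N : ℕ) {M : ℕ} (e : St M) : Measurable (step P N e) := by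
  classical
  rw [measurable_pi_iff]
  intro j
  refine Fin.cases ?_ (fun k => ?_) j
  · have : (fun x : ℝ × ℝ => step P N e x 0) =
        fun x => ((e 0).1 - (mark P N x : ℤ), (e 0).2) := by
      funext x; rfl
    rw [this]
    exact (Measurable.of_discrete (f := fun m : ℕ => ((e 0).1 - (m : ℤ), (e 0).2))).comp
      (meas_mark P N)
  · have : (fun x : ℝ × ℝ => step P N e x k.succ) =
        fun x => if Hit P N e k x then cell N x else e k.succ := by
      funext x; exact step_succ P N e x k
    rw [this]
    exact Measurable.ite (meas_hit P N e k) (measurable_cell N) measurable_const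

lemma meas_traj (P : Par) (N : ℕ) {M : ℕ} : ∀ (n : ℕ) (e : St M),
    Measurable (fun x : Fin n → ℝ × ℝ => traj P N n x e)
  | 0, e => by
      have : (fun x : Fin 0 → ℝ × ℝ => traj P N 0 x e) = fun _ => e := by
        funext x; rfl
      rw [this]; exact measurable_const
  | n + 1, e => by
      have ih := meas_traj P N (M := M) n
      have hj : Measurable (fun p : (Fin n → ℝ × ℝ) × St M => traj P N n p.1 p.2) :=
        measurable_from_prod_countable_left ih
      have hm : Measurable (fun x : Fin (n + 1) → ℝ × ℝ =>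
          ((fun i : Fin n => x i.succ), step P N e (x 0))) := by
        apply Measurable.prodMk
        · exact measurable_pi_lambda _ (fun i => measurable_pi_apply _)
        · exact (meas_step P N e).comp (measurable_pi_apply 0)
      exact hj.comp hm

/-- The event. -/
def Ev (P : Par) (N M n : ℕ) (e : St M) (B : Set (Fin M → ℕ)) : Set (Fin n → ℝ × ℝ) :=
  {x | 0 ≤ (traj P N n x e 0).1 ∧ gap (traj P N n x e) ∈ B}

lemma meas_Ev (P : Par) (N M n : ℕ) (e : St M) (B : Set (Fin M → ℕ)) :
    MeasurableSet (Ev P N M n e B) :=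
  (meas_traj P N n e) (MeasurableSet.of_discrete (s := {s : St M | 0 ≤ (s 0).1 ∧ gap s ∈ B}))

lemma fubini (P : Par) (N M n : ℕ) (e : St M) (B : Set (Fin M → ℕ)) :
    P2 (n + 1) (Ev P N M (n + 1) e B) =
      ∫⁻ a, P2 n (Ev P N M n (step P N e a) B) ∂sq := by
  have hmp := measurePreserving_piFinSuccAbove (fun _ : Fin (n + 1) => sq) 0
  have hS := meas_Ev P N M (n + 1) e B
  let E := MeasurableEquiv.piFinSuccAbove (fun _ : Fin (n + 1) => ℝ × ℝ) 0
  have h1 : P2 (n + 1) (Ev P N M (n + 1) e B) =
      (sq.prod (P2 n)) (E.symm ⁻¹' (Ev P N M (n + 1) e B)) := by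
    have h2 := (hmp.symm E).measure_preimage hS.nullMeasurableSet
    exact h2.symm
  rw [h1, Measure.prod_apply (E.symm.measurable hS)]
  apply lintegral_congr
  intro a
  congr 1
  
lemma sum_gap_le (hTRJ : Stmt_TRJ) (M top : ℕ) (e : St M) (h : Inv top e) (h0 : 0 ≤ (e 0).1) :
    ∑ i, gap e i ≤ top := by
  have h1 := hTRJ.2 M top e h
  have h2 := h.2.2.2.2
  have h3 : (∑ i, (gap e i : ℤ)) ≤ (top : ℤ) := by linarith
  exact_mod_cast h3

end ITR_

open ITR_ in
theorem itr_proof (hINV : Stmt_INV) (hKER : Stmt_KER) (hTRJ : Stmt_TRJ) : Stmt_ITR := by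
  classical
  intro P N M top n
  induction n with
  | zero =>
    intro e B hN htop hG hI
    by_cases h : 0 ≤ (e 0).1 ∧ gap e ∈ B
    · have h1 : ind top B (gap e) = 1 := by
        unfold ind
        rw [if_pos ⟨sum_gap_le hTRJ M top e hI h.1, h.2⟩]
      rw [Function.iterate_zero, id, h1]
      exact prob_le_one
    · have h1 : {x : Fin 0 → ℝ × ℝ | 0 ≤ (traj P N 0 x e 0).1 ∧ gap (traj P N 0 x e) ∈ B} = ∅ := by
        ext x
        simp only [Set.mem_setOf_eq, Set.mem_empty_iff_false, iff_false]
        exact h
      rw [h1, measure_empty]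
      exact zero_le
  | succ n ih =>
    intro e B hN htop hG hI
    by_cases h0 : 0 ≤ (e 0).1
    · have hF := fubini P N M n e B
      unfold Ev at hF
      rw [hF, Function.iterate_succ_apply']
      unfold kapT
      rw [if_pos (sum_gap_le hTRJ M top e hI h0)]
      refine le_trans ?_ (hKER P N M top e _ hN htop hG hI h0)
      apply lintegral_mono
      intro a
      exact ih (step P N e a) B hN htop hG (hINV P N M top e a hI)
    · have h1 : {x : Fin (n + 1) → ℝ × ℝ | 0 ≤ (traj P N (n + 1) x e 0).1 ∧
          gap (traj P N (n + 1) x e) ∈ B} = ∅ := by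
        ext x
        simp only [Set.mem_setOf_eq, Set.mem_empty_iff_false, iff_false, not_and]
        intro h2
        exfalso
        have h3 := (hTRJ.1 P N M top (n + 1) e x hI).2
        have h4 : (0 : ℤ) ≤ ∑ i, (mark P N (x i) : ℤ) := Finset.sum_nonneg (fun i _ => by positivity)
        omega
      rw [h1, measure_empty]
      exact zero_le

end Pool.Agent.K3L
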