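import Pool.Agent.K3L.Stmts

/-!
# K3L, module ITS: iterated form of the stationarity
-/

set_option autoImplicit false

namespace Pool.Agent.K3L

open MeasureTheory
open scoped ENNReal

namespace ITS_

lemma iter (hS : Stmt_STA) (P : Par) (N M top : ℕ)
    (htot : ∀ g : Fin M → ℕ, ∑ i, g i ≤ top → tot P N g ≤ 1) (n : ℕ) :
    ∀ v : (Fin M → ℕ) → ℝ≥0∞, (∀ g, top < ∑ i, g i → v g = 0) →
      ∑' g, wt P g * (kapT P N top)^[n] v g ≤ ∑' g, wt P g * v g := by
  induction n with
  | zero => intro v _; exact le_refl _
  | succ n ih =>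
    intro v hv
    rw [Function.iterate_succ_apply]
    refine (ih (kapT P N top v) ?_).trans (hS P N M top v htot hv)
    intro g hg
    unfold kapT
    rw [if_neg (not_le.mpr hg)]

end ITS_

theorem its_proof (hS : Stmt_STA) : Stmt_ITS := by
  intro P N M top n B htot
  refine (ITS_.iter hS P N M top htot n (ind top B) ?_).trans ?_
  · intro g hg
    unfold ind
    rw [if_neg]
    rintro ⟨h, _⟩
    exact absurd h (not_le.mpr hg)
  · refine ENNReal.tsum_le_tsum fun g => ?_
    refine mul_le_mul_right ?_ _
    unfold ind ib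
    split_ifs with h1 h2
    · exact le_refl _
    · exact absurd h1.2 h2
    · exact zero_le
    · exact le_refl _

end Pool.Agent.K3L
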