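import Pool.Agent.K3L.Stmts

/-!
# MP_79568f_pr, module KER: the one step inequality
-/

set_option autoImplicit false

namespace Pool.Agent.K3L

open MeasureTheory Filter Topology
open scoped ENNReal

namespace KER_

lemma gap_mv {M : ℕ} (e e' : St M) (k : Fin (M + 1)) (m : ℕ)
    (h : ∀ j, sm (e' j) = sm (e j) - (if j = k then (m : ℤ) else 0))
    (hinv : ∀ i : Fin M, sm (e i.castSucc) ≤ sm (e i.succ)) :
    gap e' = mv k m (gap e) := by
  funext i
  have h1 := h i.succ
  have h2 := h i.castSucc
  have h3 := hinv i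
  show (sm (e' i.succ) - sm (e' i.castSucc)).toNat =
    (sm (e i.succ) - sm (e i.castSucc)).toNat + (if i.castSucc = k then m else 0) -
      (if i.succ = k then m else 0)
  rw [h1, h2]
  generalize sm (e i.succ) = a at *
  generalize sm (e i.castSucc) = b at *
  by_cases ha : i.castSucc = k
  · by_cases hb : i.succ = k
    · rw [if_pos ha, if_pos hb, if_pos ha, if_pos hb]
      omega
    · rw [if_pos ha, if_neg hb, if_pos ha, if_neg hb]
      omega
  · by_cases hb : i.succ = k
    · rw [if_neg ha, if_pos hb, if_neg ha, if_pos hb]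
      omega
    · rw [if_neg ha, if_neg hb, if_neg ha, if_neg hb]
      omega

/-- The pieces. -/
def E (P : Par) (N : ℕ) {M : ℕ} (e : St M) (m : ℕ) : Fin (M + 1) → Set (ℝ × ℝ) :=
  Fin.cases {x | 1 ≤ m ∧ mark P N x = m}
    (fun k => {x | 1 ≤ m ∧ (Hit P N e k x ∧ sm (cell N x) + (m : ℤ) = sm (e k.succ))})

lemma E_zero (P : Par) (N : ℕ) {M : ℕ} (e : St M) (m : ℕ) :
    E P N e m 0 = {x | 1 ≤ m ∧ mark P N x = m} := rfl

lemma E_succ (P : Par) (N : ℕ) {M : ℕ} (e : St M) (m : ℕ) (k : Fin M) :
    E P N e m k.succ =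
      {x | 1 ≤ m ∧ (Hit P N e k x ∧ sm (cell N x) + (m : ℤ) = sm (e k.succ))} := rfl

lemma floor_of_mark {P : Par} {N : ℕ} {x : ℝ × ℝ} (h : 1 ≤ mark P N x) :
    (cell N x).2 = 0 := by
  classical
  unfold mark at h
  split_ifs at h with hc
  · exact hc.1
  · omega

lemma not_hit_of_mark {P : Par} {N M top : ℕ} {e : St M} {k : Fin M} {x : ℝ × ℝ}
    (hI : Inv top e) (h : 1 ≤ mark P N x) : ¬ Hit P N e k x := by
  intro hh
  have h1 := floor_of_mark h
  have h2 := hh.2.1
  have h3 := hI.2.2.1 k.castSucc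
  omega

lemma sm_mono {M top : ℕ} {e : St M} (hI : Inv top e) {a b : Fin (M + 1)} (hab : a ≤ b) :
    sm (e a) ≤ sm (e b) := by
  have hm : Monotone (fun j : Fin (M + 1) => sm (e j)) := by
    rw [Fin.monotone_iff_le_succ]
    intro i
    have := hI.2.2.2.1 i
    show sm (e i.castSucc) ≤ sm (e i.succ)
    omega
  exact hm hab

lemma hit_low {P : Par} {N M : ℕ} {e : St M} {k : Fin M} {x : ℝ × ℝ}
    (h : Hit P N e k x) : sm (e k.castSucc) < sm (cell N x) := by
  have h1 := h.1
  have h2 := h.2.1
  unfold sm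
  omega

lemma hit_unique {P : Par} {N M top : ℕ} {e : St M} {k l : Fin M} {x : ℝ × ℝ}
    (hI : Inv top e) (hk : Hit P N e k x) (hl : Hit P N e l x) : k = l := by
  have key : ∀ a b : Fin M, Hit P N e a x → Hit P N e b x → ¬ a < b := by
    intro a b ha hb hab
    have h1 := hit_low hb
    have h2 := ha.2.2.1
    have h3 : a.succ ≤ b.castSucc := by
      rw [Fin.le_def]
      have : (a : ℕ) < (b : ℕ) := hab
      simp only [Fin.val_succ, Fin.val_castSucc]
      omega
    have h4 := sm_mono hI h3
    omega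
  rcases lt_trichotomy k l with h | h | h
  · exact absurd h (key k l hk hl)
  · exact h
  · exact absurd h (key l k hl hk)

lemma step_of_mark {P : Par} {N M top : ℕ} {e : St M} {x : ℝ × ℝ} (hI : Inv top e)
    (h : 1 ≤ mark P N x) :
    gap (step P N e x) = mv 0 (mark P N x) (gap e) := by
  classical
  apply gap_mv
  · intro j
    refine Fin.cases ?_ (fun k => ?_) j
    · rw [step_zero, if_pos rfl]
      unfold sm
      simp only
      ring
    · rw [step_succ, if_neg (not_hit_of_mark hI h), if_neg (Fin.succ_ne_zero k)]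
      ring
  · intro i
    have := hI.2.2.2.1 i
    omega

lemma mark_zero_of_hit {P : Par} {N M top : ℕ} {e : St M} {k : Fin M} {x : ℝ × ℝ}
    (hI : Inv top e) (h : Hit P N e k x) : mark P N x = 0 := by
  by_contra hc
  exact not_hit_of_mark hI (Nat.one_le_iff_ne_zero.2 hc) h

lemma step_of_hit {P : Par} {N M top : ℕ} {e : St M} {k : Fin M} {x : ℝ × ℝ} {m : ℕ}
    (hI : Inv top e) (h : Hit P N e k x) (hm : sm (cell N x) + (m : ℤ) = sm (e k.succ)) :
    gap (step P N e x) = mv k.succ m (gap e) := by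
  classical
  apply gap_mv
  · intro j
    refine Fin.cases ?_ (fun l => ?_) j
    · rw [step_zero, if_neg (Fin.succ_ne_zero k).symm, mark_zero_of_hit hI h]
      unfold sm
      simp
    · rw [step_succ]
      by_cases hl : Hit P N e l x
      · have hkl := hit_unique hI h hl
        subst hkl
        rw [if_pos hl, if_pos rfl]
        omega
      · have hne : l.succ ≠ k.succ := by
          intro hc
          exact hl (Fin.succ_inj.1 hc ▸ h)
        rw [if_neg hl, if_neg hne]
        ring
  · intro i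
    have := hI.2.2.2.1 i
    omega

lemma step_of_rest {P : Par} {N M : ℕ} {e : St M} {x : ℝ × ℝ}
    (h0 : mark P N x = 0) (h1 : ∀ k, ¬ Hit P N e k x) : step P N e x = e := by
  classical
  funext j
  refine Fin.cases ?_ (fun l => ?_) j
  · rw [step_zero, h0]
    simp
  · rw [step_succ, if_neg (h1 l)]

lemma hit_m {P : Par} {N M : ℕ} {e : St M} {k : Fin M} {x : ℝ × ℝ}
    (h : Hit P N e k x) :
    ∃ m : ℕ, 1 ≤ m ∧ m ≤ P.R ∧ sm (cell N x) + (m : ℤ) = sm (e k.succ) := by
  have h1 := hit_low h
  have h2 := h.2.2.1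
  refine ⟨(sm (e k.succ) - sm (cell N x)).toNat, by omega, ?_, by omega⟩
  by_contra hc
  have h3 := h.2.2.2
  have h4 : gap e k - (sm (cell N x) - sm (e k.castSucc)).toNat =
      (sm (e k.succ) - sm (cell N x)).toNat := by
    unfold gap
    omega
  have h5 : alpha P (gap e k) (sm (cell N x) - sm (e k.castSucc)).toNat = 0 := by
    unfold alpha
    rw [h4, P.G_big _ (by omega)]
    simp
  rw [h5] at h3
  exact absurd (Int.fract_nonneg _) (not_le.2 h3)

lemma disj {P : Par} {N M top : ℕ} {e : St M} (hI : Inv top e) {k l : Fin (M + 1)} {m m' : ℕ}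
    {x : ℝ × ℝ} (h1 : x ∈ E P N e m k) (h2 : x ∈ E P N e m' l) : k = l ∧ m = m' := by
  revert h1 h2
  refine Fin.cases ?_ (fun k' => ?_) k
  · refine Fin.cases ?_ (fun l' => ?_) l
    · intro h1 h2
      rw [E_zero] at h1 h2
      exact ⟨rfl, h1.2.symm.trans h2.2⟩
    · intro h1 h2
      rw [E_zero] at h1
      rw [E_succ] at h2
      exact absurd h2.2.1 (not_hit_of_mark hI (by rw [h1.2]; exact h1.1))
  · refine Fin.cases ?_ (fun l' => ?_) l
    · intro h1 h2
      rw [E_zero] at h2
      rw [E_succ] at h1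
      exact absurd h1.2.1 (not_hit_of_mark hI (by rw [h2.2]; exact h2.1))
    · intro h1 h2
      rw [E_succ] at h1 h2
      have hkl := hit_unique hI h1.2.1 h2.2.1
      subst hkl
      refine ⟨rfl, ?_⟩
      have := h1.2.2
      have := h2.2.2
      omega

lemma meas_E (hA : Stmt_MRK) (hB : Stmt_HIT) (P : Par) (N : ℕ) {M : ℕ} (e : St M) (m : ℕ)
    (k : Fin (M + 1)) : MeasurableSet (E P N e m k) := by
  refine Fin.cases ?_ (fun k' => ?_) k
  · rw [E_zero]
    by_cases hm : 1 ≤ m
    · have : {x : ℝ × ℝ | 1 ≤ m ∧ mark P N x = m} = mark P N ⁻¹' {m} := by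
        ext x
        simp [hm]
      rw [this]
      exact (hA.1 P N) (measurableSet_singleton m)
    · have : {x : ℝ × ℝ | 1 ≤ m ∧ mark P N x = m} = ∅ := by
        ext x
        simp [hm]
      rw [this]
      exact MeasurableSet.empty
  · rw [E_succ]
    by_cases hm : 1 ≤ m
    · have : {x : ℝ × ℝ | 1 ≤ m ∧ (Hit P N e k' x ∧ sm (cell N x) + (m : ℤ) = sm (e k'.succ))} =
          {x | Hit P N e k' x} ∩ (fun x => sm (cell N x)) ⁻¹' {sm (e k'.succ) - (m : ℤ)} := by
        ext x
        simp only [Set.mem_ofPred_eq, Set.mem_inter_iff, Set.mem_preimage, Set.mem_singleton_iff]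
        constructor
        · rintro ⟨_, h1, h2⟩
          exact ⟨h1, by omega⟩
        · rintro ⟨h1, h2⟩
          exact ⟨hm, h1, by omega⟩
      rw [this]
      refine (hB.1 P N M e k').inter ?_
      have hmeas : Measurable (fun x : ℝ × ℝ => sm (cell N x)) :=
        (Measurable.of_discrete (f := sm)).comp (measurable_cell N)
      exact hmeas (measurableSet_singleton _)
    · have : {x : ℝ × ℝ | 1 ≤ m ∧ (Hit P N e k' x ∧ sm (cell N x) + (m : ℤ) =
          sm (e k'.succ))} = ∅ := by
        ext x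
        simp [hm]
      rw [this]
      exact MeasurableSet.empty

lemma sq_E (hA : Stmt_MRK) (hB : Stmt_HIT) (P : Par) (N M top : ℕ) (e : St M) (m : ℕ)
    (hN : 1 ≤ N) (ht : top ≤ N) (hc : cumG P P.R ≤ (N : ℝ)) (hI : Inv top e)
    (h0 : 0 ≤ (e 0).1) (k : Fin (M + 1)) :
    sq (E P N e m k) = ENNReal.ofReal (rate P k m (gap e) / (N : ℝ) ^ 2) := by
  refine Fin.cases ?_ (fun k' => ?_) k
  · rw [E_zero]
    by_cases hm : 1 ≤ m
    · have : {x : ℝ × ℝ | 1 ≤ m ∧ mark P N x = m} = {x | mark P N x = m} := by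
        ext x
        simp [hm]
      rw [this, hA.2.2 P N m hN hc hm, rate_zero]
    · have hm0 : m = 0 := by omega
      have : {x : ℝ × ℝ | 1 ≤ m ∧ mark P N x = m} = ∅ := by
        ext x
        simp [hm]
      rw [this, rate_zero, hm0, P.G_zero]
      simp
  · rw [E_succ]
    by_cases hm : 1 ≤ m
    · have : {x : ℝ × ℝ | 1 ≤ m ∧ (Hit P N e k' x ∧ sm (cell N x) + (m : ℤ) = sm (e k'.succ))} =
          {x | Hit P N e k' x ∧ sm (cell N x) + (m : ℤ) = sm (e k'.succ)} := by
        ext x
        simp [hm]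
      rw [this, hB.2 P N M top m e k' hN ht hI h0 hm]
    · have hm0 : m = 0 := by omega
      have : {x : ℝ × ℝ | 1 ≤ m ∧ (Hit P N e k' x ∧ sm (cell N x) + (m : ℤ) =
          sm (e k'.succ))} = ∅ := by
        ext x
        simp [hm]
      rw [this, rate_succ, hm0, P.G_zero]
      simp

end KER_

open KER_ in
/-- The one step inequality. -/
theorem ker_proof (hA : Stmt_MRK) (hB : Stmt_HIT) : Stmt_KER := by
  classical
  intro P N M top e v hN ht hc hI h0
  set I : Finset (Fin (M + 1) × ℕ) := Finset.univ ×ˢ Finset.range (P.R + 1) with hIdef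
  have hmeas : ∀ p : Fin (M + 1) × ℕ, MeasurableSet (E P N e p.2 p.1) :=
    fun p => meas_E hA hB P N e p.2 p.1
  set U : Set (ℝ × ℝ) := ⋃ p ∈ I, E P N e p.2 p.1 with hU
  have hUm : MeasurableSet U := Finset.measurableSet_biUnion I (fun p _ => hmeas p)
  have hUs : sq U = tot P N (gap e) := by
    rw [hU, measure_biUnion_finset ?_ (fun p _ => hmeas p)]
    · rw [hIdef, Finset.sum_product]
      unfold tot
      refine Finset.sum_congr rfl (fun k _ => Finset.sum_congr rfl (fun m _ => ?_))
      exact sq_E hA hB P N M top e m hN ht hc hI h0 k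
    · intro p _ q _ hpq
      refine Set.disjoint_left.2 (fun x hx hy => hpq ?_)
      obtain ⟨h1, h2⟩ := disj hI hx hy
      exact Prod.ext h1 h2
  have hpt : ∀ x : ℝ × ℝ, v (gap (step P N e x)) ≤
      (∑ p ∈ I, (E P N e p.2 p.1).indicator (fun _ => v (mv p.1 p.2 (gap e))) x) +
        (Uᶜ).indicator (fun _ => v (gap e)) x := by
    intro x
    by_cases hx : x ∈ U
    · have hx' := hx
      rw [hU] at hx'
      simp only [Set.mem_iUnion, exists_prop] at hx'
      obtain ⟨p, hp, hxp⟩ := hx'
      have h1 : gap (step P N e x) = mv p.1 p.2 (gap e) := by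
        obtain ⟨k, m⟩ := p
        revert hxp
        refine Fin.cases ?_ (fun k' => ?_) k
        · intro hxp
          simp only [E_zero] at hxp
          have := step_of_mark (x := x) (P := P) (N := N) hI (by rw [hxp.2]; exact hxp.1)
          rw [hxp.2] at this
          exact this
        · intro hxp
          simp only [E_succ] at hxp
          exact step_of_hit hI hxp.2.1 hxp.2.2
      rw [h1]
      refine le_trans ?_ le_self_add
      refine le_trans ?_ (Finset.single_le_sum (f := fun p : Fin (M + 1) × ℕ =>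
        (E P N e p.2 p.1).indicator (fun _ => v (mv p.1 p.2 (gap e))) x)
        (fun _ _ => zero_le) hp)
      rw [Set.indicator_of_mem hxp]
    · have hmk : mark P N x = 0 := by
        by_contra hne
        apply hx
        rw [hU]
        simp only [Set.mem_iUnion, exists_prop]
        refine ⟨(0, mark P N x), ?_, ?_⟩
        · rw [hIdef]
          simp only [Finset.mem_product, Finset.mem_univ, true_and, Finset.mem_range]
          have := hA.2.1 P N x
          omega
        · simp only [E_zero]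
          exact ⟨Nat.one_le_iff_ne_zero.2 hne, rfl⟩
      have hnh : ∀ k, ¬ Hit P N e k x := by
        intro k hk
        apply hx
        obtain ⟨m, hm1, hmR, hm⟩ := hit_m hk
        rw [hU]
        simp only [Set.mem_iUnion, exists_prop]
        refine ⟨(k.succ, m), ?_, ?_⟩
        · rw [hIdef]
          simp only [Finset.mem_product, Finset.mem_univ, true_and, Finset.mem_range]
          omega
        · simp only [E_succ]
          exact ⟨hm1, hk, hm⟩
      rw [step_of_rest hmk hnh, Set.indicator_of_mem (s := Uᶜ) hx]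
      exact le_add_self
  calc ∫⁻ x, v (gap (step P N e x)) ∂sq
      ≤ ∫⁻ x, ((∑ p ∈ I, (E P N e p.2 p.1).indicator (fun _ => v (mv p.1 p.2 (gap e))) x) +
        (Uᶜ).indicator (fun _ => v (gap e)) x) ∂sq := lintegral_mono hpt
    _ = (∑ p ∈ I, ∫⁻ x, (E P N e p.2 p.1).indicator (fun _ => v (mv p.1 p.2 (gap e))) x ∂sq) +
        ∫⁻ x, (Uᶜ).indicator (fun _ => v (gap e)) x ∂sq := by
      rw [lintegral_add_right _ (measurable_const.indicator hUm.compl),
        lintegral_finsetSum _ (fun p _ => measurable_const.indicator (hmeas p))]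
    _ = (∑ p ∈ I, v (mv p.1 p.2 (gap e)) * sq (E P N e p.2 p.1)) + v (gap e) * sq Uᶜ := by
      congr 1
      · refine Finset.sum_congr rfl (fun p _ => ?_)
        rw [lintegral_indicator_const (hmeas p)]
      · rw [lintegral_indicator_const hUm.compl]
    _ = kap P N v (gap e) := by
      rw [prob_compl_eq_one_sub hUm, hUs]
      unfold kap
      congr 1
      · rw [hIdef, Finset.sum_product]
        refine Finset.sum_congr rfl (fun k _ => Finset.sum_congr rfl (fun m _ => ?_))
        simp only
        rw [sq_E hA hB P N M top e m hN ht hc hI h0 k, mul_comm]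
      · rw [mul_comm]
    _ ≤ kap P N v (gap e) := le_refl _

end Pool.Agent.K3L
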