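import Pool.Agent.K3L.Stmts

set_option autoImplicit false

namespace Pool.Agent.K3L

open MeasureTheory ProbabilityTheory
open scoped ENNReal

namespace MCH_

noncomputable def X (P : Par) (N : ℕ) : ℝ × ℝ → ℝ := fun p => (mark P N p : ℝ)

lemma X_mem (h : Stmt_MRK) (P : Par) (N : ℕ) (p : ℝ × ℝ) : X P N p ∈ Set.Icc (0 : ℝ) P.R :=
  ⟨Nat.cast_nonneg _, by show ((mark P N p : ℕ) : ℝ) ≤ (P.R : ℝ); exact_mod_cast h.2.1 P N p⟩

lemma measurable_X (h : Stmt_MRK) (P : Par) (N : ℕ) : Measurable (X P N) :=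
  measurable_from_top.comp (h.1 P N)

lemma X_eq (h : Stmt_MRK) (P : Par) (N : ℕ) : X P N = fun p =>
    ∑ m ∈ Finset.range (P.R + 1), Set.indicator {x | mark P N x = m} (fun _ => (m : ℝ)) p := by
  funext p
  have hm := h.2.1 P N p
  rw [Finset.sum_eq_single (mark P N p)]
  · rw [Set.indicator_of_mem (by rfl)]
    rfl
  · intro m _ hne
    rw [Set.indicator_of_notMem]
    intro hc
    exact hne hc.symm
  · intro hc
    exact absurd (Finset.mem_range.2 (by omega)) hc

lemma integral_X (h : Stmt_MRK) (P : Par) (N : ℕ) (hN : 1 ≤ N) (hc : cumG P P.R ≤ (N : ℝ)) :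
    ∫ p, X P N p ∂sq = P.J / (N : ℝ) ^ 2 := by
  have hms : ∀ m : ℕ, MeasurableSet {x | mark P N x = m} := fun m =>
    h.1 P N (measurableSet_singleton m)
  rw [X_eq h]
  simp only []
  rw [integral_finsetSum _ (fun (m : ℕ) _ => (integrable_const (m : ℝ)).indicator (hms m)),
    P.J_eq, Finset.sum_div]
  refine Finset.sum_congr rfl fun m _ => ?_
  rw [integral_indicator_const _ (hms m), smul_eq_mul, Measure.real]
  rcases Nat.eq_zero_or_pos m with h0 | h0
  · subst h0
    simp
  · rw [h.2.2 P N m hN hc h0, ENNReal.toReal_ofReal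
      (div_nonneg (P.G_nonneg m) (by positivity))]
    ring

end MCH_

open MCH_ in
theorem mch_proof (h : Stmt_MRK) : Stmt_MCH := by
  intro P N n t hN hc ht
  have hX : MemLp (X P N) 2 sq :=
    memLp_of_bounded (ae_of_all _ (X_mem h P N)) (measurable_X h P N).aestronglyMeasurable 2
  have hXi : ∀ i : Fin n, MemLp (fun x : Fin n → ℝ × ℝ => X P N (x i)) 2 (P2 n) := fun i =>
    hX.comp_measurePreserving (measurePreserving_eval (fun _ => sq) i)
  have hS : MemLp (∑ i, fun x : Fin n → ℝ × ℝ => X P N (x i)) 2 (P2 n) :=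
    memLp_finsetSum' _ (fun i _ => hXi i)
  have hv1 : Var[X P N; sq] ≤ P.R * P.J / (N : ℝ) ^ 2 := by
    refine (variance_le_expectation_sq (measurable_X h P N).aestronglyMeasurable).trans ?_
    have h1 : ∫ p, (X P N p) ^ 2 ∂sq ≤ ∫ p, (P.R : ℝ) * X P N p ∂sq := by
      refine integral_mono_of_nonneg (ae_of_all _ fun p => sq_nonneg _)
        ((hX.integrable (by norm_num)).const_mul _) (ae_of_all _ fun p => ?_)
      have := X_mem h P N p
      show (X P N p) ^ 2 ≤ (P.R : ℝ) * X P N p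
      nlinarith [this.1, this.2]
    rw [integral_const_mul, integral_X h P N hN hc] at h1
    refine le_trans (le_of_eq ?_) (h1.trans (le_of_eq (by ring)))
    rfl
  have hv : Var[∑ i, fun x : Fin n → ℝ × ℝ => X P N (x i); P2 n] ≤
      n * (P.R * P.J / (N : ℝ) ^ 2) := by
    have := variance_sum_pi (μ := fun _ : Fin n => sq) (X := fun _ => X P N) (fun _ => hX)
    unfold P2
    rw [this, Finset.sum_const, Finset.card_univ, Fintype.card_fin, nsmul_eq_mul]
    exact mul_le_mul_of_nonneg_left hv1 (Nat.cast_nonneg n)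
  have hE : ∫ x, (∑ i, fun x : Fin n → ℝ × ℝ => X P N (x i)) x ∂(P2 n) =
      n * (P.J / (N : ℝ) ^ 2) := by
    simp only [Finset.sum_apply]
    rw [integral_finsetSum _ (fun i _ => (hXi i).integrable (by norm_num))]
    have : ∀ i : Fin n, ∫ x, X P N (x i) ∂(P2 n) = P.J / (N : ℝ) ^ 2 := by
      intro i
      rw [← integral_X h P N hN hc]
      exact integral_comp_eval (μ := fun _ : Fin n => sq)
        (measurable_X h P N).aestronglyMeasurable
    rw [Finset.sum_congr rfl (fun i _ => this i), Finset.sum_const, Finset.card_univ,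
      Fintype.card_fin, nsmul_eq_mul]
  have hC := meas_ge_le_variance_div_sq hS ht
  rw [hE] at hC
  have hset : {x : Fin n → ℝ × ℝ | t ≤ |(∑ i, (mark P N (x i) : ℝ)) -
      n * (P.J / (N : ℝ) ^ 2)|} =
      {x | t ≤ |(∑ i, fun x : Fin n → ℝ × ℝ => X P N (x i)) x -
        n * (P.J / (N : ℝ) ^ 2)|} := by
    ext x
    simp only [Finset.sum_apply, X]
  rw [hset]
  refine hC.trans (ENNReal.ofReal_le_ofReal ?_)
  exact div_le_div_of_nonneg_right hv (by positivity)

end Pool.Agent.K3L
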