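import Pool.Agent.K3L.Stmts

/-!
# MP_79568f_pr, module MRK: the law of the mark
-/

set_option autoImplicit false

namespace Pool.Agent.K3L

open MeasureTheory
open scoped ENNReal

namespace MRK_

theorem cumG_mono (P : Par) : Monotone (cumG P) := by
  refine monotone_nat_of_le_succ fun m => ?_
  unfold cumG
  rw [Finset.sum_range_succ _ (m + 1)]
  have := P.G_nonneg (m + 1)
  linarith

theorem cumG_nonneg (P : Par) (m : ℕ) : 0 ≤ cumG P m :=
  Finset.sum_nonneg fun i _ => P.G_nonneg i

theorem cumG_succ (P : Par) (m : ℕ) : cumG P (m + 1) = cumG P m + P.G (m + 1) := by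
  unfold cumG
  rw [Finset.sum_range_succ _ (m + 1)]

open Classical in
theorem card_iff (P : Par) (u : ℝ) (m : ℕ) (hm : m + 1 ≤ P.R) :
    ((Finset.range (P.R + 1)).filter (fun i => cumG P i ≤ u)).card = m + 1 ↔
      cumG P m ≤ u ∧ u < cumG P (m + 1) := by
  constructor
  · intro h
    set F := (Finset.range (P.R + 1)).filter (fun i => cumG P i ≤ u) with hF
    have hsub : F ⊆ Finset.range F.card := by
      intro i hi
      have hi2 := (Finset.mem_filter.1 hi)
      have hr : Finset.range (i + 1) ⊆ F := by
        intro j hj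
        have hj' : j ≤ i := by
          have := Finset.mem_range.1 hj
          omega
        refine Finset.mem_filter.2 ⟨?_, le_trans (cumG_mono P hj') hi2.2⟩
        have := Finset.mem_range.1 hi2.1
        exact Finset.mem_range.2 (by omega)
      have hc := Finset.card_le_card hr
      rw [Finset.card_range] at hc
      exact Finset.mem_range.2 (by omega)
    have heq : F = Finset.range F.card :=
      Finset.eq_of_subset_of_card_le hsub (by rw [Finset.card_range])
    rw [h] at heq
    have h1 : m ∈ F := by rw [heq]; exact Finset.mem_range.2 (by omega)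
    have h2 : m + 1 ∉ F := by
      rw [heq, Finset.mem_range]
      omega
    refine ⟨(Finset.mem_filter.1 h1).2, ?_⟩
    by_contra hc
    exact h2 (Finset.mem_filter.2 ⟨Finset.mem_range.2 (by omega), not_lt.1 hc⟩)
  · rintro ⟨h1, h2⟩
    have heq : (Finset.range (P.R + 1)).filter (fun i => cumG P i ≤ u) =
        Finset.range (m + 1) := by
      ext i
      rw [Finset.mem_filter, Finset.mem_range, Finset.mem_range]
      constructor
      · rintro ⟨_, h⟩
        by_contra hc
        have := cumG_mono P (not_lt.1 hc)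
        linarith
      · intro h
        exact ⟨by omega, le_trans (cumG_mono P (by omega)) h1⟩
    rw [heq, Finset.card_range]

theorem mark_le (P : Par) (N : ℕ) (x : ℝ × ℝ) : mark P N x ≤ P.R := by
  classical
  unfold mark
  split_ifs with h
  · have hsub : (Finset.range (P.R + 1)).filter (fun m => cumG P m ≤ (N : ℝ) * x.1) ⊆
        Finset.range P.R := by
      intro i hi
      have hi2 := Finset.mem_filter.1 hi
      have h3 := Finset.mem_range.1 hi2.1
      rcases Nat.lt_succ_iff_lt_or_eq.1 h3 with h4 | h4
      · exact Finset.mem_range.2 h4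
      · rw [h4] at hi2
        exact absurd h.2 (not_lt.2 hi2.2)
    have hc := Finset.card_le_card hsub
    rwa [Finset.card_range] at hc
  · exact Nat.zero_le _

theorem meas (P : Par) (N : ℕ) : Measurable (mark P N) := by
  classical
  unfold mark
  refine Measurable.ite ?_ ?_ measurable_const
  · refine MeasurableSet.inter ?_ ?_
    · have h : Measurable fun x : ℝ × ℝ => ⌊(N : ℝ) * x.2⌋ := by fun_prop
      exact h (measurableSet_singleton 0)
    · have h2 : MeasurableSet {x : ℝ × ℝ | (N : ℝ) * x.1 < cumG P P.R} :=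
        measurableSet_lt (by fun_prop) measurable_const
      exact h2
  · have h : (fun x : ℝ × ℝ => ((Finset.range (P.R + 1)).filter
        (fun m => cumG P m ≤ (N : ℝ) * x.1)).card) =
        fun x : ℝ × ℝ => ∑ m ∈ Finset.range (P.R + 1),
          (if cumG P m ≤ (N : ℝ) * x.1 then 1 else 0) := by
      funext x
      rw [Finset.card_filter]
    rw [h]
    refine Finset.measurable_fun_sum _ fun m _ => ?_
    have h2 : MeasurableSet {x : ℝ × ℝ | cumG P m ≤ (N : ℝ) * x.1} :=
      measurableSet_le measurable_const (by fun_prop)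
    exact Measurable.ite h2 measurable_const measurable_const

theorem set_eq (P : Par) (N m : ℕ) (hN : 1 ≤ N) (hm : m + 1 ≤ P.R) :
    {x | mark P N x = m + 1} = Set.Ico (cumG P m / N) (cumG P (m + 1) / N) ×ˢ
      Set.Ico 0 (1 / (N : ℝ)) := by
  classical
  have hN0 : (0 : ℝ) < N := by exact_mod_cast hN
  ext x
  simp only [Set.mem_ofPred_eq, Set.mem_prod, Set.mem_Ico]
  rw [div_le_iff₀ hN0, lt_div_iff₀ hN0, lt_div_iff₀ hN0, mul_comm x.1, mul_comm x.2]
  constructor
  · intro h
    unfold mark at h
    split_ifs at h with hc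
    · have h2 := (card_iff P _ m hm).1 h
      rw [Int.floor_eq_iff] at hc
      have h3 := hc.1.1
      have h4 := hc.1.2
      norm_num at h3 h4
      refine ⟨h2, ?_, h4⟩
      by_contra hneg
      have := mul_neg_of_pos_of_neg hN0 (not_le.1 hneg)
      linarith
  · rintro ⟨h1, h2, h3⟩
    unfold mark
    rw [if_pos, (card_iff P _ m hm).2 h1]
    refine ⟨?_, lt_of_lt_of_le h1.2 (cumG_mono P hm)⟩
    rw [Int.floor_eq_iff]
    norm_num
    exact ⟨by positivity, h3⟩

end MRK_

theorem mrk_proof : Stmt_MRK := by
  refine ⟨MRK_.meas, MRK_.mark_le, ?_⟩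
  intro P N m hN hG hm
  obtain ⟨k, rfl⟩ : ∃ k, m = k + 1 := ⟨m - 1, by omega⟩
  have hN0 : (0 : ℝ) < N := by exact_mod_cast hN
  have hN1 : (1 : ℝ) ≤ N := by exact_mod_cast hN
  by_cases hR : k + 1 ≤ P.R
  · rw [MRK_.set_eq P N k hN hR, sq_rect (div_nonneg (MRK_.cumG_nonneg P k) hN0.le) ?_ le_rfl ?_,
      ← ENNReal.ofReal_mul ?_]
    · refine congrArg ENNReal.ofReal ?_
      rw [MRK_.cumG_succ]
      field_simp
      ring
    · rw [MRK_.cumG_succ, ← sub_div, add_sub_cancel_left]
      exact div_nonneg (P.G_nonneg _) hN0.le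
    · rw [div_le_one hN0]
      exact le_trans (MRK_.cumG_mono P hR) hG
    · rw [div_le_one hN0]
      exact hN1
  · have he : {x | mark P N x = k + 1} = ∅ := by
      ext x
      simp only [Set.mem_ofPred_eq, Set.mem_empty_iff_false, iff_false]
      have := MRK_.mark_le P N x
      omega
    rw [he, measure_empty, P.G_big _ (by omega), zero_div, ENNReal.ofReal_zero]

end Pool.Agent.K3L
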