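import Pool.Agent.K3L.Stmts

/-!
# MSR: measurability of the lengths of longest chains
-/

set_option autoImplicit false

namespace Pool.Agent.K3L

open MeasureTheory Filter Topology
open scoped ENNReal

namespace MSR_

lemma meas_sup {α ι : Type*} [MeasurableSpace α] [Fintype ι] (p : α → ι → Prop) (c : ι → ℕ)
    [∀ x, DecidablePred (p x)] (hp : ∀ i, MeasurableSet {x | p x i}) :
    Measurable (fun x => (Finset.univ.filter (fun i => p x i)).sup c) := by
  apply measurable_of_Ici
  intro a
  rcases Nat.eq_zero_or_pos a with rfl | ha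
  · have : (fun x => (Finset.univ.filter (fun i => p x i)).sup c) ⁻¹' Set.Ici 0 = Set.univ :=
      Set.eq_univ_of_forall fun x => Nat.zero_le _
    rw [this]
    exact MeasurableSet.univ
  · have : (fun x => (Finset.univ.filter (fun i => p x i)).sup c) ⁻¹' Set.Ici a =
        ⋃ i : ι, {x | p x i ∧ a ≤ c i} := by
      ext x
      rw [Set.mem_preimage, Set.mem_Ici, Set.mem_iUnion]
      rw [Finset.le_sup_iff (show ⊥ < a from ha)]
      constructor
      · rintro ⟨i, hi, hai⟩
        exact ⟨i, (Finset.mem_filter.1 hi).2, hai⟩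
      · rintro ⟨i, hi, hai⟩
        exact ⟨i, Finset.mem_filter.2 ⟨Finset.mem_univ _, hi⟩, hai⟩
    rw [this]
    refine MeasurableSet.iUnion fun i => ?_
    by_cases h : a ≤ c i
    · have : {x | p x i ∧ a ≤ c i} = {x | p x i} := by
        ext x
        exact ⟨fun h' => h'.1, fun h' => ⟨h', h⟩⟩
      rw [this]
      exact hp i
    · have : {x | p x i ∧ a ≤ c i} = ∅ := by
        ext x
        exact ⟨fun h' => h h'.2, fun h' => absurd h' (Set.notMem_empty x)⟩
      rw [this]
      exact MeasurableSet.empty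

lemma meas_lt3 {n : ℕ} (i j : Fin n) :
    MeasurableSet {x : Fin n → Fin 3 → ℝ | Lt3 (x i) (x j)} := by
  unfold Lt3
  have : {x : Fin n → Fin 3 → ℝ | ∀ c, x i c < x j c} =
      ⋂ c : Fin 3, {x : Fin n → Fin 3 → ℝ | x i c < x j c} := by
    ext x
    simp
  rw [this]
  refine MeasurableSet.iInter fun c => ?_
  exact measurableSet_lt (by fun_prop) (by fun_prop)

end MSR_

theorem msr_proof : Stmt_MSR := by
  classical
  constructor
  · intro n
    unfold longest3
    apply MSR_.meas_sup
    intro S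
    have : {x : Fin n → Fin 3 → ℝ | IsChain3 x S} =
        ⋂ i : Fin n, ⋂ j : Fin n, {x | i ∈ S → j ∈ S → i ≠ j →
          Lt3 (x i) (x j) ∨ Lt3 (x j) (x i)} := by
      ext x
      simp only [IsChain3, Set.mem_iInter, Set.mem_ofPred_eq]
      exact ⟨fun h i j hi hj hij => h i hi j hj hij, fun h i hi j hj hij => h i j hi hj hij⟩
    rw [this]
    refine MeasurableSet.iInter fun i => MeasurableSet.iInter fun j => ?_
    by_cases h : i ∈ S ∧ j ∈ S ∧ i ≠ j
    · have : {x : Fin n → Fin 3 → ℝ | i ∈ S → j ∈ S → i ≠ j →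
          Lt3 (x i) (x j) ∨ Lt3 (x j) (x i)} =
          {x | Lt3 (x i) (x j)} ∪ {x | Lt3 (x j) (x i)} := by
        ext x
        exact ⟨fun h' => h' h.1 h.2.1 h.2.2, fun h' _ _ _ => h'⟩
      rw [this]
      exact (MSR_.meas_lt3 i j).union (MSR_.meas_lt3 j i)
    · have : {x : Fin n → Fin 3 → ℝ | i ∈ S → j ∈ S → i ≠ j →
          Lt3 (x i) (x j) ∨ Lt3 (x j) (x i)} = Set.univ := by
        refine Set.eq_univ_of_forall fun x hi hj hij => absurd ⟨hi, hj, hij⟩ h
      rw [this]
      exact MeasurableSet.univ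
  · intro n A hA
    unfold L2
    apply MSR_.meas_sup (fun (x : Fin n → ℝ × ℝ) (S : Finset (Fin n)) =>
      IsInc x S ∧ ∀ i ∈ S, x i ∈ A)
    intro S
    have : {x : Fin n → ℝ × ℝ | IsInc x S ∧ ∀ i ∈ S, x i ∈ A} =
        (⋂ i : Fin n, ⋂ j : Fin n, {x | i ∈ S → j ∈ S → i < j →
          (x i).1 < (x j).1 ∧ (x i).2 < (x j).2}) ∩ ⋂ i : Fin n, {x | i ∈ S → x i ∈ A} := by
      ext x
      simp only [IsInc, Set.mem_iInter, Set.mem_ofPred_eq, Set.mem_inter_iff]
      exact ⟨fun h => ⟨fun i j hi hj hij => h.1 i hi j hj hij, h.2⟩,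
        fun h => ⟨fun i hi j hj hij => h.1 i j hi hj hij, h.2⟩⟩
    rw [this]
    refine MeasurableSet.inter
      (MeasurableSet.iInter fun i => MeasurableSet.iInter fun j => ?_)
      (MeasurableSet.iInter fun i => ?_)
    · by_cases h : i ∈ S ∧ j ∈ S ∧ i < j
      · have : {x : Fin n → ℝ × ℝ | i ∈ S → j ∈ S → i < j →
            (x i).1 < (x j).1 ∧ (x i).2 < (x j).2} =
            {x | (x i).1 < (x j).1} ∩ {x | (x i).2 < (x j).2} := by
          ext x
          exact ⟨fun h' => h' h.1 h.2.1 h.2.2, fun h' _ _ _ => h'⟩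
        rw [this]
        exact (measurableSet_lt (by fun_prop) (by fun_prop)).inter
          (measurableSet_lt (by fun_prop) (by fun_prop))
      · have : {x : Fin n → ℝ × ℝ | i ∈ S → j ∈ S → i < j →
            (x i).1 < (x j).1 ∧ (x i).2 < (x j).2} = Set.univ := by
          refine Set.eq_univ_of_forall fun x hi hj hij => absurd ⟨hi, hj, hij⟩ h
        rw [this]
        exact MeasurableSet.univ
    · by_cases h : i ∈ S
      · have : {x : Fin n → ℝ × ℝ | i ∈ S → x i ∈ A} = (fun x => x i) ⁻¹' A := by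
          ext x
          exact ⟨fun h' => h' h, fun h' _ => h'⟩
        rw [this]
        exact (measurable_pi_apply i) hA
      · have : {x : Fin n → ℝ × ℝ | i ∈ S → x i ∈ A} = Set.univ := by
          refine Set.eq_univ_of_forall fun x hi => absurd hi h
        rw [this]
        exact MeasurableSet.univ

end Pool.Agent.K3L
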