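import Pool.Agent.K3L.Stmts

/-!
# MP_79568f_pr: good parameters
-/

set_option autoImplicit false

namespace Pool.Agent.K3L

namespace NUM_

/-- The exponent of the common denominator. -/
def KK : ℕ := 2132

/-- The polynomial part. -/
def c (t : ℕ) : ℕ := min (t - 1) 324

/-- The exponent. -/
def e (t : ℕ) : ℕ := max t 85

/-- The unnormalised law. -/
noncomputable def fh (t : ℕ) : ℝ := (c t : ℝ) * (199 / 200 : ℝ) ^ (e t)

/-- The scaled law. -/
def Fn (t : ℕ) : ℕ := c t * (199 ^ (e t) * 200 ^ (KK - e t))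

/-- The scaled weight at `85`. -/
def w85 : ℕ := 199 ^ 85 * 200 ^ (KK - 85)

/-- The scaled weight at `512`. -/
def w512 : ℕ := 199 ^ 512 * 200 ^ (KK - 512)

/-- Binary splitting of a sum. -/
def sb (f : ℕ → ℕ) : ℕ → ℕ → ℕ
  | 0, a => f a
  | k + 1, a => sb f k a + sb f k (a + 2 ^ k)

theorem sb_eq (f : ℕ → ℕ) : ∀ k a : ℕ, sb f k a = ∑ i ∈ Finset.range (2 ^ k), f (a + i)
  | 0, a => by simp [sb]
  | k + 1, a => by
    have h : 2 ^ (k + 1) = 2 ^ k + 2 ^ k := by ring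
    rw [sb, sb_eq f k a, sb_eq f k (a + 2 ^ k), h, Finset.sum_range_add]
    simp only [add_assoc]

/-- The terms of `J`. -/
def Jt (m : ℕ) : ℕ := m * min (Fn (m + 2)) (Fn (m + 85))

/-- The terms of the mean. -/
def Mt (t : ℕ) : ℕ := t * Fn t

/-- Scaled sums. -/
def S0N : ℕ := (sb Fn 9 0) + 64800 * w512

/-- Scaled sums. -/
def S1N : ℕ := (sb Mt 9 0) + 324 * (200 * 512 + 39800) * w512

/-- Scaled sums. -/
def JN : ℕ := sb Jt 11 0

theorem check : 52 ^ 3 * S1N ^ 3 * w85 < 27 * 25 ^ 3 * JN * S0N ^ 3 := by decide +kernel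

theorem c_le (t : ℕ) : c t ≤ t - 1 := min_le_left _ _

theorem c_pos {t : ℕ} (ht : 2 ≤ t) : 1 ≤ c t := by
  unfold c
  omega

theorem c_zero {t : ℕ} (ht : t < 2) : c t = 0 := by
  unfold c
  omega

theorem fh_nonneg (t : ℕ) : 0 ≤ fh t := by
  unfold fh
  positivity

theorem fh_pos {t : ℕ} (ht : 2 ≤ t) : 0 < fh t := by
  have h : (0 : ℝ) < (c t : ℝ) := by
    have := c_pos ht
    exact_mod_cast this
  unfold fh
  positivity

theorem fh_zero {t : ℕ} (ht : t < 2) : fh t = 0 := by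
  unfold fh
  rw [c_zero ht]
  simp

theorem fh_up (n : ℕ) (hn : n < 200) : fh n ≤ fh (n + 1) := by
  unfold fh
  rcases Nat.lt_or_ge n 85 with h | h
  · have h1 : e n = 85 := by unfold e; omega
    have h2 : e (n + 1) = 85 := by unfold e; omega
    have h3 : c n ≤ c (n + 1) := by unfold c; omega
    rw [h1, h2]
    have h4 : (c n : ℝ) ≤ (c (n + 1) : ℝ) := by exact_mod_cast h3
    exact mul_le_mul_of_nonneg_right h4 (by positivity)
  · have h1 : e n = n := by unfold e; omega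
    have h2 : e (n + 1) = n + 1 := by unfold e; omega
    have h3 : c n * 200 ≤ c (n + 1) * 199 := by unfold c; omega
    rw [h1, h2, pow_succ]
    have h4 : (c n : ℝ) * 200 ≤ (c (n + 1) : ℝ) * 199 := by exact_mod_cast h3
    have h5 : (0 : ℝ) ≤ (199 / 200 : ℝ) ^ n := by positivity
    have h6 : (c n : ℝ) ≤ (c (n + 1) : ℝ) * (199 / 200) := by linarith
    calc (c n : ℝ) * (199 / 200) ^ n ≤ ((c (n + 1) : ℝ) * (199 / 200)) * (199 / 200) ^ n :=
          mul_le_mul_of_nonneg_right h6 h5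
      _ = _ := by ring

theorem fh_dn (n : ℕ) (hn : 200 ≤ n) : fh (n + 1) ≤ fh n := by
  unfold fh
  have h1 : e n = n := by unfold e; omega
  have h2 : e (n + 1) = n + 1 := by unfold e; omega
  have h3 : c (n + 1) * 199 ≤ c n * 200 := by unfold c; omega
  rw [h1, h2, pow_succ]
  have h4 : (c (n + 1) : ℝ) * 199 ≤ (c n : ℝ) * 200 := by exact_mod_cast h3
  have h5 : (0 : ℝ) ≤ (199 / 200 : ℝ) ^ n := by positivity
  have h6 : (c (n + 1) : ℝ) * (199 / 200) ≤ (c n : ℝ) := by linarith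
  calc (c (n + 1) : ℝ) * ((199 / 200) ^ n * (199 / 200))
      = ((c (n + 1) : ℝ) * (199 / 200)) * (199 / 200) ^ n := by ring
    _ ≤ _ := mul_le_mul_of_nonneg_right h6 h5

theorem fh_mono_up : ∀ d a : ℕ, a + d ≤ 200 → fh a ≤ fh (a + d)
  | 0, a, _ => le_rfl
  | d + 1, a, h => (fh_mono_up d a (by omega)).trans (fh_up (a + d) (by omega))

theorem fh_mono_dn : ∀ d a : ℕ, 200 ≤ a → fh (a + d) ≤ fh a
  | 0, a, _ => le_rfl
  | d + 1, a, h => (fh_dn (a + d) (by omega)).trans (fh_mono_dn d a h)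

/-- Unimodality. -/
theorem fh_min (a b t : ℕ) (h1 : a ≤ t) (h2 : t ≤ b) : min (fh a) (fh b) ≤ fh t := by
  rcases Nat.le_total t 200 with h | h
  · have h3 := fh_mono_up (t - a) a (by omega)
    rw [show a + (t - a) = t by omega] at h3
    exact (min_le_left _ _).trans h3
  · have h3 := fh_mono_dn (b - t) t h
    rw [show t + (b - t) = b by omega] at h3
    exact (min_le_right _ _).trans h3

theorem fh_tail (i : ℕ) : fh (i + 512) = 324 * (199 / 200 : ℝ) ^ 512 * (199 / 200 : ℝ) ^ i := by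
  unfold fh
  have h1 : e (i + 512) = 512 + i := by unfold e; omega
  have h2 : c (i + 512) = 324 := by unfold c; omega
  rw [h1, h2, pow_add]
  push_cast
  ring

/-- The total mass. -/
noncomputable def S0 : ℝ :=
  (∑ t ∈ Finset.range 512, fh t) + 64800 * (199 / 200 : ℝ) ^ 512

/-- The first moment. -/
noncomputable def S1 : ℝ :=
  (∑ t ∈ Finset.range 512, (t : ℝ) * fh t) + 324 * (200 * 512 + 39800) * (199 / 200 : ℝ) ^ 512

theorem geo : HasSum (fun n : ℕ => (199 / 200 : ℝ) ^ n) 200 := by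
  have h := hasSum_geometric_of_lt_one (r := (199 / 200 : ℝ)) (by norm_num) (by norm_num)
  have h2 : (1 - (199 / 200 : ℝ))⁻¹ = 200 := by norm_num
  rwa [h2] at h

theorem geo1 : HasSum (fun n : ℕ => (n : ℝ) * (199 / 200 : ℝ) ^ n) 39800 := by
  have h := hasSum_coe_mul_geometric_of_norm_lt_one (r := (199 / 200 : ℝ))
    (by rw [Real.norm_eq_abs, abs_of_pos (by norm_num)]; norm_num)
  have h2 : (199 / 200 : ℝ) / (1 - 199 / 200) ^ 2 = 39800 := by norm_num
  rwa [h2] at h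

theorem hs0 : HasSum fh S0 := by
  unfold S0
  generalize hQ : (199 / 200 : ℝ) ^ 512 = Q
  have h := geo.mul_left (324 * Q)
  have h2 : (fun i : ℕ => 324 * Q * (199 / 200 : ℝ) ^ i) = fun i : ℕ => fh (i + 512) := by
    funext i
    rw [fh_tail, hQ]
  rw [h2] at h
  have h3 := (hasSum_nat_add_iff 512).mp h
  have h4 : 324 * Q * 200 + ∑ i ∈ Finset.range 512, fh i =
      (∑ t ∈ Finset.range 512, fh t) + 64800 * Q := by ring
  rwa [h4] at h3

theorem hs1 : HasSum (fun t : ℕ => (t : ℝ) * fh t) S1 := by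
  unfold S1
  generalize hQ : (199 / 200 : ℝ) ^ 512 = Q
  have h := (geo1.mul_left (324 * Q)).add (geo.mul_left (512 * (324 * Q)))
  have h2 : (fun i : ℕ => 324 * Q * ((i : ℝ) * (199 / 200 : ℝ) ^ i) +
      512 * (324 * Q) * (199 / 200 : ℝ) ^ i) =
      fun i : ℕ => (fun t : ℕ => (t : ℝ) * fh t) (i + 512) := by
    funext i
    show _ = ((i + 512 : ℕ) : ℝ) * fh (i + 512)
    rw [fh_tail, hQ]
    push_cast
    ring
  rw [h2] at h
  have h3 := (hasSum_nat_add_iff (f := fun t : ℕ => (t : ℝ) * fh t) 512).mp h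
  have h4 : 324 * Q * 39800 + 512 * (324 * Q) * 200 +
      ∑ i ∈ Finset.range 512, (fun t : ℕ => (t : ℝ) * fh t) i =
      (∑ t ∈ Finset.range 512, (t : ℝ) * fh t) + 324 * (200 * 512 + 39800) * Q := by
    simp only []
    ring
  rwa [h4] at h3

theorem fh_le (t : ℕ) : fh t ≤ 324 * (199 / 200 : ℝ) ^ t := by
  unfold fh
  have h1 : (c t : ℝ) ≤ 324 := by
    have : c t ≤ 324 := min_le_right _ _
    exact_mod_cast this
  have h2 : (199 / 200 : ℝ) ^ (e t) ≤ (199 / 200 : ℝ) ^ t :=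
    pow_le_pow_of_le_one (by norm_num) (by norm_num) (le_max_left _ _)
  exact mul_le_mul h1 h2 (by positivity) (by norm_num)

theorem hs2 : Summable (fun t : ℕ => (t : ℝ) ^ 2 * fh t) := by
  have h := (summable_pow_mul_geometric_of_norm_lt_one 2 (r := (199 / 200 : ℝ))
    (by rw [Real.norm_eq_abs, abs_of_pos (by norm_num)]; norm_num)).mul_left 324
  refine Summable.of_nonneg_of_le (fun t => mul_nonneg (by positivity) (fh_nonneg t)) ?_ h
  intro t
  have h1 := mul_le_mul_of_nonneg_left (fh_le t) (show (0 : ℝ) ≤ (t : ℝ) ^ 2 by positivity)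
  calc (t : ℝ) ^ 2 * fh t ≤ (t : ℝ) ^ 2 * (324 * (199 / 200 : ℝ) ^ t) := h1
    _ = _ := by ring

theorem S0_pos : 0 < S0 := by
  unfold S0
  have h : 0 ≤ ∑ t ∈ Finset.range 512, fh t := Finset.sum_nonneg fun t _ => fh_nonneg t
  exact add_pos_of_nonneg_of_pos h (mul_pos (by norm_num) (pow_pos (by norm_num) 512))

/-! ## The flow -/

/-- The flow. -/
noncomputable def G (m : ℕ) : ℝ :=
  if 1 ≤ m ∧ m ≤ 2047 then min (fh (m + 2)) (fh (m + 85)) / (199 / 200 : ℝ) ^ 85 else 0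

theorem G_zero : G 0 = 0 := by
  unfold G
  rw [if_neg (by omega)]

theorem G_big (m : ℕ) (hm : 2047 < m) : G m = 0 := by
  unfold G
  rw [if_neg (by omega)]

theorem G_nonneg (m : ℕ) : 0 ≤ G m := by
  unfold G
  split_ifs
  · have h : 0 ≤ min (fh (m + 2)) (fh (m + 85)) := le_min (fh_nonneg _) (fh_nonneg _)
    positivity
  · exact le_rfl

theorem fh_small {t : ℕ} (h1 : 2 ≤ t) (h2 : t ≤ 85) :
    fh t = ((t : ℝ) - 1) * (199 / 200 : ℝ) ^ 85 := by
  unfold fh
  have h3 : e t = 85 := by unfold e; omega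
  have h4 : c t = t - 1 := by unfold c; omega
  rw [h3, h4, Nat.cast_sub (by omega)]
  simp

theorem fh_big {t : ℕ} (h1 : 85 ≤ t) : fh t = (c t : ℝ) * (199 / 200 : ℝ) ^ t := by
  unfold fh
  rw [show e t = t by unfold e; omega]

theorem key (t m : ℕ) (ht : 2 ≤ t) : G m * fh t ≤ ((t : ℝ) - 1) * fh (t + m) := by
  have ht' : (0 : ℝ) ≤ (t : ℝ) - 1 := by
    have : (2 : ℝ) ≤ (t : ℝ) := by exact_mod_cast ht
    linarith
  unfold G
  split_ifs with hm
  · have hq : (0 : ℝ) < (199 / 200 : ℝ) ^ 85 := by positivity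
    rcases Nat.le_total t 85 with h | h
    · rw [fh_small ht h]
      have h1 := fh_min (m + 2) (m + 85) (t + m) (by omega) (by omega)
      have h2 : min (fh (m + 2)) (fh (m + 85)) / (199 / 200 : ℝ) ^ 85 *
          (((t : ℝ) - 1) * (199 / 200 : ℝ) ^ 85) =
          ((t : ℝ) - 1) * min (fh (m + 2)) (fh (m + 85)) := by
        field_simp
      rw [h2]
      exact mul_le_mul_of_nonneg_left h1 ht'
    · have h1 : min (fh (m + 2)) (fh (m + 85)) ≤ (c (m + 85) : ℝ) * (199 / 200 : ℝ) ^ (m + 85) := by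
        rw [← fh_big (by omega)]
        exact min_le_right _ _
      have h2 : min (fh (m + 2)) (fh (m + 85)) / (199 / 200 : ℝ) ^ 85 ≤
          (c (m + 85) : ℝ) * (199 / 200 : ℝ) ^ m := by
        rw [div_le_iff₀ hq]
        refine h1.trans (le_of_eq ?_)
        rw [pow_add]
        ring
      rw [fh_big h, fh_big (show 85 ≤ t + m by omega)]
      have h3 : (c (m + 85) : ℝ) ≤ (c (t + m) : ℝ) := by
        have : c (m + 85) ≤ c (t + m) := by unfold c; omega
        exact_mod_cast this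
      have h4 : (c t : ℝ) ≤ (t : ℝ) - 1 := by
        have h5 := c_le t
        have h6 : ((c t + 1 : ℕ) : ℝ) ≤ (t : ℝ) := by
          exact_mod_cast (show c t + 1 ≤ t by omega)
        push_cast at h6
        linarith
      have h7 : (0 : ℝ) ≤ (c t : ℝ) := by positivity
      have h8 : (0 : ℝ) ≤ (c (t + m) : ℝ) := by positivity
      calc min (fh (m + 2)) (fh (m + 85)) / (199 / 200 : ℝ) ^ 85 * ((c t : ℝ) * (199 / 200 : ℝ) ^ t)
          ≤ ((c (m + 85) : ℝ) * (199 / 200 : ℝ) ^ m) * ((c t : ℝ) * (199 / 200 : ℝ) ^ t) :=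
            mul_le_mul_of_nonneg_right h2 (by positivity)
        _ = ((c t : ℝ) * (c (m + 85) : ℝ)) * (199 / 200 : ℝ) ^ (t + m) := by
            rw [pow_add]
            ring
        _ ≤ (((t : ℝ) - 1) * (c (t + m) : ℝ)) * (199 / 200 : ℝ) ^ (t + m) :=
            mul_le_mul_of_nonneg_right (mul_le_mul h4 h3 (by positivity) ht') (by positivity)
        _ = _ := by ring
  · rw [zero_mul]
    exact mul_nonneg ht' (fh_nonneg _)

theorem key' (t m : ℕ) (ht : 2 ≤ t) :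
    G m * (fh t / S0) ≤ ((t : ℝ) - 1) * (fh (t + m) / S0) := by
  have h := div_le_div_of_nonneg_right (key t m ht) S0_pos.le
  calc G m * (fh t / S0) = G m * fh t / S0 := by ring
    _ ≤ _ := h
    _ = _ := by ring

/-! ## Scaling -/

theorem pow_scale (k : ℕ) (hk : k ≤ KK) :
    ((199 ^ k * 200 ^ (KK - k) : ℕ) : ℝ) = (199 / 200 : ℝ) ^ k * (200 : ℝ) ^ KK := by
  have h : (200 : ℝ) ^ KK = 200 ^ k * 200 ^ (KK - k) := by
    rw [← pow_add, show k + (KK - k) = KK by omega]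
  rw [h, div_pow]
  generalize KK - k = j
  push_cast
  have h1 : (200 : ℝ) ^ k ≠ 0 := by positivity
  field_simp

theorem Fn_eq (t : ℕ) (ht : t ≤ KK) : (Fn t : ℝ) = fh t * (200 : ℝ) ^ KK := by
  unfold Fn fh
  rw [Nat.cast_mul, pow_scale (e t) (by unfold e KK at *; omega)]
  ring

theorem w85_eq : (w85 : ℝ) = (199 / 200 : ℝ) ^ 85 * (200 : ℝ) ^ KK :=
  pow_scale 85 (by unfold KK; omega)

theorem w512_eq : (w512 : ℝ) = (199 / 200 : ℝ) ^ 512 * (200 : ℝ) ^ KK :=
  pow_scale 512 (by unfold KK; omega)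

theorem S0N_eq : (S0N : ℝ) = S0 * (200 : ℝ) ^ KK := by
  unfold S0N S0
  rw [sb_eq, Nat.cast_add, Nat.cast_mul, w512_eq, Nat.cast_sum, add_mul, Finset.sum_mul]
  have h : ∑ i ∈ Finset.range (2 ^ 9), ((Fn (0 + i) : ℕ) : ℝ) =
      ∑ i ∈ Finset.range 512, fh i * (200 : ℝ) ^ KK := by
    refine Finset.sum_congr (by norm_num) fun i hi => ?_
    rw [Finset.mem_range] at hi
    rw [zero_add, Fn_eq i (by unfold KK; omega)]
  rw [h]
  push_cast
  ring

theorem S1N_eq : (S1N : ℝ) = S1 * (200 : ℝ) ^ KK := by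
  unfold S1N S1
  rw [sb_eq, Nat.cast_add, Nat.cast_mul, w512_eq, Nat.cast_sum, add_mul, Finset.sum_mul]
  have h : ∑ i ∈ Finset.range (2 ^ 9), ((Mt (0 + i) : ℕ) : ℝ) =
      ∑ i ∈ Finset.range 512, (i : ℝ) * fh i * (200 : ℝ) ^ KK := by
    refine Finset.sum_congr (by norm_num) fun i hi => ?_
    rw [Finset.mem_range] at hi
    rw [zero_add, Mt, Nat.cast_mul, Fn_eq i (by unfold KK; omega)]
    ring
  rw [h]
  push_cast
  ring

theorem JN_eq : (JN : ℝ) =
    (∑ m ∈ Finset.range (2047 + 1), (m : ℝ) * G m) * (w85 : ℝ) := by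
  unfold JN
  rw [sb_eq, Nat.cast_sum, Finset.sum_mul]
  refine Finset.sum_congr (by norm_num) fun m hm => ?_
  rw [Finset.mem_range] at hm
  rw [zero_add, Jt, Nat.cast_mul]
  rcases Nat.eq_zero_or_pos m with h0 | h0
  · rw [h0, Nat.cast_zero, zero_mul, zero_mul, zero_mul]
  · have hG : G m = min (fh (m + 2)) (fh (m + 85)) / (199 / 200 : ℝ) ^ 85 := by
      unfold G
      rw [if_pos ⟨h0, by omega⟩]
    rw [hG, w85_eq, Nat.cast_min, Fn_eq (m + 2) (by unfold KK; omega),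
      Fn_eq (m + 85) (by unfold KK; omega)]
    have hq : (0 : ℝ) < (199 / 200 : ℝ) ^ 85 := by positivity
    have hK : (0 : ℝ) < (200 : ℝ) ^ KK := by positivity
    rw [← min_mul_of_nonneg _ _ hK.le]
    field_simp

theorem w85_pos : (0 : ℝ) < (w85 : ℝ) := by
  rw [w85_eq]
  positivity

theorem fin_aux (J A B C K w S1' S0' : ℝ) (hK : 0 < K) (hw : 0 < w) (hS : 0 < S0')
    (hA : A = S1' * K) (hB : B = S0' * K) (hC : C = J * w)
    (h : 52 ^ 3 * A ^ 3 * w < 27 * 25 ^ 3 * C * B ^ 3) :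
    (2.08 : ℝ) ^ 3 * (S1' / S0') ^ 3 < 27 * J := by
  subst hA hB hC
  have hp : 0 < w * K ^ 3 := by positivity
  have h2 : (52 : ℝ) ^ 3 * S1' ^ 3 * (w * K ^ 3) < 27 * 25 ^ 3 * J * S0' ^ 3 * (w * K ^ 3) := by
    calc (52 : ℝ) ^ 3 * S1' ^ 3 * (w * K ^ 3) = 52 ^ 3 * (S1' * K) ^ 3 * w := by ring
      _ < _ := h
      _ = _ := by ring
  have h3 : (52 : ℝ) ^ 3 * S1' ^ 3 < 27 * 25 ^ 3 * J * S0' ^ 3 := lt_of_mul_lt_mul_right h2 hp.le
  rw [div_pow, mul_div_assoc', div_lt_iff₀ (by positivity)]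
  norm_num at h3 ⊢
  linarith

theorem check' : (52 : ℝ) ^ 3 * (S1N : ℝ) ^ 3 * (w85 : ℝ) <
    27 * 25 ^ 3 * (JN : ℝ) * (S0N : ℝ) ^ 3 := by
  have h := check
  have h' : ((52 ^ 3 * S1N ^ 3 * w85 : ℕ) : ℝ) < ((27 * 25 ^ 3 * JN * S0N ^ 3 : ℕ) : ℝ) :=
    Nat.cast_lt.mpr h
  clear h
  generalize S1N = a at h' ⊢
  generalize S0N = b at h' ⊢
  generalize JN = d at h' ⊢
  generalize w85 = w at h' ⊢
  push_cast at h'
  linarith

theorem K_pos : (0 : ℝ) < (200 : ℝ) ^ KK := pow_pos (by norm_num) KK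

theorem final : (2.08 : ℝ) ^ 3 * (S1 / S0) ^ 3 <
    27 * ∑ m ∈ Finset.range (2047 + 1), (m : ℝ) * G m :=
  fin_aux _ _ _ _ _ _ S1 S0 K_pos w85_pos S0_pos S1N_eq S0N_eq JN_eq check'

theorem S1_pos : 0 < S1 := by
  unfold S1
  have h : 0 ≤ ∑ t ∈ Finset.range 512, (t : ℝ) * fh t :=
    Finset.sum_nonneg fun t _ => mul_nonneg (Nat.cast_nonneg t) (fh_nonneg t)
  exact add_pos_of_nonneg_of_pos h (mul_pos (by norm_num) (pow_pos (by norm_num) 512))

theorem J_pos : 0 < ∑ m ∈ Finset.range (2047 + 1), (m : ℝ) * G m := by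
  have h := final
  have h3 : 0 < (2.08 : ℝ) ^ 3 * (S1 / S0) ^ 3 :=
    mul_pos (by norm_num) (pow_pos (div_pos S1_pos S0_pos) 3)
  exact pos_of_mul_pos_right (h3.trans h) (by norm_num)

/-- The sum of the flow. -/
noncomputable def J0 : ℝ := ∑ m ∈ Finset.range (2047 + 1), (m : ℝ) * G m

/-- The parameters. -/
noncomputable def P0 (V : ℝ) (hV : HasSum (fun t : ℕ => (t : ℝ) ^ 2 * fh t) V) : Par where
  f := fun t => fh t / S0
  G := G
  R := 2047
  μ := S1 / S0
  J := J0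
  V := V / S0
  f_pos := fun t ht => div_pos (fh_pos ht) S0_pos
  f_zero := fun t ht => by rw [fh_zero ht, zero_div]
  G_nonneg := G_nonneg
  G_zero := G_zero
  G_big := G_big
  key := key'
  f_sum := by
    have h := hs0.div_const S0
    rwa [div_self S0_pos.ne'] at h
  f_mean := by
    have h := hs1.div_const S0
    simp only [mul_div_assoc] at h
    exact h
  f_sq := by
    have h := hV.div_const S0
    simp only [mul_div_assoc] at h
    exact h
  J_eq := rfl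
  J_pos := J_pos

theorem P0_mu (V : ℝ) (hV : HasSum (fun t : ℕ => (t : ℝ) ^ 2 * fh t) V) :
    (P0 V hV).μ = S1 / S0 := rfl

theorem P0_J (V : ℝ) (hV : HasSum (fun t : ℕ => (t : ℝ) ^ 2 * fh t) V) :
    (P0 V hV).J = J0 := by
  unfold P0
  with_reducible rfl

end NUM_

open NUM_ in
theorem num_proof : Stmt_NUM := by
  obtain ⟨V, hV⟩ := hs2
  refine ⟨P0 V hV, ?_⟩
  rw [P0_mu, P0_J, J0]
  exact final

end Pool.Agent.K3L
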