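import Pool.Agent.K3L.Stmts

/-!
# MP_79568f_pr, lower bound: the third coordinate may be replaced by the index
-/

set_option autoImplicit false

namespace Pool.Agent.K3L

open MeasureTheory
open scoped ENNReal

namespace SRT_

/-- Uniform measure on `[0,1)`. -/
noncomputable abbrev m1 : Measure ℝ := (volume : Measure ℝ).restrict (Set.Ico 0 1)

lemma cube_eq : (volume : Measure (Fin 3 → ℝ)).restrict (Set.Icc 0 1) =
    Measure.pi (fun _ : Fin 3 => m1) := by
  have h1 : (Set.Icc (0 : Fin 3 → ℝ) 1) = Set.pi Set.univ (fun _ : Fin 3 => Set.Icc (0 : ℝ) 1) := by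
    rw [← Set.pi_univ_Icc]
    rfl
  rw [h1, volume_pi, Measure.restrict_pi_pi]
  congr 1
  funext i
  exact (Measure.restrict_congr_set Ico_ae_eq_Icc).symm

/-- Three coordinates. -/
def e3 (p : (ℝ × ℝ) × ℝ) : Fin 3 → ℝ := ![p.1.1, p.1.2, p.2]

lemma measurable_e3 : Measurable e3 := by
  refine measurable_pi_lambda _ (fun i => ?_)
  fin_cases i
  · exact measurable_fst.comp measurable_fst
  · exact measurable_snd.comp measurable_fst
  · exact measurable_snd

lemma mp_e3 : MeasurePreserving e3 (sq.prod m1) (Measure.pi (fun _ : Fin 3 => m1)) := by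
  refine ⟨measurable_e3, ?_⟩
  symm
  refine Measure.pi_eq (fun s hs => ?_)
  rw [Measure.map_apply measurable_e3 (MeasurableSet.univ_pi hs)]
  have : e3 ⁻¹' (Set.pi Set.univ s) = (s 0 ×ˢ s 1) ×ˢ s 2 := by
    ext p
    simp only [Set.mem_preimage, Set.mem_pi, Set.mem_univ, true_implies, Set.mem_prod]
    constructor
    · intro h
      exact ⟨⟨h 0, h 1⟩, h 2⟩
    · rintro ⟨⟨h0, h1⟩, h2⟩ i
      fin_cases i
      · exact h0
      · exact h1
      · exact h2
  rw [this, Measure.prod_prod, sq, Measure.prod_prod, Fin.prod_univ_three]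

/-- The combined map. -/
def Phi (n : ℕ) (q : (Fin n → ℝ × ℝ) × (Fin n → ℝ)) : Fin n → Fin 3 → ℝ :=
  fun i => e3 (q.1 i, q.2 i)

lemma mp_Phi (n : ℕ) :
    MeasurePreserving (Phi n) ((P2 n).prod (Measure.pi (fun _ : Fin n => m1))) (P3 n) := by
  have h1 := (measurePreserving_arrowProdEquivProdArrow (ℝ × ℝ) ℝ (Fin n) (fun _ => sq)
    (fun _ => m1)).symm
  have h2 : MeasurePreserving (fun (a : Fin n → (ℝ × ℝ) × ℝ) (i : Fin n) => e3 (a i))
      (Measure.pi (fun _ : Fin n => sq.prod m1))
      (Measure.pi (fun _ : Fin n => Measure.pi (fun _ : Fin 3 => m1))) :=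
    measurePreserving_pi _ _ (fun _ => mp_e3)
  have h3 := h2.comp h1
  have h4 : P3 n = Measure.pi (fun _ : Fin n => Measure.pi (fun _ : Fin 3 => m1)) := by
    unfold P3
    rw [cube_eq]
  rw [h4]
  exact h3

lemma ae_inj (n : ℕ) : ∀ᵐ z ∂(Measure.pi (fun _ : Fin n => m1)), Function.Injective z := by
  have hac : Measure.pi (fun _ : Fin n => m1) ≪ (volume : Measure (Fin n → ℝ)) := by
    have : Measure.pi (fun _ : Fin n => m1) =
        (volume : Measure (Fin n → ℝ)).restrict (Set.pi Set.univ (fun _ => Set.Ico (0 : ℝ) 1)) := by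
      rw [volume_pi, Measure.restrict_pi_pi]
    rw [this]
    exact Measure.absolutelyContinuous_restrict
  refine hac.ae_le ?_
  have hij : ∀ i j : Fin n, ∀ᵐ z ∂(volume : Measure (Fin n → ℝ)), z i = z j → i = j := by
    intro i j
    by_cases h : i = j
    · exact Filter.Eventually.of_forall (fun _ _ => h)
    · let W : Submodule ℝ (Fin n → ℝ) :=
        LinearMap.ker ((LinearMap.proj i : (Fin n → ℝ) →ₗ[ℝ] ℝ) - LinearMap.proj j)
      have hW : W ≠ ⊤ := by
        intro hW
        have : (Pi.single i (1 : ℝ) : Fin n → ℝ) ∈ W := hW ▸ Submodule.mem_top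
        rw [LinearMap.mem_ker] at this
        simp [Pi.single_apply, Ne.symm h] at this
      have h0 : (volume : Measure (Fin n → ℝ)) (W : Set (Fin n → ℝ)) = 0 :=
        Measure.addHaar_submodule _ W hW
      rw [ae_iff]
      refine measure_mono_null ?_ h0
      intro z hz
      simp only [Set.mem_setOf_eq, Classical.not_imp] at hz
      change z ∈ W
      rw [LinearMap.mem_ker]
      simp [hz.1]
  have hall : ∀ᵐ z ∂(volume : Measure (Fin n → ℝ)), ∀ i j : Fin n, z i = z j → i = j := by
    rw [ae_all_iff]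
    intro i
    rw [ae_all_iff]
    exact hij i
  filter_upwards [hall] with z hz i j hzz
  exact hz i j hzz

lemma L2_le {n : ℕ} (a : Fin n → ℝ × ℝ) (z : Fin n → ℝ) (hz : Function.Injective z) :
    L2 (fun i => a (Tuple.sort z i)) Set.univ ≤ longest3 (Phi n (a, z)) := by
  classical
  obtain ⟨S, hS, -, hcard⟩ := exists_L2 (fun i => a (Tuple.sort z i)) Set.univ
  rw [← hcard]
  have hmono : StrictMono (z ∘ Tuple.sort z) :=
    (Tuple.monotone_sort z).strictMono_of_injective (hz.comp (Tuple.sort z).injective)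
  have key : ∀ i ∈ S, ∀ j ∈ S, i < j →
      Lt3 (Phi n (a, z) (Tuple.sort z i)) (Phi n (a, z) (Tuple.sort z j)) := by
    intro i hi j hj hij c
    have h1 := hS i hi j hj hij
    have h2 := hmono hij
    fin_cases c
    · exact h1.1
    · exact h1.2
    · exact h2
  have hch : IsChain3 (Phi n (a, z)) (S.map (Tuple.sort z).toEmbedding) := by
    intro i' hi' j' hj' hne
    obtain ⟨i, hi, rfl⟩ := Finset.mem_map.1 hi'
    obtain ⟨j, hj, rfl⟩ := Finset.mem_map.1 hj'
    have hij : i ≠ j := fun h => hne (by rw [h])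
    rcases lt_or_gt_of_ne hij with h | h
    · exact Or.inl (key i hi j hj h)
    · exact Or.inr (key j hj i hi h)
  have : (S.map (Tuple.sort z).toEmbedding).card ≤ longest3 (Phi n (a, z)) := by
    unfold longest3
    exact Finset.le_sup (f := Finset.card) (Finset.mem_filter.2 ⟨Finset.mem_univ _, hch⟩)
  simpa using this

lemma mp_perm (n : ℕ) (s : Equiv.Perm (Fin n)) :
    MeasurePreserving (fun (a : Fin n → ℝ × ℝ) (i : Fin n) => a (s i)) (P2 n) (P2 n) := by
  have h := measurePreserving_piCongrLeft (fun _ : Fin n => sq) s.symm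
  have h2 : (⇑(MeasurableEquiv.piCongrLeft (fun _ : Fin n => ℝ × ℝ) s.symm)) =
      (fun (a : Fin n → ℝ × ℝ) (i : Fin n) => a (s i)) := by
    funext a i
    have := MeasurableEquiv.piCongrLeft_apply_apply (β := fun _ : Fin n => ℝ × ℝ) s.symm a (s i)
    simpa using this
  rw [h2] at h
  exact h

end SRT_

open SRT_ in
/-- The module statement. -/
theorem srt_proof (hMSR : Stmt_MSR) : Stmt_SRT := by
  intro n r
  have hmeas3 : MeasurableSet {x : Fin n → Fin 3 → ℝ | r ≤ (longest3 x : ℝ)} := by
    have h := hMSR.1 n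
    have h' : Measurable (fun x : Fin n → Fin 3 → ℝ => (longest3 x : ℝ)) :=
      (measurable_from_top (f := fun k : ℕ => (k : ℝ))).comp h
    exact measurableSet_le measurable_const h'
  have hmeas2 : MeasurableSet {x : Fin n → ℝ × ℝ | r ≤ (L2 x Set.univ : ℝ)} := by
    have h := hMSR.2 n Set.univ MeasurableSet.univ
    have h' : Measurable (fun x : Fin n → ℝ × ℝ => (L2 x Set.univ : ℝ)) :=
      (measurable_from_top (f := fun k : ℕ => (k : ℝ))).comp h
    exact measurableSet_le measurable_const h'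
  haveI : IsProbabilityMeasure (Measure.pi (fun _ : Fin n => m1)) := by infer_instance
  rw [← (mp_Phi n).measure_preimage hmeas3.nullMeasurableSet]
  have hpre : MeasurableSet (Phi n ⁻¹' {x | r ≤ (longest3 x : ℝ)}) :=
    (mp_Phi n).measurable hmeas3
  rw [Measure.prod_apply_symm hpre]
  calc P2 n {x | r ≤ (L2 x Set.univ : ℝ)}
      = ∫⁻ _z, P2 n {x | r ≤ (L2 x Set.univ : ℝ)} ∂(Measure.pi (fun _ : Fin n => m1)) := by
        rw [lintegral_const, measure_univ, mul_one]
    _ ≤ ∫⁻ z, P2 n ((fun a => (a, z)) ⁻¹' (Phi n ⁻¹' {x | r ≤ (longest3 x : ℝ)}))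
          ∂(Measure.pi (fun _ : Fin n => m1)) := by
        refine lintegral_mono_ae ?_
        filter_upwards [ae_inj n] with z hz
        rw [← (mp_perm n (Tuple.sort z)).measure_preimage hmeas2.nullMeasurableSet]
        refine measure_mono ?_
        intro a ha
        simp only [Set.mem_preimage, Set.mem_setOf_eq] at ha ⊢
        exact ha.trans (by exact_mod_cast L2_le a z hz)

end Pool.Agent.K3L
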