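import Pool.Agent.K3L.Stmts

/-!
# MP_79568f_pr, lower bound: module STA
-/

set_option autoImplicit false

namespace Pool.Agent.K3L

open MeasureTheory Filter Topology
open scoped ENNReal

namespace STA_

lemma f_nonneg (P : Par) (t : ℕ) : 0 ≤ P.f t := by
  by_cases h : 2 ≤ t
  · exact (P.f_pos t h).le
  · exact (P.f_zero t (not_le.1 h)).ge

lemma f_ne (P : Par) {t : ℕ} (h : P.f t ≠ 0) : 2 ≤ t := by
  by_contra hc
  exact h (P.f_zero t (not_le.1 hc))

/-- Level `k` goes down, the gap below shrinks. -/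
def dn {M : ℕ} (k : Fin (M + 1)) (m : ℕ) (g : Fin M → ℕ) : Fin M → ℕ := fun i =>
  g i - (if i.succ = k then m else 0)

lemma wt_eq (P : Par) {M : ℕ} (g : Fin M → ℕ) : wt P g = ENNReal.ofReal (∏ i, P.f (g i)) := by
  unfold wt
  rw [ENNReal.ofReal_prod_of_nonneg (fun i _ => f_nonneg P (g i))]

lemma rate_eq (P : Par) {M : ℕ} (k : Fin (M + 1)) (m : ℕ) (g : Fin M → ℕ)
    (hg : ∀ i, 2 ≤ g i) :
    (∏ i, P.f (g i)) * rate P k m g = P.G m * ∏ i, P.f (dn k m g i) := by
  classical
  induction k using Fin.cases with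
  | zero =>
    have h : dn (0 : Fin (M + 1)) m g = g := by
      funext i
      simp [dn, Fin.succ_ne_zero]
    rw [h, rate_zero]
    ring
  | succ i =>
    have hi : P.f (g i) ≠ 0 := (P.f_pos _ (hg i)).ne'
    have h1 : dn i.succ m g i = g i - m := by simp [dn]
    have h2 : ∀ j ∈ Finset.univ.erase i, P.f (dn i.succ m g j) = P.f (g j) := by
      intro j hj
      have hne : j ≠ i := (Finset.mem_erase.1 hj).1
      have : j.succ ≠ i.succ := fun h => hne (Fin.succ_injective _ h)
      simp [dn, this]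
    rw [rate_succ, ← Finset.mul_prod_erase Finset.univ (fun j => P.f (g j)) (Finset.mem_univ i),
      ← Finset.mul_prod_erase Finset.univ (fun j => P.f (dn i.succ m g j)) (Finset.mem_univ i),
      Finset.prod_congr rfl h2, h1]
    field_simp

lemma rate_nonneg (P : Par) {M : ℕ} (k : Fin (M + 1)) (m : ℕ) (g : Fin M → ℕ) :
    0 ≤ rate P k m g := by
  induction k using Fin.cases with
  | zero => exact P.G_nonneg m
  | succ i =>
    rw [rate_succ]
    exact div_nonneg (mul_nonneg (P.G_nonneg m) (f_nonneg P _)) (f_nonneg P _)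

lemma succ_eq_iff {M : ℕ} (k : Fin (M + 1)) (j : Fin M) : j.succ = k + 1 ↔ j.castSucc = k := by
  rw [← Fin.coeSucc_eq_succ]
  exact add_left_inj 1

lemma dn_mv {M : ℕ} (k : Fin (M + 1)) (m : ℕ) (g : Fin M → ℕ) :
    dn (k + 1) m (mv k m g) = dn k m g := by
  funext j
  unfold dn mv
  simp only [succ_eq_iff]
  by_cases h : j.castSucc = k
  · have h' : ¬ j.succ = k := by
      rw [← h]
      intro hh
      have := congrArg Fin.val hh
      simp at this
    simp [h, h']
  · simp [h]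

lemma tsum_shift {α : Type*} (F H : α → ℝ≥0∞) (φ : α → α)
    (hinj : ∀ g g', F g ≠ 0 → F g' ≠ 0 → φ g = φ g' → g = g')
    (hle : ∀ g, F g ≠ 0 → F g ≤ H (φ g)) : ∑' g, F g ≤ ∑' g, H g := by
  have h1 : ∑' g, F g = ∑' g : {g | F g ≠ 0}, F g := by
    symm
    apply tsum_subtype_eq_of_support_subset
    intro g hg
    exact hg
  rw [h1]
  calc ∑' g : {g | F g ≠ 0}, F g ≤ ∑' g : {g | F g ≠ 0}, H (φ g) :=
        ENNReal.tsum_le_tsum (fun g => hle g g.2)
    _ ≤ ∑' g, H g := by
        apply ENNReal.tsum_comp_le_tsum_of_injective (f := fun g : {g | F g ≠ 0} => φ g)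
        intro a b hab
        exact Subtype.ext (hinj a b a.2 b.2 hab)

/-- The rate with its weight. -/
noncomputable def qq (P : Par) (N : ℕ) {M : ℕ} (k : Fin (M + 1)) (m : ℕ) (g : Fin M → ℕ) :
    ℝ≥0∞ := ENNReal.ofReal (rate P k m g / (N : ℝ) ^ 2)

lemma wt_qq (P : Par) (N : ℕ) {M : ℕ} (k : Fin (M + 1)) (m : ℕ) (g : Fin M → ℕ)
    (hg : ∀ i, 2 ≤ g i) :
    wt P g * qq P N k m g =
      ENNReal.ofReal (P.G m * (∏ i, P.f (dn k m g i)) / (N : ℝ) ^ 2) := by
  unfold qq
  rw [wt_eq, ← ENNReal.ofReal_mul (Finset.prod_nonneg (fun i _ => f_nonneg P _)),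
    ← rate_eq P k m g hg, mul_div_assoc]

/-- What the support gives. -/
lemma supp (P : Par) (N : ℕ) {M : ℕ} (k : Fin (M + 1)) (m : ℕ) (g : Fin M → ℕ)
    (h : wt P g * qq P N k m g ≠ 0) : (∀ i, 2 ≤ g i) ∧ (∀ i, 2 ≤ dn k m g i) := by
  have hw : wt P g ≠ 0 := fun h0 => h (by rw [h0, zero_mul])
  have hg : ∀ i, 2 ≤ g i := by
    intro i
    apply f_ne P
    intro h0
    apply hw
    unfold wt
    apply Finset.prod_eq_zero (Finset.mem_univ i)
    rw [h0, ENNReal.ofReal_zero]
  refine ⟨hg, ?_⟩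
  rw [wt_qq P N k m g hg] at h
  intro i
  apply f_ne P
  intro h0
  apply h
  rw [Finset.prod_eq_zero (Finset.mem_univ i) h0, mul_zero, zero_div, ENNReal.ofReal_zero]

lemma mv_ge {M : ℕ} (k : Fin (M + 1)) (m : ℕ) (g : Fin M → ℕ) (h1 : ∀ i, 2 ≤ g i)
    (h2 : ∀ i, 2 ≤ dn k m g i) (i : Fin M) : 2 ≤ mv k m g i := by
  have ha := h1 i
  have hb := h2 i
  unfold dn at hb
  unfold mv
  split_ifs at hb ⊢ <;> omega

lemma mv_inj {M : ℕ} (k : Fin (M + 1)) (m : ℕ) (g g' : Fin M → ℕ)
    (h2 : ∀ i, 2 ≤ dn k m g i) (h2' : ∀ i, 2 ≤ dn k m g' i)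
    (h : mv k m g = mv k m g') : g = g' := by
  funext i
  have ha := h2 i
  have hb := h2' i
  have hc := congrFun h i
  unfold dn at ha hb
  unfold mv at hc
  split_ifs at ha hb hc <;> omega

lemma key (P : Par) (N : ℕ) {M : ℕ} (v : (Fin M → ℕ) → ℝ≥0∞) (m : ℕ) (k : Fin (M + 1)) :
    ∑' g, wt P g * (qq P N k m g * v (mv k m g)) ≤
      ∑' g, wt P g * (qq P N (k + 1) m g * v g) := by
  have hne : ∀ g : Fin M → ℕ, wt P g * (qq P N k m g * v (mv k m g)) ≠ 0 →
      wt P g * qq P N k m g ≠ 0 := by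
    intro g hg h0
    apply hg
    rw [← mul_assoc, h0, zero_mul]
  apply tsum_shift _ _ (mv k m)
  · intro g g' hg hg' h
    exact mv_inj k m g g' (supp P N k m g (hne g hg)).2 (supp P N k m g' (hne g' hg')).2 h
  · intro g hg
    obtain ⟨h1, h2⟩ := supp P N k m g (hne g hg)
    have h3 := mv_ge k m g h1 h2
    rw [← mul_assoc, ← mul_assoc, wt_qq P N k m g h1, wt_qq P N (k + 1) m _ h3, dn_mv]

end STA_

open STA_

theorem sta_proof : Stmt_STA := by
  intro P N M top v h1 hv
  classical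
  have e1 : ∀ g : Fin M → ℕ, wt P g * kapT P N top v g ≤
      (∑ k : Fin (M + 1), ∑ m ∈ Finset.range (P.R + 1),
        wt P g * (qq P N k m g * v (mv k m g))) +
      wt P g * ((if ∑ i, g i ≤ top then (1 - tot P N g) else 0) * v g) := by
    intro g
    unfold kapT
    split_ifs with h
    · unfold kap
      rw [mul_add, Finset.mul_sum]
      simp only [Finset.mul_sum]
      rfl
    · simp
  have e2 : ∀ g : Fin M → ℕ, (∑ k : Fin (M + 1), ∑ m ∈ Finset.range (P.R + 1),
        wt P g * (qq P N k m g * v g)) +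
      wt P g * ((if ∑ i, g i ≤ top then (1 - tot P N g) else 0) * v g) = wt P g * v g := by
    intro g
    have h3 : (∑ k : Fin (M + 1), ∑ m ∈ Finset.range (P.R + 1),
        wt P g * (qq P N k m g * v g)) = wt P g * (tot P N g * v g) := by
      unfold tot
      rw [Finset.sum_mul, Finset.mul_sum]
      apply Finset.sum_congr rfl
      intro k _
      rw [Finset.sum_mul, Finset.mul_sum]
      rfl
    rw [h3]
    split_ifs with h
    · rw [← mul_add, ← add_mul, add_tsub_cancel_of_le (h1 g h), one_mul]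
    · rw [hv g (not_le.1 h)]
      simp
  calc ∑' g, wt P g * kapT P N top v g
      ≤ ∑' g, ((∑ k : Fin (M + 1), ∑ m ∈ Finset.range (P.R + 1),
        wt P g * (qq P N k m g * v (mv k m g))) +
      wt P g * ((if ∑ i, g i ≤ top then (1 - tot P N g) else 0) * v g)) :=
        ENNReal.tsum_le_tsum e1
    _ = (∑ k : Fin (M + 1), ∑ m ∈ Finset.range (P.R + 1),
        ∑' g, wt P g * (qq P N k m g * v (mv k m g))) +
      ∑' g, wt P g * ((if ∑ i, g i ≤ top then (1 - tot P N g) else 0) * v g) := by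
        rw [ENNReal.tsum_add]
        congr 1
        rw [Summable.tsum_finsetSum (fun _ _ => ENNReal.summable)]
        apply Finset.sum_congr rfl
        intro k _
        rw [Summable.tsum_finsetSum (fun _ _ => ENNReal.summable)]
    _ ≤ (∑ k : Fin (M + 1), ∑ m ∈ Finset.range (P.R + 1),
        ∑' g, wt P g * (qq P N (k + 1) m g * v g)) +
      ∑' g, wt P g * ((if ∑ i, g i ≤ top then (1 - tot P N g) else 0) * v g) := by
        apply add_le_add _ le_rfl
        exact Finset.sum_le_sum (fun k _ => Finset.sum_le_sum (fun m _ => key P N v m k))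
    _ = (∑ k : Fin (M + 1), ∑ m ∈ Finset.range (P.R + 1),
        ∑' g, wt P g * (qq P N k m g * v g)) +
      ∑' g, wt P g * ((if ∑ i, g i ≤ top then (1 - tot P N g) else 0) * v g) := by
        congr 1
        exact Equiv.sum_comp (Equiv.addRight (1 : Fin (M + 1))) (fun k =>
          ∑ m ∈ Finset.range (P.R + 1), ∑' g, wt P g * (qq P N k m g * v g))
    _ = ∑' g, ((∑ k : Fin (M + 1), ∑ m ∈ Finset.range (P.R + 1),
        wt P g * (qq P N k m g * v g)) +
      wt P g * ((if ∑ i, g i ≤ top then (1 - tot P N g) else 0) * v g)) := by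
        rw [ENNReal.tsum_add]
        congr 1
        rw [Summable.tsum_finsetSum (fun _ _ => ENNReal.summable)]
        apply Finset.sum_congr rfl
        intro k _
        rw [Summable.tsum_finsetSum (fun _ _ => ENNReal.summable)]
    _ = ∑' g, wt P g * v g := tsum_congr e2

end Pool.Agent.K3L
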