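import Pool.Agent.K3L.Stmts

/-!
# MP_79568f_pr, lower bound: module TOT
-/

set_option autoImplicit false

namespace Pool.Agent.K3L

open scoped ENNReal

namespace TOT_

theorem sum_sub (n : ℕ) : ∀ a : ℕ, 2 * ∑ m ∈ Finset.range n, (a - m) ≤ a * (a + 1) := by
  induction n with
  | zero => intro a; simp
  | succ n ih =>
    intro a
    rw [Finset.sum_range_succ']
    have h := ih (a - 1)
    have e : ∑ m ∈ Finset.range n, (a - (m + 1)) = ∑ m ∈ Finset.range n, (a - 1 - m) :=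
      Finset.sum_congr rfl fun m _ => by omega
    rw [e]
    rcases a with _ | a
    · simp
    · simp only [Nat.add_sub_cancel, Nat.sub_zero] at h ⊢
      nlinarith

theorem f_nonneg (P : Par) (t : ℕ) : 0 ≤ P.f t := by
  by_cases h : 2 ≤ t
  · exact (P.f_pos t h).le
  · rw [P.f_zero t (by omega)]

theorem term_le (P : Par) (g m : ℕ) (hg : 2 ≤ g) :
    P.G (m + 1) * P.f (g - (m + 1)) / P.f g ≤ ((g - 2 - m : ℕ) : ℝ) := by
  have hf := P.f_pos g hg
  rw [div_le_iff₀ hf]
  by_cases ht : 2 ≤ g - (m + 1)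
  · have h := P.key (g - (m + 1)) (m + 1) ht
    have e : g - (m + 1) + (m + 1) = g := by omega
    rw [e] at h
    have e2 : (((g - (m + 1) : ℕ) : ℝ) - 1) = ((g - 2 - m : ℕ) : ℝ) := by
      have : g - (m + 1) = (g - 2 - m) + 1 := by omega
      rw [this]
      push_cast
      ring
    rw [e2] at h
    exact h
  · rw [P.f_zero (g - (m + 1)) (by omega), mul_zero]
    positivity

theorem inner_le (P : Par) (g : ℕ) :
    ∑ m ∈ Finset.range (P.R + 1), P.G m * P.f (g - m) / P.f g ≤ (g : ℝ) ^ 2 / 2 := by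
  by_cases hg : 2 ≤ g
  · rw [Finset.sum_range_succ', P.G_zero, zero_mul, zero_div, add_zero]
    have h1 : ∑ m ∈ Finset.range P.R, P.G (m + 1) * P.f (g - (m + 1)) / P.f g ≤
        ∑ m ∈ Finset.range P.R, ((g - 2 - m : ℕ) : ℝ) :=
      Finset.sum_le_sum fun m _ => term_le P g m hg
    have h2 := sum_sub P.R (g - 2)
    have h3 : (g - 2) * (g - 2 + 1) ≤ g * g := Nat.mul_le_mul (by omega) (by omega)
    have h4 : ((2 * ∑ m ∈ Finset.range P.R, (g - 2 - m) : ℕ) : ℝ) ≤ ((g * g : ℕ) : ℝ) := by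
      exact_mod_cast h2.trans h3
    push_cast at h4
    nlinarith
  · rw [Finset.sum_eq_zero]
    · positivity
    · intro m _
      rw [P.f_zero g (by omega), div_zero]

theorem rate_nonneg (P : Par) {M : ℕ} (k : Fin (M + 1)) (m : ℕ) (g : Fin M → ℕ) : 0 ≤ rate P k m g := by
  refine Fin.cases ?_ (fun i => ?_) k
  · rw [rate_zero]
    exact P.G_nonneg m
  · rw [rate_succ]
    exact div_nonneg (mul_nonneg (P.G_nonneg m) (f_nonneg P _)) (f_nonneg P _)

end TOT_

open TOT_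

theorem tot_proof : Stmt_TOT := by
  intro P N M top g hN htop hg
  have hnn : ∀ (k : Fin (M + 1)) (m : ℕ), 0 ≤ rate P k m g / (N : ℝ) ^ 2 := fun k m =>
    div_nonneg (rate_nonneg P k m g) (by positivity)
  have e : tot P N g = ENNReal.ofReal (∑ k : Fin (M + 1), ∑ m ∈ Finset.range (P.R + 1),
      rate P k m g / (N : ℝ) ^ 2) := by
    unfold tot
    rw [ENNReal.ofReal_sum_of_nonneg fun k _ => Finset.sum_nonneg fun m _ => hnn k m]
    refine Finset.sum_congr rfl fun k _ => ?_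
    rw [ENNReal.ofReal_sum_of_nonneg fun m _ => hnn k m]
  rw [e, ENNReal.ofReal_le_one]
  rcases Nat.eq_zero_or_pos N with h0 | hpos
  · subst h0
    simp
  have hN2 : (0 : ℝ) < (N : ℝ) ^ 2 := by positivity
  simp only [← Finset.sum_div]
  rw [div_le_one hN2, Fin.sum_univ_succ]
  simp only [rate_zero, rate_succ]
  have h1 : ∑ m ∈ Finset.range (P.R + 1), P.G m ≤ (N : ℝ) ^ 2 / 2 := by
    have : cumG P P.R = ∑ m ∈ Finset.range (P.R + 1), P.G m := rfl
    linarith
  have h2 : ∑ i : Fin M, ∑ m ∈ Finset.range (P.R + 1), P.G m * P.f (g i - m) / P.f (g i) ≤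
      ∑ i : Fin M, (g i : ℝ) ^ 2 / 2 := Finset.sum_le_sum fun i _ => inner_le P (g i)
  have h3 : ∑ i : Fin M, (g i : ℝ) ^ 2 ≤ (N : ℝ) ^ 2 := by
    have hs : (∑ i : Fin M, (g i : ℝ)) ≤ N := by
      have : ((∑ i, g i : ℕ) : ℝ) ≤ ((N : ℕ) : ℝ) := by exact_mod_cast hg.trans htop
      push_cast at this
      exact this
    have hle : ∀ i : Fin M, (g i : ℝ) ≤ N := fun i =>
      (Finset.single_le_sum (f := fun i : Fin M => (g i : ℝ)) (fun _ _ => Nat.cast_nonneg _)
        (Finset.mem_univ i)).trans hs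
    calc ∑ i : Fin M, (g i : ℝ) ^ 2 ≤ ∑ i : Fin M, (N : ℝ) * (g i : ℝ) := by
          refine Finset.sum_le_sum fun i _ => ?_
          rw [pow_two]
          exact mul_le_mul_of_nonneg_right (hle i) (Nat.cast_nonneg _)
      _ = (N : ℝ) * ∑ i : Fin M, (g i : ℝ) := by rw [Finset.mul_sum]
      _ ≤ (N : ℝ) * N := mul_le_mul_of_nonneg_left hs (Nat.cast_nonneg _)
      _ = (N : ℝ) ^ 2 := by ring
  rw [← Finset.sum_div] at h2
  linarith

end Pool.Agent.K3L
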