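import Pool.Agent.K3L.Stmts

/-!
# MP_79568f_pr, lower bound: module TRJ (trajectories)
-/

set_option autoImplicit false

namespace Pool.Agent.K3L

namespace TRJ_

theorem base (hINV : Stmt_INV) (P : Par) (N M top : ℕ) : ∀ (n : ℕ) (e : St M) (x : Fin n → ℝ × ℝ), Inv top e →
    Inv top (traj P N n x e) ∧ (traj P N n x e 0).1 = (e 0).1 - ∑ i, (mark P N (x i) : ℤ) := by
  intro n
  induction n with
  | zero =>
    intro e x he
    refine ⟨he, ?_⟩
    simp [traj]
  | succ n ih =>
    intro e x he
    obtain ⟨h1, h2⟩ := ih (step P N e (x 0)) (fun i => x i.succ) (hINV P N M top e (x 0) he)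
    refine ⟨h1, ?_⟩
    change (traj P N n (fun i => x i.succ) (step P N e (x 0)) 0).1 = _
    rw [h2, step_zero, Fin.sum_univ_succ]
    ring

theorem tele : ∀ (M : ℕ) (e : St M), (∀ k : Fin M, sm (e k.castSucc) + 2 ≤ sm (e k.succ)) →
    sm (e (Fin.last M)) = sm (e 0) + ∑ i, (gap e i : ℤ) := by
  intro M
  induction M with
  | zero =>
    intro e _
    simp
  | succ M ih =>
    intro e he
    have h1 := ih (fun i => e i.castSucc) (fun k => by
      have := he k.castSucc
      rw [Fin.succ_castSucc] at this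
      exact this)
    rw [Fin.sum_univ_castSucc]
    have h2 : ∀ i : Fin M, gap (fun i : Fin (M + 1) => e i.castSucc) i = gap e i.castSucc := by
      intro i
      unfold gap
      rw [Fin.succ_castSucc]
    have h3 : (gap e (Fin.last M) : ℤ) = sm (e (Fin.last M).succ) - sm (e (Fin.last M).castSucc) := by
      have := he (Fin.last M)
      unfold gap
      rw [Int.toNat_of_nonneg (by omega)]
    simp only [h2] at h1
    rw [h3]
    have h4 : sm (e (Fin.last M).castSucc) = sm (e 0) + ∑ i : Fin M, (gap e i.castSucc : ℤ) := h1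
    have h5 : sm (e (Fin.last (M + 1))) = sm (e (Fin.last M).succ) := by rw [Fin.succ_last]
    rw [h5]
    linarith

end TRJ_

theorem trj_proof (hINV : Stmt_INV) : Stmt_TRJ := by
  refine ⟨fun P N M top n e x he => TRJ_.base hINV P N M top n e x he, fun M top e he => ?_⟩
  rw [TRJ_.tele M e he.2.2.2.1]
  have h0 : sm (e 0) = (e 0).1 := by
    unfold sm
    rw [he.1, add_zero]
  rw [h0]

end Pool.Agent.K3L
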