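import Pool.Agent.K3L.INV
import Pool.Agent.K3L.TRJ
import Pool.Agent.K3L.INI
import Pool.Agent.K3L.CHN
import Pool.Agent.K3L.MRK
import Pool.Agent.K3L.MCH
import Pool.Agent.K3L.HIT
import Pool.Agent.K3L.KER
import Pool.Agent.K3L.ITR
import Pool.Agent.K3L.TOT
import Pool.Agent.K3L.STA
import Pool.Agent.K3L.ITS
import Pool.Agent.K3L.CHB
import Pool.Agent.K3L.MSR
import Pool.Agent.K3L.SRT
import Pool.Agent.K3L.BOX
import Pool.Agent.K3L.BIN
import Pool.Agent.K3L.BXL
import Pool.Agent.K3L.DET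
import Pool.Agent.K3L.ANA
import Pool.Agent.K3L.NUM
import Pool.Agent.K3L.EXI
import Pool.Agent.K3L.FIN

/-!
# Assembly: the lower bound for i.i.d. uniform points of the unit cube
-/

set_option autoImplicit false

namespace Pool.Agent.K3L

open MeasureTheory Filter Topology ProbabilityTheory
open scoped ENNReal

theorem inv : Stmt_INV := inv_proof
theorem trj : Stmt_TRJ := trj_proof inv
theorem ini' : Stmt_INI := ini_proof
theorem chn : Stmt_CHN := chn_proof
theorem mrk : Stmt_MRK := mrk_proof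
theorem mch : Stmt_MCH := mch_proof mrk
theorem hit : Stmt_HIT := hit_proof
theorem ker : Stmt_KER := ker_proof mrk hit
theorem itr : Stmt_ITR := itr_proof inv ker trj
theorem tot' : Stmt_TOT := tot_proof
theorem its : Stmt_ITS := its_proof sta_proof
theorem chb : Stmt_CHB := chb_proof
theorem msr : Stmt_MSR := msr_proof
theorem srt : Stmt_SRT := srt_proof msr
theorem bxl : Stmt_BXL := bxl_proof (box_proof msr) bin_proof
theorem exi : Stmt_EXI := exi_proof ini' trj itr tot' its chb mch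
theorem main : Stmt_MAIN := fin_proof exi bxl chn det_proof ana_proof

/-- From i.i.d. uniform points of the cube to the hypothesis `HypU`. -/
lemma hypU_of_tendsto {Ω : Type*} [MeasurableSpace Ω] {μ : Measure Ω} [IsProbabilityMeasure μ]
    {X : ℕ → Ω → Fin 3 → ℝ} (hX : ∀ i, Measurable (X i))
    (hunif : ∀ i, μ.map (X i) = (volume : Measure (Fin 3 → ℝ)).restrict (Set.Icc 0 1))
    (hind : iIndepFun X μ) {κ : ℝ}
    (h : Tendsto (fun n : ℕ => μ {ω | κ * (n : ℝ) ^ ((1 : ℝ) / 3) ≤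
        (longest3 (fun i : Fin n => X i ω) : ℝ)}) atTop (𝓝 0)) : HypU κ := by
  refine tendsto_of_tendsto_of_tendsto_of_le_of_le tendsto_const_nhds h (fun n => zero_le)
    (fun n => ?_)
  refine (srt n _).trans (le_of_eq ?_)
  have h1 : μ.map (fun ω (i : Fin n) => X i ω) = P3 n := by
    have h2 := (iIndepFun_iff_map_fun_eq_pi_map (fun i : Fin n => (hX i).aemeasurable)).1
      (hind.precomp (g := fun i : Fin n => (i : ℕ)) Fin.val_injective)
    rw [h2]
    unfold P3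
    congr 1
    funext i
    exact hunif i
  have hm : Measurable (fun ω (i : Fin n) => X i ω) := measurable_pi_lambda _ fun i => hX i
  have hmeas : MeasurableSet {x : Fin n → Fin 3 → ℝ |
      κ * (n : ℝ) ^ ((1 : ℝ) / 3) ≤ (longest3 x : ℝ)} := by
    have h3 : Measurable (fun x : Fin n → Fin 3 → ℝ => (longest3 x : ℝ)) :=
      measurable_from_top.comp (msr.1 n)
    exact measurableSet_le measurable_const h3
  rw [← h1, Measure.map_apply hm hmeas]
  rfl

/-- If `27 J > κ³ μ³` the probability that the longest chain exceeds `κ n^{1/3}` does not tend to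
zero. -/
theorem not_tendsto (P : Par) {κ : ℝ} (hκ : 0 < κ) (hP : κ ^ 3 * P.μ ^ 3 < 27 * P.J)
    {Ω : Type*} [MeasurableSpace Ω] {μ : Measure Ω} [IsProbabilityMeasure μ]
    {X : ℕ → Ω → Fin 3 → ℝ} (hX : ∀ i, Measurable (X i))
    (hunif : ∀ i, μ.map (X i) = (volume : Measure (Fin 3 → ℝ)).restrict (Set.Icc 0 1))
    (hind : iIndepFun X μ) :
    ¬ Tendsto (fun n : ℕ => μ {ω | κ * (n : ℝ) ^ ((1 : ℝ) / 3) ≤
        (longest3 (fun i : Fin n => X i ω) : ℝ)}) atTop (𝓝 0) := fun h =>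
  absurd (main P κ hκ (hypU_of_tendsto hX hunif hind h)) (not_le.2 hP)

/-- Consequence for a limit in probability. -/
theorem lt_of_limit (P : Par) {κ : ℝ} (hκ : 0 < κ) (hP : κ ^ 3 * P.μ ^ 3 < 27 * P.J)
    {Ω : Type*} [MeasurableSpace Ω] {μ : Measure Ω} [IsProbabilityMeasure μ]
    {X : ℕ → Ω → Fin 3 → ℝ} (hX : ∀ i, Measurable (X i))
    (hunif : ∀ i, μ.map (X i) = (volume : Measure (Fin 3 → ℝ)).restrict (Set.Icc 0 1))
    (hind : iIndepFun X μ) {K : ℝ}
    (hK : ∀ ε : ℝ, 0 < ε → Tendsto (fun n : ℕ => μ {ω | ε <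
        |(longest3 (fun i : Fin n => X i ω) : ℝ) / (n : ℝ) ^ ((1 : ℝ) / 3) - K|})
          atTop (𝓝 0)) : κ < K := by
  by_contra hcon
  rw [not_lt] at hcon
  obtain ⟨κ', hκ', hκ'2⟩ : ∃ κ' : ℝ, κ < κ' ∧ κ' ^ 3 * P.μ ^ 3 < 27 * P.J := by
    have h1 : Tendsto (fun t : ℝ => t ^ 3 * P.μ ^ 3) (𝓝[>] κ) (𝓝 (κ ^ 3 * P.μ ^ 3)) :=
      ((by fun_prop : Continuous (fun t : ℝ => t ^ 3 * P.μ ^ 3)).tendsto κ).mono_left
        nhdsWithin_le_nhds
    obtain ⟨t, ht1, ht2⟩ := ((h1.eventually (gt_mem_nhds hP)).and self_mem_nhdsWithin).exists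
    exact ⟨t, ht2, ht1⟩
  refine not_tendsto P (hκ.trans hκ') hκ'2 hX hunif hind ?_
  have h2 := hK ((κ' - K) / 2) (by linarith)
  refine tendsto_of_tendsto_of_tendsto_of_le_of_le' tendsto_const_nhds h2
    (Eventually.of_forall fun n => zero_le) ?_
  filter_upwards [eventually_ge_atTop 1] with n hn
  refine measure_mono fun ω hω => ?_
  have hn0 : (0 : ℝ) < (n : ℝ) ^ ((1 : ℝ) / 3) :=
    Real.rpow_pos_of_pos (by exact_mod_cast hn) _
  have h3 : κ' ≤ (longest3 (fun i : Fin n => X i ω) : ℝ) / (n : ℝ) ^ ((1 : ℝ) / 3) := by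
    rw [le_div_iff₀ hn0]
    exact hω
  show (κ' - K) / 2 < |_|
  rw [lt_abs]
  left
  linarith

end Pool.Agent.K3L
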