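import Pool.Agent.K3L.Defs

/-!
# MP_79568f_pr, lower bound: the statements of the modules
-/

set_option autoImplicit false

namespace Pool.Agent.K3L

open MeasureTheory Filter Topology
open scoped ENNReal

/-! ## The process: deterministic part -/

/-- The invariant is preserved. -/
def Stmt_INV : Prop := ∀ (P : Par) (N M top : ℕ) (e : St M) (x : ℝ × ℝ),
  Inv top e → Inv top (step P N e x)

/-- Trajectories: invariant, base, telescoping. -/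
def Stmt_TRJ : Prop :=
  (∀ (P : Par) (N M top n : ℕ) (e : St M) (x : Fin n → ℝ × ℝ), Inv top e →
    Inv top (traj P N n x e) ∧
      (traj P N n x e 0).1 = (e 0).1 - ∑ i, (mark P N (x i) : ℤ)) ∧
  (∀ (M top : ℕ) (e : St M), Inv top e →
    sm (e (Fin.last M)) = (e 0).1 + ∑ i, (gap e i : ℤ))

/-- The initial state. -/
def Stmt_INI : Prop := ∀ (M a top : ℕ) (g : Fin M → ℕ), (∀ i, 2 ≤ g i) → a + ∑ i, g i ≤ top →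
  Inv top (ini a g) ∧ gap (ini a g) = g ∧ (ini a g 0).1 = a ∧
    ∀ j : Fin (M + 1), sm (ini a g j) = (a : ℤ) + psum g j

/-- The end point of level `k` is the end of an increasing sequence of `k` points, or of `k - j`
points which starts above the initial end point of a level `j ≥ 1`. -/
def Stmt_CHN : Prop := ∀ (P : Par) (N M n : ℕ) (e : St M) (x : Fin n → ℝ × ℝ) (k : Fin (M + 1)),
  ∃ S : Finset (Fin n), IsInc x S ∧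
    (∀ i ∈ S, (cell N (x i)).1 ≤ (traj P N n x e k).1 ∧
      (cell N (x i)).2 ≤ (traj P N n x e k).2) ∧
    (S.card = (k : ℕ) ∨ ∃ j : Fin (M + 1), (j : ℕ) + S.card = (k : ℕ) ∧ 1 ≤ (j : ℕ) ∧
      (∀ i ∈ S, (e j).1 < (cell N (x i)).1 ∧ (e j).2 < (cell N (x i)).2) ∧
      (e j).1 ≤ (traj P N n x e k).1 ∧ (e j).2 ≤ (traj P N n x e k).2)

/-! ## The process: one step probabilities -/

/-- The law of the mark. -/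
def Stmt_MRK : Prop :=
  (∀ (P : Par) (N : ℕ), Measurable (mark P N)) ∧
  (∀ (P : Par) (N : ℕ) (x : ℝ × ℝ), mark P N x ≤ P.R) ∧
  (∀ (P : Par) (N m : ℕ), 1 ≤ N → cumG P P.R ≤ (N : ℝ) → 1 ≤ m →
    sq {x | mark P N x = m} = ENNReal.ofReal (P.G m / (N : ℝ) ^ 2))

/-- Chebyshev for the marks. -/
def Stmt_MCH : Prop := ∀ (P : Par) (N n : ℕ) (t : ℝ), 1 ≤ N → cumG P P.R ≤ (N : ℝ) → 0 < t →
  P2 n {x | t ≤ |(∑ i, (mark P N (x i) : ℝ)) - n * (P.J / (N : ℝ) ^ 2)|} ≤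
    ENNReal.ofReal (n * (P.R * P.J / (N : ℝ) ^ 2) / t ^ 2)

/-- The law of a hit. -/
def Stmt_HIT : Prop :=
  (∀ (P : Par) (N M : ℕ) (e : St M) (k : Fin M), MeasurableSet {x | Hit P N e k x}) ∧
  (∀ (P : Par) (N M top m : ℕ) (e : St M) (k : Fin M), 1 ≤ N → top ≤ N → Inv top e →
    0 ≤ (e 0).1 → 1 ≤ m →
    sq {x | Hit P N e k x ∧ sm (cell N x) + (m : ℤ) = sm (e k.succ)} =
      ENNReal.ofReal (rate P k.succ m (gap e) / (N : ℝ) ^ 2))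

/-- The one step inequality. -/
def Stmt_KER : Prop := ∀ (P : Par) (N M top : ℕ) (e : St M) (v : (Fin M → ℕ) → ℝ≥0∞), 1 ≤ N →
  top ≤ N → cumG P P.R ≤ (N : ℝ) → Inv top e → 0 ≤ (e 0).1 →
  ∫⁻ x, v (gap (step P N e x)) ∂sq ≤ kap P N v (gap e)

/-- Iteration. -/
def Stmt_ITR : Prop := ∀ (P : Par) (N M top n : ℕ) (e : St M) (B : Set (Fin M → ℕ)), 1 ≤ N →
  top ≤ N → cumG P P.R ≤ (N : ℝ) → Inv top e →
  P2 n {x | 0 ≤ (traj P N n x e 0).1 ∧ gap (traj P N n x e) ∈ B} ≤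
    (kapT P N top)^[n] (ind top B) (gap e)

/-! ## The stationary weight -/

/-- The total rate is at most one. -/
def Stmt_TOT : Prop := ∀ (P : Par) (N M top : ℕ) (g : Fin M → ℕ),
  2 * cumG P P.R ≤ (N : ℝ) ^ 2 → top ≤ N → ∑ i, g i ≤ top → tot P N g ≤ 1

/-- The product weight is (sub)stationary. -/
def Stmt_STA : Prop := ∀ (P : Par) (N M top : ℕ) (v : (Fin M → ℕ) → ℝ≥0∞),
  (∀ g : Fin M → ℕ, ∑ i, g i ≤ top → tot P N g ≤ 1) → (∀ g, top < ∑ i, g i → v g = 0) →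
  ∑' g, wt P g * kapT P N top v g ≤ ∑' g, wt P g * v g

/-- Iterated form. -/
def Stmt_ITS : Prop := ∀ (P : Par) (N M top n : ℕ) (B : Set (Fin M → ℕ)),
  (∀ g : Fin M → ℕ, ∑ i, g i ≤ top → tot P N g ≤ 1) →
  ∑' g, wt P g * (kapT P N top)^[n] (ind top B) g ≤ ∑' g, wt P g * ib B g

/-- Chebyshev for the product weight. -/
def Stmt_CHB : Prop :=
  (∀ (P : Par) (M : ℕ), ∑' g : Fin M → ℕ, wt P g = 1) ∧
  (∀ (P : Par) (M j : ℕ) (t : ℝ), j ≤ M → 0 < t →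
    ∑' g : Fin M → ℕ, wt P g * ib {g | t ≤ |(psum g j : ℝ) - j * P.μ|} g ≤
      ENNReal.ofReal (M * P.V / t ^ 2))

/-- Existence of a good initial gap vector. -/
def Stmt_EXI : Prop := ∀ (P : Par) (A B : ℕ) (ε : ℝ), 0 < ε → ε ≤ 1 / 4 → 1 ≤ B →
  B * P.μ + 3 ≤ (A : ℝ) → P.J ≤ (A : ℝ) ^ 2 / 2 → ∀ᶠ k : ℕ in atTop,
    ∃ g : Fin (B * k) → ℕ, (∀ i, 2 ≤ g i) ∧
      (∀ j ≤ B * k, j * P.μ - ε * k ≤ (psum g j : ℝ)) ∧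
      (psum g (B * k) : ℝ) ≤ (B * P.μ + ε) * k ∧
      P2 (k ^ 3) {x | (1 + B * P.μ - P.J / (A : ℝ) ^ 2 + ε) * k <
        (sm (traj P (A * k) (k ^ 3) x (ini k g) (Fin.last (B * k))) : ℝ)} ≤ 1 / 2

/-! ## Longest increasing sequences -/

/-- Measurability. -/
def Stmt_MSR : Prop :=
  (∀ n : ℕ, Measurable (fun x : Fin n → Fin 3 → ℝ => longest3 x)) ∧
  (∀ (n : ℕ) (A : Set (ℝ × ℝ)), MeasurableSet A →
    Measurable (fun x : Fin n → ℝ × ℝ => L2 x A))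

/-- The third coordinate may be replaced by the index. -/
def Stmt_SRT : Prop := ∀ (n : ℕ) (r : ℝ),
  P2 n {x | r ≤ (L2 x Set.univ : ℝ)} ≤ P3 n {x | r ≤ (longest3 x : ℝ)}

/-- Restriction to a box. -/
def Stmt_BOX : Prop := ∀ (n m : ℕ) (r a₁ b₁ a₂ b₂ : ℝ), 0 ≤ a₁ → a₁ < b₁ → b₁ ≤ 1 →
  0 ≤ a₂ → a₂ < b₂ → b₂ ≤ 1 →
  P2 n {x | r ≤ (L2 x (bx a₁ b₁ a₂ b₂) : ℝ)} ≤
    P2 n {x | m < cnt x (bx a₁ b₁ a₂ b₂)} + P2 m {x | r ≤ (L2 x Set.univ : ℝ)}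

/-- Chebyshev for the number of points in a box. -/
def Stmt_BIN : Prop := ∀ (n : ℕ) (t a₁ b₁ a₂ b₂ : ℝ), 0 ≤ a₁ → a₁ < b₁ → b₁ ≤ 1 →
  0 ≤ a₂ → a₂ < b₂ → b₂ ≤ 1 → 0 < t →
  P2 n {x | t ≤ |(cnt x (bx a₁ b₁ a₂ b₂) : ℝ) - n * ((b₁ - a₁) * (b₂ - a₂))|} ≤
    ENNReal.ofReal (n / t ^ 2)

/-- The upper bound hypothesis in a box. -/
def Stmt_BXL : Prop := ∀ κ κ' a₁ b₁ a₂ b₂ : ℝ, 0 < κ → κ < κ' → HypU κ → 0 ≤ a₁ → a₁ < b₁ →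
  b₁ ≤ 1 → 0 ≤ a₂ → a₂ < b₂ → b₂ ≤ 1 →
  Tendsto (fun k : ℕ => P2 (k ^ 3) {x | κ' * ((b₁ - a₁) * (b₂ - a₂)) ^ ((1 : ℝ) / 3) * k ≤
    (L2 x (bx a₁ b₁ a₂ b₂) : ℝ)}) atTop (𝓝 0)

/-! ## The end of the proof -/

/-- The deterministic mesh argument. -/
def Stmt_DET : Prop := ∀ (A D k n s : ℕ) (κ : ℝ) (x : Fin n → ℝ × ℝ) (S : Finset (Fin n))
  (q : ℤ × ℤ), 1 ≤ A → 1 ≤ D → 1 ≤ k → 0 < κ → IsInc x S → S.Nonempty →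
  (∀ i ∈ S, (k : ℤ) + (s / 2 : ℕ) < (cell (A * k) (x i)).1 ∧
    ((s - s / 2 : ℕ) : ℤ) < (cell (A * k) (x i)).2 ∧
    (cell (A * k) (x i)).1 ≤ q.1 ∧ (cell (A * k) (x i)).2 ≤ q.2) →
  q.1 + 1 ≤ (A : ℤ) * k → q.2 + 1 ≤ (A : ℤ) * k →
  (∀ a b c : ℕ, a ≤ A * D → b ≤ A * D → c ≤ A * D →
    (1 + (a : ℝ) / D) / A < ((b : ℝ) / D) / A → ((a : ℝ) / D) / A < ((c : ℝ) / D) / A →
    (L2 x (bx ((1 + (a : ℝ) / D) / A) (((b : ℝ) / D) / A) (((a : ℝ) / D) / A)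
      (((c : ℝ) / D) / A)) : ℝ) <
      κ * ((((b : ℝ) / D) / A - (1 + (a : ℝ) / D) / A) *
        (((c : ℝ) / D) / A - ((a : ℝ) / D) / A)) ^ ((1 : ℝ) / 3) * k) →
  (S.card : ℝ) ^ 3 ≤
    κ ^ 3 * ((q.1 : ℝ) + q.2 - k - s + 3 + 4 * k / D) ^ 2 * k / (4 * (A : ℝ) ^ 2)

/-- The real inequality. -/
def Stmt_ANA : Prop := ∀ c w : ℝ, 0 < c → c < 1 → 0 < w → ∃ δ₀ : ℝ, 0 < δ₀ ∧
  ∀ δ y : ℝ, 0 < δ → δ ≤ δ₀ → w - δ ≤ y → ¬ (y ^ 3 ≤ 27 * c / 4 * w * (y - w + δ) ^ 2)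

/-- The general lower bound. -/
def Stmt_MAIN : Prop := ∀ (P : Par) (κ : ℝ), 0 < κ → HypU κ → 27 * P.J ≤ κ ^ 3 * P.μ ^ 3

/-- Good parameters. -/
def Stmt_NUM : Prop := ∃ P : Par, (2.08 : ℝ) ^ 3 * P.μ ^ 3 < 27 * P.J

end Pool.Agent.K3L
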